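import Mathlib

/-!
Small toolbox on `C₀(ℕ, F)`: sequences tending to zero, and maps into this space that are
coordinatewise continuous with locally uniformly small tails.
-/

open scoped ZeroAtInfty
open Filter Topology

namespace Pool.Agent.Helper52.D9

variable {F : Type} [NormedAddCommGroup F]

theorem c0_apply_le (f : C₀(ℕ, F)) (n : ℕ) : ‖f n‖ ≤ ‖f‖ := by
  rw [← ZeroAtInftyContinuousMap.norm_toBCF_eq_norm]
  exact f.toBCF.norm_coe_le_norm n

theorem c0_norm_le {f : C₀(ℕ, F)} {r : ℝ} (hr : 0 ≤ r) (h : ∀ n, ‖f n‖ ≤ r) : ‖f‖ ≤ r := by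
  rw [← ZeroAtInftyContinuousMap.norm_toBCF_eq_norm]
  exact (BoundedContinuousFunction.norm_le hr).mpr h

theorem cocompact_nat : cocompact ℕ = atTop := by
  rw [cocompact_eq_cofinite, Nat.cofinite_eq_atTop]

theorem c0_tendsto (f : C₀(ℕ, F)) : Tendsto f atTop (𝓝 0) := by
  have := f.zero_at_infty'
  rw [cocompact_nat] at this
  exact this

open Classical in
/-- the sequence `g` as an element of `C₀(ℕ, F)` if it tends to zero (and `0` otherwise) -/
noncomputable def toC0 (g : ℕ → F) : C₀(ℕ, F) :=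
  if h : Tendsto g atTop (𝓝 0) then
    { toFun := g
      continuous_toFun := continuous_of_discreteTopology
      zero_at_infty' := by rw [cocompact_nat]; exact h }
  else 0

theorem toC0_apply {g : ℕ → F} (h : Tendsto g atTop (𝓝 0)) (n : ℕ) : toC0 g n = g n := by
  unfold toC0
  rw [dif_pos h]
  rfl

theorem c0_dist_apply (f g : C₀(ℕ, F)) (n : ℕ) : ‖f n - g n‖ ≤ ‖f - g‖ := by
  have := c0_apply_le (f - g) n
  simpa using this

theorem c0_continuous_apply (n : ℕ) : Continuous (fun f : C₀(ℕ, F) => f n) := by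
  refine (LipschitzWith.of_dist_le_mul (K := 1) fun f g => ?_).continuous
  rw [dist_eq_norm, dist_eq_norm, NNReal.coe_one, one_mul]
  exact c0_dist_apply f g n

theorem c0_tendsto_apply (f0 : C₀(ℕ, F)) :
    Tendsto (fun p : C₀(ℕ, F) × ℕ => p.1 p.2) (𝓝 f0 ×ˢ atTop) (𝓝 0) := by
  refine squeeze_zero_norm (a := fun p : C₀(ℕ, F) × ℕ => ‖p.1 - f0‖ + ‖f0 p.2‖) (fun p => ?_) ?_
  · have h1 := c0_dist_apply p.1 f0 p.2
    have h2 : ‖p.1 p.2‖ ≤ ‖p.1 p.2 - f0 p.2‖ + ‖f0 p.2‖ := by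
      have := norm_add_le (p.1 p.2 - f0 p.2) (f0 p.2)
      simpa using this
    linarith
  · have h1 : Tendsto (fun p : C₀(ℕ, F) × ℕ => ‖p.1 - f0‖) (𝓝 f0 ×ˢ atTop) (𝓝 0) := by
      have : Tendsto (fun f : C₀(ℕ, F) => ‖f - f0‖) (𝓝 f0) (𝓝 0) := by
        have h : Continuous (fun f : C₀(ℕ, F) => ‖f - f0‖) := by fun_prop
        have := h.tendsto f0
        simpa using this
      exact this.comp tendsto_fst
    have h2 : Tendsto (fun p : C₀(ℕ, F) × ℕ => ‖f0 p.2‖) (𝓝 f0 ×ˢ atTop) (𝓝 0) := by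
      have : Tendsto (fun n : ℕ => ‖f0 n‖) atTop (𝓝 0) := by
        have := (c0_tendsto f0).norm
        simpa using this
      exact this.comp tendsto_snd
    simpa using h1.add h2

variable {X : Type} [TopologicalSpace X]

/-- locally uniformly small tails -/
def Tails (g : X → ℕ → F) : Prop :=
  ∀ x0 : X, Tendsto (fun p : X × ℕ => g p.1 p.2) (𝓝 x0 ×ˢ atTop) (𝓝 0)

theorem Tails.tendsto {g : X → ℕ → F} (h : Tails g) (x : X) : Tendsto (g x) atTop (𝓝 0) := by
  have h1 : Tendsto (fun n : ℕ => (x, n)) atTop (𝓝 x ×ˢ atTop) :=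
    tendsto_const_nhds.prodMk tendsto_id
  exact (h x).comp h1

theorem Tails.exists {g : X → ℕ → F} (h : Tails g) (x0 : X) {ε : ℝ} (hε : 0 < ε) :
    ∃ N : ℕ, ∀ᶠ x in 𝓝 x0, ∀ n, N ≤ n → ‖g x n‖ < ε := by
  have h1 : ∀ᶠ p : X × ℕ in 𝓝 x0 ×ˢ atTop, ‖g p.1 p.2‖ < ε := by
    have := (h x0).norm
    rw [norm_zero] at this
    exact this.eventually (gt_mem_nhds hε)
  obtain ⟨pa, ha, pb, hb, hab⟩ := eventually_prod_iff.mp h1
  obtain ⟨N, hN⟩ := eventually_atTop.mp hb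
  exact ⟨N, ha.mono fun x hx n hn => hab hx (hN n hn)⟩

theorem Tails.of_exists {g : X → ℕ → F}
    (h : ∀ x0 : X, ∀ ε : ℝ, 0 < ε → ∃ N : ℕ, ∀ᶠ x in 𝓝 x0, ∀ n, N ≤ n → ‖g x n‖ ≤ ε) :
    Tails g := by
  intro x0
  rw [Metric.tendsto_nhds]
  intro ε hε
  obtain ⟨N, hN⟩ := h x0 (ε / 2) (half_pos hε)
  refine eventually_prod_iff.mpr ⟨_, hN, _, eventually_ge_atTop N, ?_⟩
  intro x hx n hn
  rw [dist_zero_right]
  linarith [hx n hn]

theorem Tails.uniform {g : X → ℕ → F} (h : Tails g) {K : Set X} (hK : IsCompact K) {ε : ℝ}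
    (hε : 0 < ε) : ∃ N : ℕ, ∀ x ∈ K, ∀ n, N ≤ n → ‖g x n‖ < ε := by
  refine hK.induction_on (p := fun S => ∃ N : ℕ, ∀ x ∈ S, ∀ n, N ≤ n → ‖g x n‖ < ε) ⟨0, by simp⟩
    ?_ ?_ ?_
  · rintro s t hst ⟨N, hN⟩
    exact ⟨N, fun x hx => hN x (hst hx)⟩
  · rintro s t ⟨N, hN⟩ ⟨N', hN'⟩
    refine ⟨max N N', fun x hx n hn => ?_⟩
    rcases hx with hx | hx
    · exact hN x hx n ((le_max_left _ _).trans hn)
    · exact hN' x hx n ((le_max_right _ _).trans hn)
  · intro x _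
    obtain ⟨N, hN⟩ := h.exists x hε
    exact ⟨_, mem_nhdsWithin_of_mem_nhds hN, N, fun y hy => hy⟩

theorem Tails.continuous {g : X → ℕ → F} (h : Tails g) (hc : ∀ n, Continuous fun x => g x n) :
    Continuous fun x => toC0 (g x) := by
  rw [continuous_iff_continuousAt]
  intro x0
  rw [ContinuousAt, Metric.tendsto_nhds]
  intro ε hε
  obtain ⟨N, hN⟩ := h.exists x0 (ε := ε / 3) (by positivity)
  have h2 : ∀ᶠ x in 𝓝 x0, ∀ n ∈ Finset.range N, ‖g x n - g x0 n‖ < ε / 3 := by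
    rw [eventually_all_finset]
    intro n _
    have : Tendsto (fun x => ‖g x n - g x0 n‖) (𝓝 x0) (𝓝 0) := by
      have h3 : Continuous fun x => ‖g x n - g x0 n‖ := ((hc n).sub continuous_const).norm
      have := h3.tendsto x0
      simpa using this
    exact this.eventually (gt_mem_nhds (by positivity))
  have h0 := hN.self_of_nhds
  filter_upwards [hN, h2] with x hx1 hx2
  rw [dist_eq_norm]
  refine lt_of_le_of_lt (c0_norm_le (r := 2 * ε / 3) (by positivity) fun n => ?_) (by linarith)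
  have e : (toC0 (g x) - toC0 (g x0)) n = g x n - g x0 n := by
    rw [ZeroAtInftyContinuousMap.sub_apply, toC0_apply (h.tendsto x), toC0_apply (h.tendsto x0)]
  rw [e]
  rcases lt_or_ge n N with hn | hn
  · have := hx2 n (Finset.mem_range.mpr hn)
    linarith
  · have a1 := hx1 n hn
    have a2 := h0 n hn
    have := norm_sub_le (g x n) (g x0 n)
    linarith

end Pool.Agent.Helper52.D9
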