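import Mathlib

/-!
Interface between the concrete construction (Part II) and the abstract theorem (Part I) used for
the disproof of MP_d9f794_an (frozen statement S06360).
-/

namespace Pool.Agent.Helper52.D9

/-- What the concrete construction must produce: a compact set `Q`, a retraction `pr` onto it, a
compact subset `A` of `Q` invariant under a linear isometry `T` without fixed points on `A`, and a
family of self-maps `R t` of `Q` that fix `A` and push `Q` to `A` as `t → ∞`, with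
exponentially growing Lipschitz constants. -/
structure Data (E : Type) [NormedAddCommGroup E] [NormedSpace ℝ E] where
  Q : Set E
  A : Set E
  pr : E → E
  T : E →ₗᵢ[ℝ] E
  R : ℝ → E → E
  K : ℝ
  C : ℝ
  M : ℝ
  hQ : IsCompact Q
  hA : IsCompact A
  hAne : A.Nonempty
  hAQ : A ⊆ Q
  pr_mem : ∀ x, pr x ∈ Q
  pr_id : ∀ x ∈ Q, pr x = x
  hK : 0 ≤ K
  pr_lip : ∀ x y, ‖pr x - pr y‖ ≤ K * ‖x - y‖
  T_Q : ∀ x ∈ Q, T x ∈ Q
  T_A : ∀ x ∈ A, T x ∈ A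
  T_ne : ∀ x ∈ A, T x ≠ x
  hC : 0 < C
  hM : 1 < M
  R_zero : ∀ x ∈ Q, R 0 x = x
  R_A : ∀ t : ℝ, 0 ≤ t → ∀ x ∈ A, R t x = x
  R_Q : ∀ t : ℝ, 0 ≤ t → ∀ x ∈ Q, R t x ∈ Q
  R_lip : ∀ (N : ℕ) (s t : ℝ), 0 ≤ s → 0 ≤ t → s ≤ N → t ≤ N → ∀ x ∈ Q, ∀ y ∈ Q,
    ‖R s x - R t y‖ ≤ C * M ^ N * (|s - t| + ‖x - y‖)
  R_lim : ∀ ε : ℝ, 0 < ε → ∃ T0 : ℝ, 0 ≤ T0 ∧ ∀ t : ℝ, T0 ≤ t → ∀ x ∈ Q,
    Metric.infDist (R t x) A ≤ ε

end Pool.Agent.Helper52.D9
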