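import Mathlib
import Pool.Agent.Helper52.D9Defs
import Pool.Agent.Helper52.D9C0

/-!
Part I, first half: the functions entering the retraction.
-/

open scoped ZeroAtInfty
open Filter Topology

namespace Pool.Agent.Helper52.D9

variable {E : Type} [NormedAddCommGroup E] [NormedSpace ℝ E]

/-- the ambient Banach space -/
abbrev Sp (E : Type) [NormedAddCommGroup E] : Type := C₀(ℕ, E) × C₀(ℕ, ℝ)

/-- partial sums -/
def ys (x : Sp E) (n : ℕ) : E := ∑ m ∈ Finset.range (n + 1), x.1 m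

theorem ys_succ (x : Sp E) (n : ℕ) : ys x (n + 1) = ys x n + x.1 (n + 1) := by
  unfold ys
  rw [Finset.sum_range_succ]

theorem ys_zero (x : Sp E) : ys x 0 = x.1 0 := by
  unfold ys
  simp

theorem ys_cont (n : ℕ) : Continuous fun x : Sp E => ys x n := by
  unfold ys
  exact continuous_finsetSum _ fun m _ => (c0_continuous_apply m).comp continuous_fst

theorem snd_cont (n : ℕ) : Continuous fun x : Sp E => x.2 n :=
  (c0_continuous_apply n).comp continuous_snd

variable (D : Data E)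

/-- partial sums, retracted to `Q` -/
def yh (x : Sp E) (n : ℕ) : E := D.pr (ys x n)

theorem pr_cont : Continuous D.pr := by
  have : LipschitzWith ⟨D.K, D.hK⟩ D.pr := by
    refine LipschitzWith.of_dist_le_mul fun x y => ?_
    rw [dist_eq_norm, dist_eq_norm]
    exact D.pr_lip x y
  exact this.continuous

theorem yh_cont (n : ℕ) : Continuous fun x : Sp E => yh D x n := (pr_cont D).comp (ys_cont n)

theorem yh_mem (x : Sp E) (n : ℕ) : yh D x n ∈ D.Q := D.pr_mem _

theorem yh_inc (x : Sp E) (n : ℕ) : ‖yh D x (n + 1) - yh D x n‖ ≤ D.K * ‖x.1 (n + 1)‖ := by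
  unfold yh
  refine (D.pr_lip _ _).trans ?_
  rw [ys_succ, add_sub_cancel_left]

/-- the defect at time `n` -/
noncomputable def hh (x : Sp E) (n : ℕ) : ℝ := max 0 (Metric.infDist (yh D x n) D.A - |x.2 n|)

theorem hh_nonneg (x : Sp E) (n : ℕ) : 0 ≤ hh D x n := le_max_left _ _

theorem infDist_le (x : Sp E) (n : ℕ) : Metric.infDist (yh D x n) D.A ≤ |x.2 n| + hh D x n := by
  have := le_max_right 0 (Metric.infDist (yh D x n) D.A - |x.2 n|)
  unfold hh
  linarith

theorem hh_cont (n : ℕ) : Continuous fun x : Sp E => hh D x n := by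
  unfold hh
  have h1 : Continuous fun x : Sp E => Metric.infDist (yh D x n) D.A :=
    (Metric.continuous_infDist_pt D.A).comp (yh_cont D n)
  exact continuous_const.max (h1.sub (snd_cont n).abs)

theorem hh_bdd : ∃ B : ℝ, 0 ≤ B ∧ ∀ (x : Sp E) (n : ℕ), hh D x n ≤ B := by
  obtain ⟨B, hB⟩ := (D.hQ.image (Metric.continuous_infDist_pt D.A)).bddAbove
  refine ⟨max B 0, le_max_right _ _, fun x n => ?_⟩
  have h1 : Metric.infDist (yh D x n) D.A ≤ B := hB ⟨_, yh_mem D x n, rfl⟩
  refine max_le (le_max_right _ _) ?_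
  have := abs_nonneg (x.2 n)
  have := le_max_left B 0
  linarith

/-- total weighted defect -/
noncomputable def HH (x : Sp E) : ℝ := ∑' n : ℕ, hh D x n / ((n : ℝ) + 1) ^ 2

theorem summable_w : Summable fun n : ℕ => 1 / ((n : ℝ) + 1) ^ 2 := by
  have h := (summable_nat_add_iff 1).mpr (Real.summable_one_div_nat_pow.mpr one_lt_two)
  refine h.congr fun n => ?_
  push_cast
  rfl

theorem hh_summable (x : Sp E) : Summable fun n : ℕ => hh D x n / ((n : ℝ) + 1) ^ 2 := by
  obtain ⟨B, hB0, hB⟩ := hh_bdd D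
  refine Summable.of_nonneg_of_le (fun n => div_nonneg (hh_nonneg D x n) (by positivity))
    (fun n => ?_) (summable_w.mul_left B)
  rw [mul_one_div]
  exact div_le_div_of_nonneg_right (hB x n) (by positivity)

theorem HH_nonneg (x : Sp E) : 0 ≤ HH D x :=
  tsum_nonneg fun n => div_nonneg (hh_nonneg D x n) (by positivity)

theorem HH_cont : Continuous fun x : Sp E => HH D x := by
  obtain ⟨B, hB0, hB⟩ := hh_bdd D
  refine continuous_tsum (u := fun n : ℕ => B * (1 / ((n : ℝ) + 1) ^ 2))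
    (fun n => (hh_cont D n).div_const _) (summable_w.mul_left B) fun n x => ?_
  rw [Real.norm_eq_abs, abs_of_nonneg (div_nonneg (hh_nonneg D x n) (by positivity)), mul_one_div]
  exact div_le_div_of_nonneg_right (hB x n) (by positivity)

theorem hh_le (x : Sp E) (n : ℕ) : hh D x n ≤ ((n : ℝ) + 1) ^ 2 * HH D x := by
  have h := (hh_summable D x).le_tsum n
    (fun m _ => div_nonneg (hh_nonneg D x m) (by positivity))
  have h2 : hh D x n / ((n : ℝ) + 1) ^ 2 ≤ HH D x := h
  rw [div_le_iff₀ (by positivity)] at h2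
  linarith

/-- fourth root of the total defect -/
noncomputable def uu (x : Sp E) : ℝ := √(√(HH D x))

theorem uu_nonneg (x : Sp E) : 0 ≤ uu D x := Real.sqrt_nonneg _

theorem uu_cont : Continuous fun x : Sp E => uu D x :=
  Real.continuous_sqrt.comp (Real.continuous_sqrt.comp (HH_cont D))

theorem uu_pow (x : Sp E) : uu D x ^ 4 = HH D x := by
  unfold uu
  calc √(√(HH D x)) ^ 4 = (√(√(HH D x)) ^ 2) ^ 2 := by ring
    _ = HH D x := by rw [Real.sq_sqrt (Real.sqrt_nonneg _), Real.sq_sqrt (HH_nonneg D x)]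

/-- step sizes -/
noncomputable def vv (x : Sp E) (m : ℕ) : ℝ := max ‖x.1 (m + 1)‖ |x.2 m|

theorem vv_nonneg (x : Sp E) (m : ℕ) : 0 ≤ vv x m := le_max_of_le_left (norm_nonneg _)

theorem vv_le (x : Sp E) (m : ℕ) : vv x m ≤ ‖x‖ := by
  refine max_le ((c0_apply_le x.1 _).trans (norm_fst_le x)) ?_
  have := c0_apply_le x.2 m
  rw [Real.norm_eq_abs] at this
  exact this.trans (norm_snd_le x)

theorem vv_lip (x y : Sp E) (m : ℕ) : |vv x m - vv y m| ≤ ‖x - y‖ := by
  unfold vv
  refine (abs_max_sub_max_le_max _ _ _ _).trans (max_le ?_ ?_)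
  · refine (abs_norm_sub_norm_le _ _).trans ((c0_dist_apply x.1 y.1 _).trans ?_)
    exact norm_fst_le (x - y)
  · refine (abs_abs_sub_abs_le _ _).trans ?_
    have := c0_dist_apply x.2 y.2 m
    rw [Real.norm_eq_abs] at this
    exact this.trans (norm_snd_le (x - y))

theorem vv_tails : Tails (fun (x : Sp E) m => vv x m) := by
  intro x0
  have h1 : Tendsto (fun p : Sp E × ℕ => (p.1.1, p.2 + 1)) (𝓝 x0 ×ˢ atTop) (𝓝 x0.1 ×ˢ atTop) := by
    refine Tendsto.prodMk ?_ ?_
    · exact (continuous_fst.tendsto x0).comp tendsto_fst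
    · exact (tendsto_add_atTop_nat 1).comp tendsto_snd
  have h2 : Tendsto (fun p : Sp E × ℕ => (p.1.2, p.2)) (𝓝 x0 ×ˢ atTop) (𝓝 x0.2 ×ˢ atTop) := by
    refine Tendsto.prodMk ?_ tendsto_snd
    exact (continuous_snd.tendsto x0).comp tendsto_fst
  have h3 := ((c0_tendsto_apply x0.1).comp h1).norm
  have h4 := ((c0_tendsto_apply x0.2).comp h2).norm
  have h5 := h3.max h4
  rw [norm_zero, norm_zero, max_self] at h5
  exact h5

/-- the moderator `sup_m min(m+1,n+1) v_m` -/
noncomputable def MM (x : Sp E) (n : ℕ) : ℝ := ⨆ m : ℕ, (min ((m : ℝ) + 1) ((n : ℝ) + 1)) * vv x m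

theorem MM_term_le (x : Sp E) (n m : ℕ) :
    (min ((m : ℝ) + 1) ((n : ℝ) + 1)) * vv x m ≤ ((n : ℝ) + 1) * ‖x‖ := by
  have h1 : min ((m : ℝ) + 1) ((n : ℝ) + 1) ≤ (n : ℝ) + 1 := min_le_right _ _
  exact mul_le_mul h1 (vv_le x m) (vv_nonneg x m) (by positivity)

theorem MM_bdd (x : Sp E) (n : ℕ) :
    BddAbove (Set.range fun m : ℕ => (min ((m : ℝ) + 1) ((n : ℝ) + 1)) * vv x m) :=
  ⟨_, by rintro _ ⟨m, rfl⟩; exact MM_term_le x n m⟩

theorem le_MM (x : Sp E) (n m : ℕ) :
    (min ((m : ℝ) + 1) ((n : ℝ) + 1)) * vv x m ≤ MM x n := le_ciSup (MM_bdd x n) m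

theorem MM_nonneg (x : Sp E) (n : ℕ) : 0 ≤ MM x n :=
  le_trans (mul_nonneg (by positivity) (vv_nonneg x 0)) (le_MM x n 0)

theorem MM_self (x : Sp E) (n : ℕ) : ((n : ℝ) + 1) * vv x n ≤ MM x n := by
  have := le_MM x n n
  rwa [min_self] at this

theorem MM_mono (x : Sp E) (n : ℕ) : MM x n ≤ MM x (n + 1) := by
  refine ciSup_le fun m => le_trans ?_ (le_MM x (n + 1) m)
  refine mul_le_mul_of_nonneg_right ?_ (vv_nonneg x m)
  refine min_le_min le_rfl ?_
  push_cast
  linarith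

theorem MM_growth (x : Sp E) (n : ℕ) :
    ((n : ℝ) + 1) * MM x (n + 1) ≤ ((n : ℝ) + 2) * MM x n := by
  have h : MM x (n + 1) ≤ ((n : ℝ) + 2) / ((n : ℝ) + 1) * MM x n := by
    refine ciSup_le fun m => ?_
    have h1 := le_MM x n m
    have h2 : min ((m : ℝ) + 1) (((n + 1 : ℕ) : ℝ) + 1) ≤
        ((n : ℝ) + 2) / ((n : ℝ) + 1) * min ((m : ℝ) + 1) ((n : ℝ) + 1) := by
      rcases le_total ((m : ℝ) + 1) ((n : ℝ) + 1) with h | h
      · rw [min_eq_left h]
        refine (min_le_left _ _).trans ?_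
        have : (1 : ℝ) ≤ ((n : ℝ) + 2) / ((n : ℝ) + 1) := by
          rw [le_div_iff₀ (by positivity)]; linarith
        have h3 : (0 : ℝ) ≤ (m : ℝ) + 1 := by positivity
        nlinarith
      · rw [min_eq_right h]
        refine (min_le_right _ _).trans ?_
        rw [div_mul_cancel₀ _ (by positivity)]
        push_cast
        linarith
    calc min ((m : ℝ) + 1) (((n + 1 : ℕ) : ℝ) + 1) * vv x m
        ≤ (((n : ℝ) + 2) / ((n : ℝ) + 1) * min ((m : ℝ) + 1) ((n : ℝ) + 1)) * vv x m :=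
          mul_le_mul_of_nonneg_right h2 (vv_nonneg x m)
      _ = ((n : ℝ) + 2) / ((n : ℝ) + 1) * (min ((m : ℝ) + 1) ((n : ℝ) + 1) * vv x m) := by ring
      _ ≤ _ := mul_le_mul_of_nonneg_left h1 (by positivity)
  calc ((n : ℝ) + 1) * MM x (n + 1) ≤ ((n : ℝ) + 1) * (((n : ℝ) + 2) / ((n : ℝ) + 1) * MM x n) :=
        mul_le_mul_of_nonneg_left h (by positivity)
    _ = _ := by field_simp

theorem MM_lip (x y : Sp E) (n : ℕ) : MM x n - MM y n ≤ ((n : ℝ) + 1) * ‖x - y‖ := by
  rw [sub_le_iff_le_add]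
  refine ciSup_le fun m => ?_
  have h1 := le_MM y n m
  have h2 := (abs_le.mp (vv_lip x y m)).2
  have h3 : min ((m : ℝ) + 1) ((n : ℝ) + 1) ≤ (n : ℝ) + 1 := min_le_right _ _
  have h4 : (0 : ℝ) ≤ min ((m : ℝ) + 1) ((n : ℝ) + 1) := by positivity
  have h5 : min ((m : ℝ) + 1) ((n : ℝ) + 1) * vv x m ≤
      min ((m : ℝ) + 1) ((n : ℝ) + 1) * (‖x - y‖ + vv y m) :=
    mul_le_mul_of_nonneg_left (by linarith) h4
  have h6 : min ((m : ℝ) + 1) ((n : ℝ) + 1) * ‖x - y‖ ≤ ((n : ℝ) + 1) * ‖x - y‖ :=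
    mul_le_mul_of_nonneg_right h3 (norm_nonneg _)
  linarith

theorem MM_cont (n : ℕ) : Continuous fun x : Sp E => MM x n := by
  refine (LipschitzWith.of_dist_le_mul (K := ((n : NNReal) + 1)) fun x y => ?_).continuous
  rw [Real.dist_eq, dist_eq_norm]
  have h1 := MM_lip x y n
  have h2 := MM_lip y x n
  rw [norm_sub_rev y x] at h2
  push_cast
  exact abs_le.mpr ⟨by linarith, h1⟩

theorem MM_tails : Tails (fun (x : Sp E) n => MM x n / ((n : ℝ) + 1)) := by
  refine Tails.of_exists fun x0 ε hε => ?_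
  obtain ⟨N0, hN0⟩ := vv_tails.exists x0 (ε := ε / 2) (by positivity)
  have hb : ∀ᶠ x : Sp E in 𝓝 x0, ‖x‖ < ‖x0‖ + 1 :=
    (continuous_norm.tendsto x0).eventually (gt_mem_nhds (by linarith))
  set B := ‖x0‖ + 1 with hB
  have hB0 : 0 < B := by have := norm_nonneg x0; linarith
  obtain ⟨N1, hN1⟩ := exists_nat_gt (2 * N0 * B / ε)
  refine ⟨N1, ?_⟩
  filter_upwards [hN0, hb] with x hx hxB n hn
  have hle : MM x n ≤ N0 * B + ((n : ℝ) + 1) * (ε / 2) := by
    refine ciSup_le fun m => ?_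
    rcases lt_or_ge m N0 with h | h
    · have h1 : min ((m : ℝ) + 1) ((n : ℝ) + 1) ≤ N0 := by
        refine (min_le_left _ _).trans ?_
        exact_mod_cast h
      have h2 : vv x m ≤ B := (vv_le x m).trans hxB.le
      have h3 := mul_le_mul h1 h2 (vv_nonneg x m) (by positivity)
      have h4 : 0 ≤ ((n : ℝ) + 1) * (ε / 2) := by positivity
      linarith
    · have h1 : vv x m ≤ ε / 2 := by
        have := hx m h
        rw [Real.norm_eq_abs, abs_of_nonneg (vv_nonneg x m)] at this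
        exact this.le
      have h2 : min ((m : ℝ) + 1) ((n : ℝ) + 1) ≤ (n : ℝ) + 1 := min_le_right _ _
      have h3 := mul_le_mul h2 h1 (vv_nonneg x m) (by positivity)
      have h4 : 0 ≤ (N0 : ℝ) * B := by positivity
      linarith
  have hpos : (0 : ℝ) < (n : ℝ) + 1 := by positivity
  rw [Real.norm_eq_abs, abs_of_nonneg (div_nonneg (MM_nonneg x n) hpos.le), div_le_iff₀ hpos]
  have h5 : 2 * N0 * B / ε < (n : ℝ) + 1 := by
    have : (N1 : ℝ) ≤ n := by exact_mod_cast hn
    linarith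
  rw [div_lt_iff₀ hε] at h5
  nlinarith

/-- the argument of the logarithm -/
noncomputable def aa (x : Sp E) (n : ℕ) : ℝ := ((n : ℝ) + 1) * uu D x / (1 + uu D x * MM x n)

theorem den_pos (x : Sp E) (n : ℕ) : 0 < 1 + uu D x * MM x n := by
  have := mul_nonneg (uu_nonneg D x) (MM_nonneg x n)
  linarith

theorem aa_nonneg (x : Sp E) (n : ℕ) : 0 ≤ aa D x n :=
  div_nonneg (mul_nonneg (by positivity) (uu_nonneg D x)) (den_pos D x n).le

theorem aa_cont (n : ℕ) : Continuous fun x : Sp E => aa D x n := by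
  unfold aa
  exact (continuous_const.mul (uu_cont D)).div
    (continuous_const.add ((uu_cont D).mul (MM_cont n))) fun x => (den_pos D x n).ne'

theorem aa_le (x : Sp E) (n : ℕ) : aa D x n ≤ ((n : ℝ) + 1) * uu D x := by
  unfold aa
  refine div_le_self (mul_nonneg (by positivity) (uu_nonneg D x)) ?_
  have := mul_nonneg (uu_nonneg D x) (MM_nonneg x n)
  linarith

theorem aa_vv (x : Sp E) (n : ℕ) : aa D x n * vv x n ≤ 1 := by
  unfold aa
  rw [div_mul_eq_mul_div, div_le_one (den_pos D x n)]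
  have := mul_le_mul_of_nonneg_left (MM_self x n) (uu_nonneg D x)
  nlinarith

theorem aa_mono (x : Sp E) (n : ℕ) : aa D x n ≤ aa D x (n + 1) := by
  unfold aa
  rw [div_le_div_iff₀ (den_pos D x n) (den_pos D x (n + 1))]
  have h1 := MM_growth x n
  have h2 := uu_nonneg D x
  push_cast
  have h3 := mul_le_mul_of_nonneg_left h1 (mul_nonneg h2 h2)
  nlinarith

theorem aa_growth (x : Sp E) (n : ℕ) :
    aa D x (n + 1) ≤ ((n : ℝ) + 2) / ((n : ℝ) + 1) * aa D x n := by
  unfold aa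
  have h1 := mul_le_mul_of_nonneg_left (MM_mono x n) (uu_nonneg D x)
  have e : ((n : ℝ) + 2) / ((n : ℝ) + 1) * (((n : ℝ) + 1) * uu D x / (1 + uu D x * MM x n)) =
      ((n : ℝ) + 2) * uu D x / (1 + uu D x * MM x n) := by
    field_simp
  rw [e]
  push_cast
  have e2 : (n : ℝ) + 1 + 1 = n + 2 := by ring
  rw [e2]
  refine div_le_div_of_nonneg_left (mul_nonneg (by positivity) (uu_nonneg D x)) (den_pos D x n) ?_
  linarith

/-- the speed of the clock -/
noncomputable def kap : ℝ := 1 / (2 * Real.log D.M)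

theorem logM_pos : 0 < Real.log D.M := Real.log_pos D.hM

theorem kap_pos : 0 < kap D := by
  have := logM_pos D
  unfold kap
  positivity

/-- the clock -/
noncomputable def tt (x : Sp E) (n : ℕ) : ℝ := kap D * Real.log (max 1 (aa D x n))

theorem one_le_max (x : Sp E) (n : ℕ) : 1 ≤ max 1 (aa D x n) := le_max_left _ _

theorem tt_nonneg (x : Sp E) (n : ℕ) : 0 ≤ tt D x n :=
  mul_nonneg (kap_pos D).le (Real.log_nonneg (one_le_max D x n))

theorem tt_cont (n : ℕ) : Continuous fun x : Sp E => tt D x n := by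
  unfold tt
  refine continuous_const.mul (Continuous.log (continuous_const.max (aa_cont D n)) fun x => ?_)
  have := one_le_max D x n
  linarith

theorem tt_mono (x : Sp E) (n : ℕ) : tt D x n ≤ tt D x (n + 1) := by
  unfold tt
  refine mul_le_mul_of_nonneg_left ?_ (kap_pos D).le
  refine Real.log_le_log (lt_of_lt_of_le one_pos (one_le_max D x n)) ?_
  exact max_le_max le_rfl (aa_mono D x n)

theorem tt_growth (x : Sp E) (n : ℕ) : tt D x (n + 1) ≤ tt D x n + kap D / ((n : ℝ) + 1) := by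
  have hw := one_le_max D x n
  have h1 : (1 : ℝ) ≤ ((n : ℝ) + 2) / ((n : ℝ) + 1) := by
    rw [le_div_iff₀ (by positivity)]; linarith
  have h2 : max 1 (aa D x (n + 1)) ≤ ((n : ℝ) + 2) / ((n : ℝ) + 1) * max 1 (aa D x n) := by
    refine max_le ?_ ?_
    · nlinarith
    · refine (aa_growth D x n).trans ?_
      exact mul_le_mul_of_nonneg_left (le_max_right _ _) (by positivity)
  have h3 : Real.log (max 1 (aa D x (n + 1))) ≤
      Real.log (((n : ℝ) + 2) / ((n : ℝ) + 1)) + Real.log (max 1 (aa D x n)) := by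
    rw [← Real.log_mul (by positivity) (by linarith)]
    exact Real.log_le_log (lt_of_lt_of_le one_pos (one_le_max D x _)) h2
  have h4 : Real.log (((n : ℝ) + 2) / ((n : ℝ) + 1)) ≤ 1 / ((n : ℝ) + 1) := by
    refine (Real.log_le_sub_one_of_pos (by positivity)).trans (le_of_eq ?_)
    field_simp
    ring
  unfold tt
  have hk := kap_pos D
  have h5 := mul_le_mul_of_nonneg_left (h3.trans (add_le_add_left h4 _)) hk.le
  have e : kap D * (1 / ((n : ℝ) + 1) + Real.log (max 1 (aa D x n))) =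
      kap D * Real.log (max 1 (aa D x n)) + kap D / ((n : ℝ) + 1) := by
    ring
  linarith

theorem R_cont {Y : Type} [TopologicalSpace Y] {t : Y → ℝ} {q : Y → E} (ht : Continuous t)
    (hq : Continuous q) (ht0 : ∀ x, 0 ≤ t x) (hqQ : ∀ x, q x ∈ D.Q) :
    Continuous fun x => D.R (t x) (q x) := by
  rw [continuous_iff_continuousAt]
  intro x0
  obtain ⟨N, hN⟩ := exists_nat_gt (t x0)
  have h1 : ∀ᶠ x in 𝓝 x0, t x < N := (ht.tendsto x0).eventually (gt_mem_nhds hN)
  rw [ContinuousAt, tendsto_iff_norm_sub_tendsto_zero]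
  have h2 : Tendsto (fun x => D.C * D.M ^ N * (|t x - t x0| + ‖q x - q x0‖)) (𝓝 x0) (𝓝 0) := by
    have h : Continuous fun x => D.C * D.M ^ N * (|t x - t x0| + ‖q x - q x0‖) := by fun_prop
    have := h.tendsto x0
    simpa using this
  refine squeeze_zero' (Eventually.of_forall fun x => norm_nonneg _) ?_ h2
  filter_upwards [h1] with x hx
  exact D.R_lip N _ _ (ht0 x) (ht0 x0) hx.le hN.le _ (hqQ x) _ (hqQ x0)

/-- the corrected states -/
noncomputable def yp (x : Sp E) (n : ℕ) : E := D.R (tt D x n) (yh D x n)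

theorem yp_mem (x : Sp E) (n : ℕ) : yp D x n ∈ D.Q :=
  D.R_Q _ (tt_nonneg D x n) _ (yh_mem D x n)

theorem yp_cont (n : ℕ) : Continuous fun x : Sp E => yp D x n :=
  R_cont D (tt_cont D n) (yh_cont D n) (fun x => tt_nonneg D x n) fun x => yh_mem D x n

/-- the corrected gauge -/
noncomputable def ep (x : Sp E) (n : ℕ) : ℝ := max |x.2 n| (Metric.infDist (yp D x n) D.A)

theorem ep_nonneg (x : Sp E) (n : ℕ) : 0 ≤ ep D x n := le_max_of_le_left (abs_nonneg _)

theorem ep_cont (n : ℕ) : Continuous fun x : Sp E => ep D x n :=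
  (snd_cont n).abs.max ((Metric.continuous_infDist_pt D.A).comp (yp_cont D n))

end Pool.Agent.Helper52.D9
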