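import Mathlib
import Pool.Agent.Helper52.D9Defs
import Pool.Agent.Helper52.D9C0
import Pool.Agent.Helper52.D9Abs1

/-!
Part I, second half: the corrected states have small increments and small gauge, uniformly; the
resulting self-map of the Banach space attracts compact sets to a compact set without fixed
points.
-/

open scoped ZeroAtInfty
open Filter Topology

namespace Pool.Agent.Helper52.D9

variable {E : Type} [NormedAddCommGroup E] [NormedSpace ℝ E] (D : Data E)

theorem pow_bound (x : Sp E) (n : ℕ) :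
    D.M ^ ⌈tt D x n⌉₊ ≤ D.M * √(max 1 (aa D x n)) := by
  have hM := D.hM
  have hM0 : 0 < D.M := by linarith
  have hw := one_le_max D x n
  have hw0 : 0 < max 1 (aa D x n) := by linarith
  have hL := logM_pos D
  have h1 : (⌈tt D x n⌉₊ : ℝ) ≤ tt D x n + 1 := (Nat.ceil_lt_add_one (tt_nonneg D x n)).le
  have h2 : D.M ^ ⌈tt D x n⌉₊ = Real.exp (⌈tt D x n⌉₊ * Real.log D.M) := by
    rw [Real.exp_nat_mul, Real.exp_log hM0]
  have h3 : √(max 1 (aa D x n)) = Real.exp (Real.log (max 1 (aa D x n)) / 2) := by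
    rw [Real.sqrt_eq_rpow, Real.rpow_def_of_pos hw0]
    congr 1
    ring
  have h4 : D.M * √(max 1 (aa D x n)) =
      Real.exp (Real.log D.M + Real.log (max 1 (aa D x n)) / 2) := by
    rw [Real.exp_add, Real.exp_log hM0, h3]
  rw [h2, h4]
  refine Real.exp_le_exp.mpr ?_
  have h5 : tt D x n * Real.log D.M = Real.log (max 1 (aa D x n)) / 2 := by
    unfold tt kap
    field_simp
  nlinarith

theorem yp_inc (x : Sp E) (n : ℕ) : ‖yp D x (n + 1) - yp D x n‖ ≤
    D.C * D.M * (kap D * √(2 * (1 + uu D x) / ((n : ℝ) + 1)) +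
      D.K * √(vv x n ^ 2 + 2 * vv x n)) := by
  have hC := D.hC
  have hM := D.hM
  have hM0 : 0 < D.M := by linarith
  have hk := kap_pos D
  have hv := vv_nonneg x n
  have hu := uu_nonneg D x
  have hn : (0 : ℝ) < (n : ℝ) + 1 := by positivity
  set N := ⌈tt D x (n + 1)⌉₊ with hN
  set w := max 1 (aa D x (n + 1)) with hw
  have hw1 : 1 ≤ w := le_max_left _ _
  have h1 : tt D x (n + 1) ≤ N := Nat.le_ceil _
  have h2 : tt D x n ≤ N := (tt_mono D x n).trans h1
  have h3 := D.R_lip N _ _ (tt_nonneg D x (n + 1)) (tt_nonneg D x n) h1 h2 _ (yh_mem D x (n + 1))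
    _ (yh_mem D x n)
  have h4 : |tt D x (n + 1) - tt D x n| ≤ kap D / ((n : ℝ) + 1) := by
    rw [abs_of_nonneg (by linarith [tt_mono D x n])]
    linarith [tt_growth D x n]
  have h5 : ‖yh D x (n + 1) - yh D x n‖ ≤ D.K * vv x n :=
    (yh_inc D x n).trans (mul_le_mul_of_nonneg_left (le_max_left _ _) D.hK)
  have h6 : D.M ^ N ≤ D.M * √w := pow_bound D x (n + 1)
  have h7 : √w * (kap D / ((n : ℝ) + 1)) ≤ kap D * √(2 * (1 + uu D x) / ((n : ℝ) + 1)) := by
    have hwle : w ≤ 2 * (1 + uu D x) * ((n : ℝ) + 1) := by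
      refine max_le ?_ ?_
      · nlinarith
      · refine (aa_le D x (n + 1)).trans ?_
        push_cast
        have : (0 : ℝ) ≤ (n : ℝ) := by positivity
        nlinarith
    have : √w / ((n : ℝ) + 1) ≤ √(2 * (1 + uu D x) / ((n : ℝ) + 1)) := by
      refine Real.le_sqrt_of_sq_le ?_
      rw [div_pow, Real.sq_sqrt (by linarith), div_le_div_iff₀ (by positivity) hn]
      calc w * ((n : ℝ) + 1) ≤ (2 * (1 + uu D x) * ((n : ℝ) + 1)) * ((n : ℝ) + 1) :=
            mul_le_mul_of_nonneg_right hwle hn.le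
        _ = _ := by ring
    calc √w * (kap D / ((n : ℝ) + 1)) = kap D * (√w / ((n : ℝ) + 1)) := by ring
      _ ≤ _ := mul_le_mul_of_nonneg_left this hk.le
  have h8 : √w * (D.K * vv x n) ≤ D.K * √(vv x n ^ 2 + 2 * vv x n) := by
    have hwle : w ≤ 1 + 2 * aa D x n := by
      have ha := aa_nonneg D x n
      refine max_le (by linarith) ?_
      refine (aa_growth D x n).trans ?_
      have : ((n : ℝ) + 2) / ((n : ℝ) + 1) ≤ 2 := by
        rw [div_le_iff₀ hn]
        have : (0 : ℝ) ≤ (n : ℝ) := by positivity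
        linarith
      have := mul_le_mul_of_nonneg_right this ha
      linarith
    have : √w * vv x n ≤ √(vv x n ^ 2 + 2 * vv x n) := by
      refine Real.le_sqrt_of_sq_le ?_
      rw [mul_pow, Real.sq_sqrt (by linarith)]
      have hav := aa_vv D x n
      have h9 := mul_le_mul_of_nonneg_right hwle (sq_nonneg (vv x n))
      have h10 := mul_le_mul_of_nonneg_right hav hv
      nlinarith
    calc √w * (D.K * vv x n) = D.K * (√w * vv x n) := by ring
      _ ≤ _ := mul_le_mul_of_nonneg_left this D.hK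
  have h9 : 0 ≤ kap D / ((n : ℝ) + 1) + D.K * vv x n :=
    add_nonneg (by positivity) (mul_nonneg D.hK hv)
  calc ‖yp D x (n + 1) - yp D x n‖
      ≤ D.C * D.M ^ N * (|tt D x (n + 1) - tt D x n| + ‖yh D x (n + 1) - yh D x n‖) := h3
    _ ≤ D.C * D.M ^ N * (kap D / ((n : ℝ) + 1) + D.K * vv x n) :=
        mul_le_mul_of_nonneg_left (add_le_add h4 h5) (by positivity)
    _ ≤ D.C * (D.M * √w) * (kap D / ((n : ℝ) + 1) + D.K * vv x n) :=
        mul_le_mul_of_nonneg_right (mul_le_mul_of_nonneg_left h6 hC.le) h9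
    _ = D.C * D.M * (√w * (kap D / ((n : ℝ) + 1)) + √w * (D.K * vv x n)) := by ring
    _ ≤ _ := mul_le_mul_of_nonneg_left (add_le_add h7 h8) (by positivity)

theorem yp_tails : Tails (fun (x : Sp E) n => yp D x (n + 1) - yp D x n) := by
  intro x0
  refine squeeze_zero_norm (fun p => yp_inc D p.1 p.2) ?_
  have hu : Tendsto (fun p : Sp E × ℕ => uu D p.1) (𝓝 x0 ×ˢ atTop) (𝓝 (uu D x0)) :=
    ((uu_cont D).tendsto x0).comp tendsto_fst
  have hn : Tendsto (fun p : Sp E × ℕ => 1 / ((p.2 : ℝ) + 1)) (𝓝 x0 ×ˢ atTop) (𝓝 0) :=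
    tendsto_one_div_add_atTop_nhds_zero_nat.comp tendsto_snd
  have hv : Tendsto (fun p : Sp E × ℕ => vv p.1 p.2) (𝓝 x0 ×ˢ atTop) (𝓝 0) := vv_tails x0
  have h1 : Tendsto (fun p : Sp E × ℕ => √(2 * (1 + uu D p.1) / ((p.2 : ℝ) + 1)))
      (𝓝 x0 ×ˢ atTop) (𝓝 0) := by
    have h := (((hu.const_add 1).const_mul 2).mul hn).sqrt
    simp only [mul_zero, Real.sqrt_zero] at h
    refine h.congr fun p => ?_
    congr 1
    ring
  have h2 : Tendsto (fun p : Sp E × ℕ => √(vv p.1 p.2 ^ 2 + 2 * vv p.1 p.2))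
      (𝓝 x0 ×ˢ atTop) (𝓝 0) := by
    have h := ((hv.pow 2).add (hv.const_mul 2)).sqrt
    simpa using h
  have h3 := ((h1.const_mul (kap D)).add (h2.const_mul D.K)).const_mul (D.C * D.M)
  simpa using h3

theorem infDist_R_le {N : ℕ} {t : ℝ} (ht0 : 0 ≤ t) (htN : t ≤ N) {q : E} (hq : q ∈ D.Q) :
    Metric.infDist (D.R t q) D.A ≤ D.C * D.M ^ N * Metric.infDist q D.A := by
  have hM0 : 0 < D.M := by linarith [D.hM]
  have hC := D.hC
  obtain ⟨a, ha, hd⟩ := D.hA.exists_infDist_eq_dist D.hAne q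
  rw [hd]
  have h1 : Metric.infDist (D.R t q) D.A ≤ dist (D.R t q) a := Metric.infDist_le_dist_of_mem ha
  have h2 := D.R_lip N t t ht0 ht0 htN htN q hq a (D.hAQ ha)
  rw [D.R_A t ht0 a ha, sub_self, abs_zero, zero_add] at h2
  rw [dist_eq_norm] at h1 ⊢
  exact h1.trans h2

theorem infDist_tails : Tails (fun (x : Sp E) n => Metric.infDist (yp D x n) D.A) := by
  refine Tails.of_exists fun x0 ε hε => ?_
  obtain ⟨T0, hT0, hR⟩ := D.R_lim ε hε
  have hk := kap_pos D
  have hC := D.hC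
  have hM0 : 0 < D.M := by linarith [D.hM]
  set As := Real.exp (T0 / kap D) with hAs
  have hAs0 : 0 < As := Real.exp_pos _
  obtain ⟨N1, hN1⟩ := MM_tails.exists x0 (ε := 1 / (2 * As)) (by positivity)
  set N0 := ⌈T0⌉₊ with hN0
  have hT0N : T0 ≤ N0 := Nat.le_ceil _
  -- the second source of smallness
  have h2 : Tendsto (fun p : Sp E × ℕ => D.C * D.M ^ N0 *
      (|p.1.2 p.2| + (2 * As) ^ 4 * (1 / ((p.2 : ℝ) + 1)) ^ 2)) (𝓝 x0 ×ˢ atTop) (𝓝 0) := by
    have hn : Tendsto (fun p : Sp E × ℕ => 1 / ((p.2 : ℝ) + 1)) (𝓝 x0 ×ˢ atTop) (𝓝 0) :=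
      tendsto_one_div_add_atTop_nhds_zero_nat.comp tendsto_snd
    have he : Tendsto (fun p : Sp E × ℕ => (p.1.2, p.2)) (𝓝 x0 ×ˢ atTop)
        (𝓝 x0.2 ×ˢ atTop) := by
      refine Tendsto.prodMk ?_ tendsto_snd
      exact (continuous_snd.tendsto x0).comp tendsto_fst
    have he2 : Tendsto (fun p : Sp E × ℕ => |p.1.2 p.2|) (𝓝 x0 ×ˢ atTop) (𝓝 0) := by
      have := ((c0_tendsto_apply x0.2).comp he).abs
      rw [abs_zero] at this
      exact this
    have h := (he2.add ((hn.pow 2).const_mul ((2 * As) ^ 4))).const_mul (D.C * D.M ^ N0)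
    simpa using h
  obtain ⟨pa, ha, pb, hb, hab⟩ := eventually_prod_iff.mp (h2.eventually (gt_mem_nhds hε))
  obtain ⟨N2, hN2⟩ := eventually_atTop.mp hb
  refine ⟨max N1 N2, ?_⟩
  filter_upwards [hN1, ha] with x hx1 hx2 n hn
  have hx1' := hx1 n ((le_max_left _ _).trans hn)
  have hx2' := hab hx2 (hN2 n ((le_max_right _ _).trans hn))
  rw [Real.norm_eq_abs, abs_of_nonneg Metric.infDist_nonneg]
  rcases le_or_gt T0 (tt D x n) with ht | ht
  · exact hR _ ht _ (yh_mem D x n)
  · have hnpos : (0 : ℝ) < (n : ℝ) + 1 := by positivity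
    have hu := uu_nonneg D x
    have h4 : max 1 (aa D x n) < As := by
      rw [hAs, ← Real.log_lt_iff_lt_exp (lt_of_lt_of_le one_pos (one_le_max D x n)),
        lt_div_iff₀ hk]
      unfold tt at ht
      linarith
    have h5 : aa D x n < As := lt_of_le_of_lt (le_max_right _ _) h4
    have h6 : MM x n / ((n : ℝ) + 1) < 1 / (2 * As) := by
      rwa [Real.norm_eq_abs, abs_of_nonneg (div_nonneg (MM_nonneg x n) hnpos.le)] at hx1'
    rw [div_lt_div_iff₀ hnpos (by positivity)] at h6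
    unfold aa at h5
    rw [div_lt_iff₀ (den_pos D x n)] at h5
    have h7 : ((n : ℝ) + 1) * uu D x < 2 * As := by nlinarith
    have h8 : uu D x ≤ 2 * As * (1 / ((n : ℝ) + 1)) := by
      rw [mul_one_div, le_div_iff₀ hnpos]
      linarith
    have h9 : hh D x n ≤ (2 * As) ^ 4 * (1 / ((n : ℝ) + 1)) ^ 2 := by
      calc hh D x n ≤ ((n : ℝ) + 1) ^ 2 * uu D x ^ 4 := by
            rw [uu_pow]; exact hh_le D x n
        _ ≤ ((n : ℝ) + 1) ^ 2 * (2 * As * (1 / ((n : ℝ) + 1))) ^ 4 :=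
            mul_le_mul_of_nonneg_left (pow_le_pow_left₀ hu h8 4) (by positivity)
        _ = _ := by field_simp
    have h10 := infDist_R_le D (tt_nonneg D x n) (ht.le.trans hT0N) (yh_mem D x n)
    have h11 := infDist_le D x n
    have h12 : D.C * D.M ^ N0 * Metric.infDist (yh D x n) D.A ≤ D.C * D.M ^ N0 *
        (|x.2 n| + (2 * As) ^ 4 * (1 / ((n : ℝ) + 1)) ^ 2) :=
      mul_le_mul_of_nonneg_left (by linarith) (by positivity)
    exact h10.trans (h12.trans hx2'.le)

theorem ep_tails : Tails (fun (x : Sp E) n => ep D x n) := by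
  intro x0
  have he : Tendsto (fun p : Sp E × ℕ => (p.1.2, p.2)) (𝓝 x0 ×ˢ atTop)
      (𝓝 x0.2 ×ˢ atTop) := by
    refine Tendsto.prodMk ?_ tendsto_snd
    exact (continuous_snd.tendsto x0).comp tendsto_fst
  have he2 : Tendsto (fun p : Sp E × ℕ => |p.1.2 p.2|) (𝓝 x0 ×ˢ atTop) (𝓝 0) := by
    have := ((c0_tendsto_apply x0.2).comp he).abs
    rw [abs_zero] at this
    exact this
  have h := he2.max (infDist_tails D x0)
  rw [max_self] at h
  exact h

theorem Tails.shift {Y F : Type} [TopologicalSpace Y] [NormedAddCommGroup F] {g : Y → ℕ → F}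
    (h : Tails g) (k : ℕ) : Tails (fun x n => g x (n + k)) := by
  intro x0
  have : Tendsto (fun p : Y × ℕ => (p.1, p.2 + k)) (𝓝 x0 ×ˢ atTop) (𝓝 x0 ×ˢ atTop) :=
    tendsto_fst.prodMk ((tendsto_add_atTop_nat k).comp tendsto_snd)
  exact (h x0).comp this

/-- increments of the image -/
noncomputable def dd (x : Sp E) : ℕ → E
  | 0 => D.T (yp D x 1)
  | n + 1 => D.T (yp D x (n + 2) - yp D x (n + 1))

theorem dd_tails : Tails (fun (x : Sp E) n => dd D x n) := by
  refine Tails.of_exists fun x0 ε hε => ?_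
  obtain ⟨N, hN⟩ := (yp_tails D).exists x0 hε
  refine ⟨N + 1, ?_⟩
  filter_upwards [hN] with x hx n hn
  obtain ⟨m, rfl⟩ : ∃ m, n = m + 1 := ⟨n - 1, by omega⟩
  have h1 := hx (m + 1) (by omega)
  change ‖D.T (yp D x (m + 2) - yp D x (m + 1))‖ ≤ ε
  rw [D.T.norm_map]
  exact h1.le

theorem dd_cont (n : ℕ) : Continuous fun x : Sp E => dd D x n := by
  cases n with
  | zero => exact D.T.continuous.comp (yp_cont D 1)
  | succ n => exact D.T.continuous.comp ((yp_cont D (n + 2)).sub (yp_cont D (n + 1)))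

/-- the self-map of the Banach space -/
noncomputable def ff (x : Sp E) : Sp E := (toC0 (dd D x), toC0 fun n => ep D x (n + 1))

theorem ff_cont : Continuous (ff D) := by
  unfold ff
  exact ((dd_tails D).continuous (dd_cont D)).prodMk
    (((ep_tails D).shift 1).continuous fun n => ep_cont D (n + 1))

theorem ff_fst (x : Sp E) (n : ℕ) : (ff D x).1 n = dd D x n :=
  toC0_apply ((dd_tails D).tendsto x) n

theorem ff_snd (x : Sp E) (n : ℕ) : (ff D x).2 n = ep D x (n + 1) :=
  toC0_apply (((ep_tails D).shift 1).tendsto x) n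

theorem ys_ff (x : Sp E) (n : ℕ) : ys (ff D x) n = D.T (yp D x (n + 1)) := by
  induction n with
  | zero => rw [ys_zero, ff_fst]; rfl
  | succ n ih =>
    rw [ys_succ, ih, ff_fst]
    change D.T (yp D x (n + 1)) + D.T (yp D x (n + 2) - yp D x (n + 1)) = _
    rw [← map_add]
    congr 1
    abel

/-- states already in the retract -/
def Good (x : Sp E) : Prop := ∀ n, ys x n ∈ D.Q ∧ Metric.infDist (ys x n) D.A ≤ x.2 n

theorem infDist_T (q : E) : Metric.infDist (D.T q) D.A ≤ Metric.infDist q D.A := by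
  obtain ⟨a, ha, hd⟩ := D.hA.exists_infDist_eq_dist D.hAne q
  rw [hd]
  refine (Metric.infDist_le_dist_of_mem (D.T_A a ha)).trans (le_of_eq ?_)
  exact D.T.dist_map q a

theorem good_ff (x : Sp E) : Good D (ff D x) := by
  intro n
  rw [ys_ff, ff_snd]
  refine ⟨D.T_Q _ (yp_mem D x (n + 1)), (infDist_T D _).trans (le_max_right _ _)⟩

theorem good_hh {x : Sp E} (hx : Good D x) (n : ℕ) : yh D x n = ys x n ∧ hh D x n = 0 := by
  obtain ⟨h1, h2⟩ := hx n
  have h3 : yh D x n = ys x n := D.pr_id _ h1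
  refine ⟨h3, ?_⟩
  unfold hh
  rw [h3]
  refine max_eq_left ?_
  have := le_abs_self (x.2 n)
  linarith

theorem good_uu {x : Sp E} (hx : Good D x) : uu D x = 0 := by
  have : HH D x = 0 := by
    unfold HH
    have : (fun n : ℕ => hh D x n / ((n : ℝ) + 1) ^ 2) = fun _ => 0 := by
      funext n
      rw [(good_hh D hx n).2, zero_div]
    rw [this, tsum_zero]
  unfold uu
  rw [this, Real.sqrt_zero, Real.sqrt_zero]

theorem good_tt {x : Sp E} (hx : Good D x) (n : ℕ) : tt D x n = 0 := by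
  have : aa D x n = 0 := by
    unfold aa
    rw [good_uu D hx]
    simp
  unfold tt
  rw [this, max_eq_left zero_le_one, Real.log_one, mul_zero]

theorem good_yp {x : Sp E} (hx : Good D x) (n : ℕ) : yp D x n = ys x n := by
  unfold yp
  rw [good_tt D hx n, (good_hh D hx n).1]
  exact D.R_zero _ (hx n).1

theorem good_ep {x : Sp E} (hx : Good D x) (n : ℕ) : ep D x n = x.2 n := by
  have h := (hx n).2
  have h0 : 0 ≤ x.2 n := Metric.infDist_nonneg.trans h
  unfold ep
  rw [good_yp D hx n, abs_of_nonneg h0]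
  exact max_eq_left h

theorem iter (x : Sp E) (m : ℕ) (n : ℕ) :
    ys ((ff D)^[m + 1] x) n = (⇑D.T)^[m + 1] (yp D x (n + m + 1)) ∧
      ((ff D)^[m + 1] x).2 n = ep D x (n + m + 1) := by
  induction m generalizing n with
  | zero => exact ⟨ys_ff D x n, ff_snd D x n⟩
  | succ m ih =>
    have hg : Good D ((ff D)^[m + 1] x) := by
      rw [Function.iterate_succ_apply']
      exact good_ff D _
    rw [Function.iterate_succ_apply' (ff D), Function.iterate_succ_apply' (⇑D.T)]
    refine ⟨?_, ?_⟩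
    · rw [ys_ff, good_yp D hg, (ih (n + 1)).1]
      have : n + 1 + m + 1 = n + (m + 1) + 1 := by ring
      rw [this]
    · rw [ff_snd, good_ep D hg, (ih (n + 1)).2]
      have : n + 1 + m + 1 = n + (m + 1) + 1 := by ring
      rw [this]

/-- the embedding of `A` -/
noncomputable def iota (a : E) : Sp E := (toC0 fun n => if n = 0 then a else 0, 0)

theorem iota_tendsto (a : E) : Tendsto (fun n : ℕ => if n = 0 then a else 0) atTop (𝓝 0) := by
  refine tendsto_const_nhds.congr' ?_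
  filter_upwards [eventually_ge_atTop 1] with n hn
  rw [if_neg (by omega)]

theorem iota_fst (a : E) (n : ℕ) : (iota a).1 n = if n = 0 then a else 0 :=
  toC0_apply (iota_tendsto a) n

theorem iota_dist (a b : E) : ‖iota a - iota b‖ ≤ ‖a - b‖ := by
  rw [Prod.norm_def]
  refine max_le (c0_norm_le (norm_nonneg _) fun n => ?_) ?_
  · have : (iota a - iota b).1 n = (iota a).1 n - (iota b).1 n := rfl
    rw [this, iota_fst, iota_fst]
    split_ifs with h
    · exact le_rfl
    · simp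
  · have : (iota a - iota b).2 = 0 := by
      change (0 : C₀(ℕ, ℝ)) - 0 = 0
      rw [sub_zero]
    rw [this, norm_zero]
    exact norm_nonneg _

theorem iota_cont : Continuous (iota : E → Sp E) := by
  refine (LipschitzWith.of_dist_le_mul (K := 1) fun a b => ?_).continuous
  rw [dist_eq_norm, dist_eq_norm, NNReal.coe_one, one_mul]
  exact iota_dist a b

theorem ys_iota (a : E) (n : ℕ) : ys (iota a) n = a := by
  induction n with
  | zero => rw [ys_zero, iota_fst, if_pos rfl]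
  | succ n ih => rw [ys_succ, ih, iota_fst, if_neg (by omega), add_zero]

theorem good_iota {a : E} (ha : a ∈ D.A) : Good D (iota a) := by
  intro n
  rw [ys_iota]
  refine ⟨D.hAQ ha, ?_⟩
  rw [Metric.infDist_zero_of_mem ha]
  exact le_rfl

theorem no_fixed {a : E} (ha : a ∈ D.A) : ff D (iota a) ≠ iota a := by
  intro h
  have h1 : ys (ff D (iota a)) 0 = ys (iota a) 0 := by rw [h]
  rw [ys_ff, good_yp D (good_iota D ha), ys_iota, ys_iota] at h1
  exact D.T_ne a ha h1

theorem T_iter_A (m : ℕ) {a : E} (ha : a ∈ D.A) : (⇑D.T)^[m] a ∈ D.A := by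
  induction m with
  | zero => exact ha
  | succ m ih => rw [Function.iterate_succ_apply']; exact D.T_A _ ih

theorem T_iter_dist (m : ℕ) (p q : E) : ‖(⇑D.T)^[m] p - (⇑D.T)^[m] q‖ = ‖p - q‖ := by
  induction m with
  | zero => rfl
  | succ m ih =>
    rw [Function.iterate_succ_apply', Function.iterate_succ_apply', ← map_sub, D.T.norm_map, ih]

/-- distance of the iterates to the attractor -/
theorem near (x : Sp E) (m : ℕ) {ε : ℝ} (h0 : 0 ≤ ε)
    (h1 : ∀ n, m ≤ n → ‖yp D x (n + 1) - yp D x n‖ ≤ ε)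
    (h2 : ∀ n, m ≤ n → ep D x n ≤ ε) :
    ∃ a ∈ D.A, ‖(ff D)^[m + 1] x - iota a‖ ≤ ε := by
  obtain ⟨b, hb, hd⟩ := D.hA.exists_infDist_eq_dist D.hAne (yp D x (m + 1))
  refine ⟨(⇑D.T)^[m + 1] b, T_iter_A D (m + 1) hb, ?_⟩
  have hit := iter D x m
  rw [Prod.norm_def]
  refine max_le (c0_norm_le h0 fun n => ?_) (c0_norm_le h0 fun n => ?_)
  · have e : ((ff D)^[m + 1] x - iota ((⇑D.T)^[m + 1] b)).1 n =
        ((ff D)^[m + 1] x).1 n - (iota ((⇑D.T)^[m + 1] b)).1 n := rfl
    rw [e, iota_fst]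
    cases n with
    | zero =>
      rw [if_pos rfl, ← ys_zero, (hit 0).1, T_iter_dist]
      have h3 : Metric.infDist (yp D x (m + 1)) D.A ≤ ε := (le_max_right _ _).trans
        (h2 (m + 1) (by omega))
      rw [hd, dist_eq_norm] at h3
      have e0 : 0 + m + 1 = m + 1 := by ring
      rw [e0]
      exact h3
    | succ n =>
      rw [if_neg (by omega), sub_zero]
      have h3 : ((ff D)^[m + 1] x).1 (n + 1) =
          ys ((ff D)^[m + 1] x) (n + 1) - ys ((ff D)^[m + 1] x) n := by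
        rw [ys_succ, add_sub_cancel_left]
      rw [h3, (hit (n + 1)).1, (hit n).1, T_iter_dist]
      have e1 : n + 1 + m + 1 = (n + m + 1) + 1 := by ring
      rw [e1]
      exact h1 _ (by omega)
  · have e : ((ff D)^[m + 1] x - iota ((⇑D.T)^[m + 1] b)).2 n = ((ff D)^[m + 1] x).2 n := by
      change ((ff D)^[m + 1] x).2 n - (0 : C₀(ℕ, ℝ)) n = _
      simp
    rw [e, (hit n).2, Real.norm_eq_abs, abs_of_nonneg (ep_nonneg D x _)]
    exact h2 _ (by omega)

/-- The abstract theorem: from the data one obtains a counterexample. -/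
theorem counterexample {E : Type} [NormedAddCommGroup E] [NormedSpace ℝ E] (D : Data E) :
    ∃ (f : Sp E → Sp E) (A : Set (Sp E)), Continuous f ∧ IsCompact A ∧
      (∀ K, IsCompact K → ∀ U ∈ nhdsSet A, ∃ N : ℕ, ∀ n ≥ N, f^[n] '' K ⊆ U) ∧
      ∀ x ∈ A, f x ≠ x := by
  refine ⟨ff D, iota '' D.A, ff_cont D, D.hA.image iota_cont, ?_, ?_⟩
  · intro K hK U hU
    have hAc : IsCompact ((iota : E → Sp E) '' D.A) := D.hA.image iota_cont
    obtain ⟨V, hV, hAV, hVU⟩ := mem_nhdsSet_iff_exists.mp hU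
    obtain ⟨δ, hδ, hthick⟩ := hAc.exists_thickening_subset_open hV hAV
    obtain ⟨N1, hN1⟩ := (yp_tails D).uniform hK (ε := δ / 2) (by positivity)
    obtain ⟨N2, hN2⟩ := (ep_tails D).uniform hK (ε := δ / 2) (by positivity)
    refine ⟨max N1 N2 + 1, fun n hn => ?_⟩
    obtain ⟨m, rfl⟩ : ∃ m, n = m + 1 := ⟨n - 1, by omega⟩
    rintro _ ⟨x, hx, rfl⟩
    obtain ⟨a, ha, hd⟩ := near D x m (ε := δ / 2) (by positivity)
      (fun k hk => (hN1 x hx k (by omega)).le)
      (fun k hk => by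
        have := hN2 x hx k (by omega)
        rw [Real.norm_eq_abs, abs_of_nonneg (ep_nonneg D x k)] at this
        exact this.le)
    refine hVU (hthick ?_)
    rw [Metric.mem_thickening_iff]
    refine ⟨iota a, ⟨a, ha, rfl⟩, ?_⟩
    rw [dist_eq_norm]
    linarith
  · rintro _ ⟨a, ha, rfl⟩
    exact no_fixed D ha

end Pool.Agent.Helper52.D9
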