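import Mathlib

set_option autoImplicit false

namespace Pool.Agent.Helper52.D9

open Complex ComplexConjugate

noncomputable section

theorem auxA (μ : ℝ) (hμ : 0 ≤ μ) :
    (361 / 400 : ℝ) + μ ^ 2 < (361 / 400) ^ 3 * (361 / 400 + μ) ^ 2 * (1 + 361 / 400) := by
  nlinarith [sq_nonneg μ]

theorem auxB (μ : ℝ) : (361 / 400 : ℝ) + μ ^ 2 - μ > 0 := by
  nlinarith [sq_nonneg (μ - 1 / 2)]

/-- real version of the core lemma -/
theorem core_real (x y a b μ : ℝ) (hμ : 0 ≤ μ) (hz : x ^ 2 + y ^ 2 ≤ 1) (hw : a ^ 2 + b ^ 2 ≤ 1)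
    (h1 : x ^ 2 + y ^ 2 = 1 ∨ a ^ 2 + b ^ 2 = 1)
    (e1r : x ^ 2 - y ^ 2 + (a ^ 3 - 3 * a * b ^ 2) = -μ * (a + 361 / 400))
    (e1i : 2 * x * y + (3 * a ^ 2 * b - b ^ 3) = -μ * b)
    (e2r : (19 / 20) ^ 5 - (x * a + y * b) = -μ * (x + (19 / 20) ^ 3))
    (e2i : -(x * b - y * a) = μ * y) : False := by
  -- conj z * (w - μ) = κ
  set s : ℝ := 361 / 400 with hs
  have hk : x * (a - μ) + y * b = (19 / 20) ^ 3 * (s + μ) := by rw [hs]; linarith
  have hk2 : x * b - y * (a - μ) = 0 := by linarith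
  set κ : ℝ := (19 / 20) ^ 3 * (s + μ) with hκ
  have hκpos : 0 < κ := by rw [hκ, hs]; positivity
  -- |z|^2 |w-μ|^2 = κ^2
  have hII : (x ^ 2 + y ^ 2) * ((a - μ) ^ 2 + b ^ 2) = κ ^ 2 := by
    have : (x ^ 2 + y ^ 2) * ((a - μ) ^ 2 + b ^ 2) =
      (x * (a - μ) + y * b) ^ 2 + (x * b - y * (a - μ)) ^ 2 := by ring
    rw [this, hk, hk2]; ring
  have hκ2 : κ ^ 2 = s ^ 3 * (s + μ) ^ 2 := by rw [hκ, hs]; ring
  -- (I') real and imaginary parts: (w^3 + μ (w+s)) (conj w - μ) + |z|^2 (w - μ) = 0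
  have hIr : (a ^ 3 - 3 * a * b ^ 2 + μ * (a + s)) * (a - μ) + (3 * a ^ 2 * b - b ^ 3 + μ * b) * b
      + (x ^ 2 + y ^ 2) * (a - μ) = 0 := by
    have e1r' : a ^ 3 - 3 * a * b ^ 2 + μ * (a + s) = -(x ^ 2 - y ^ 2) := by linarith
    have e1i' : 3 * a ^ 2 * b - b ^ 3 + μ * b = -(2 * x * y) := by linarith
    rw [e1r', e1i']
    linear_combination (-2 * y) * hk2
  have hIi : (3 * a ^ 2 * b - b ^ 3 + μ * b) * (a - μ) - (a ^ 3 - 3 * a * b ^ 2 + μ * (a + s)) * b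
      + (x ^ 2 + y ^ 2) * b = 0 := by
    have e1r' : a ^ 3 - 3 * a * b ^ 2 + μ * (a + s) = -(x ^ 2 - y ^ 2) := by linarith
    have e1i' : 3 * a ^ 2 * b - b ^ 3 + μ * b = -(2 * x * y) := by linarith
    rw [e1r', e1i']
    linear_combination (2 * x) * hk2
  -- real w
  by_cases hb : b = 0
  · subst hb
    have haμ : a - μ ≠ 0 := by
      intro h
      rw [h] at hk
      nlinarith
    have hI : a ^ 3 + μ * (a + s) + (x ^ 2 + y ^ 2) = 0 := by
      have : (a - μ) * (a ^ 3 + μ * (a + s) + (x ^ 2 + y ^ 2)) = 0 := by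
        linear_combination hIr
      rcases mul_eq_zero.mp this with h | h
      · exact absurd h haμ
      · exact h
    have ha1 : -1 ≤ a := by nlinarith
    have ha1' : a ≤ 1 := by nlinarith
    have key : x ^ 2 + y ^ 2 = 1 → False := by
      intro hR
      rw [hR] at hI hII
      by_cases has : -s ≤ a
      · have : -1 < a ^ 3 := by
          have h3 : (-s) ^ 3 ≤ a ^ 3 := by
            have : Monotone (fun x : ℝ => x ^ 3) := (Odd.strictMono_pow (by decide)).monotone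
            exact this has
          have h4 : (-1 : ℝ) < (-s) ^ 3 := by rw [hs]; norm_num
          linarith
        nlinarith
      · have has' : a < -s := lt_of_not_ge has
        have h1 : s + μ < -(a - μ) := by linarith
        have hsμ : 0 < s + μ := by rw [hs]; positivity
        have h2 : (s + μ) ^ 2 < (a - μ) ^ 2 := by
          have := mul_self_lt_mul_self hsμ.le h1
          linarith [this, (by ring : -(a - μ) * -(a - μ) = (a - μ) ^ 2), (by ring : (s + μ) * (s + μ) = (s + μ) ^ 2)]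
        have h3 : s ^ 3 * (s + μ) ^ 2 ≤ (s + μ) ^ 2 := by
          have : s ^ 3 ≤ 1 := by rw [hs]; norm_num
          exact mul_le_of_le_one_left (sq_nonneg _) this
        rw [hκ2] at hII
        linarith [hII, (by ring : 1 * ((a - μ) ^ 2 + (0:ℝ) ^ 2) = (a - μ) ^ 2)]
    rcases h1 with h1 | h1
    · exact key h1
    · have ha2 : (a - 1) * (a + 1) = 0 := by nlinarith
      rcases mul_eq_zero.mp ha2 with h | h
      · have : a = 1 := by linarith
        subst this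
        have : 0 ≤ μ * (1 + s) := by rw [hs]; positivity
        nlinarith [sq_nonneg x, sq_nonneg y]
      · have ha : a = -1 := by linarith
        subst ha
        apply key
        have : 0 ≤ μ * (1 - s) := by
          apply mul_nonneg hμ
          rw [hs]; norm_num
        nlinarith
  · set P : ℝ := a ^ 2 + b ^ 2 with hP
    set R : ℝ := x ^ 2 + y ^ 2 with hR
    have hR0 : 0 ≤ R := by rw [hR]; positivity
    have hP0 : 0 ≤ P := by rw [hP]; positivity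
    have h3 : P ^ 2 - 2 * a * μ * (P + s) - μ * P + μ ^ 2 * s + μ * R = 0 := by
      have : b * (P ^ 2 - 2 * a * μ * (P + s) - μ * P + μ ^ 2 * s + μ * R) = 0 := by
        rw [hP]
        linear_combination a * hIi - b * hIr
      rcases mul_eq_zero.mp this with h | h
      · exact absurd h hb
      · exact h
    have h4 : R * (P * s + μ ^ 2 * P + μ * P - μ * R) = s ^ 3 * (s + μ) ^ 2 * (P + s) := by
      rw [← hκ2, ← hII]
      have : (a - μ) ^ 2 + b ^ 2 = P - 2 * a * μ + μ ^ 2 := by rw [hP]; ring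
      rw [this]
      linear_combination (-R) * h3
    have hA : s + μ ^ 2 < s ^ 3 * (s + μ) ^ 2 * (1 + s) := auxA μ hμ
    rcases h1 with h1 | h1
    · -- R = 1
      rw [h1] at h4
      have hB : 0 < s ^ 4 * (s + μ) ^ 2 + μ := by rw [hs]; positivity
      have h5 : (1 - P) * (s ^ 4 * (s + μ) ^ 2 + μ)
          + P * (s ^ 3 * (s + μ) ^ 2 * (1 + s) - (s + μ ^ 2)) = 0 := by
        linear_combination (-1) * h4
      have h6 : 0 ≤ (1 - P) * (s ^ 4 * (s + μ) ^ 2 + μ) :=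
        mul_nonneg (sub_nonneg.mpr hw) hB.le
      rcases eq_or_lt_of_le hP0 with h7 | h7
      · rw [← h7] at h5
        linarith
      · have h8 : 0 < P * (s ^ 3 * (s + μ) ^ 2 * (1 + s) - (s + μ ^ 2)) :=
          mul_pos h7 (sub_pos.mpr hA)
        linarith
    · rw [h1] at h4
      have hsμ : 0 ≤ s + μ ^ 2 - μ * R := by
        have h5 : s + μ ^ 2 - μ > 0 := auxB μ
        have h6 : μ * R ≤ μ := mul_le_of_le_one_right hμ hz
        linarith
      have h7 : 0 ≤ (1 - R) * (s + μ ^ 2 - μ * R) := mul_nonneg (sub_nonneg.mpr hz) hsμ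
      have h8 : s + μ ^ 2 - R * (1 * s + μ ^ 2 * 1 + μ * 1 - μ * R)
        = (1 - R) * (s + μ ^ 2 - μ * R) := by ring
      have h9 : s ^ 3 * (s + μ) ^ 2 * (1 + s) = s ^ 3 * (s + μ) ^ 2 * (1 + s) := rfl
      linarith

/-- The core algebraic lemma: on the boundary of the bidisc the two quaternion valued maps are never
antiparallel. -/
theorem core (z w : ℂ) (μ : ℝ) (hμ : 0 ≤ μ) (hz : ‖z‖ ≤ 1) (hw : ‖w‖ ≤ 1)
    (h1 : ‖z‖ = 1 ∨ ‖w‖ = 1)
    (e1 : z ^ 2 + w ^ 3 = -(μ : ℂ) * (w + (((19 / 20 : ℝ) ^ 2 : ℝ) : ℂ)))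
    (e2 : (((19 / 20 : ℝ) ^ 5 : ℝ) : ℂ) - conj z * w
      = -(μ : ℂ) * (conj z + (((19 / 20 : ℝ) ^ 3 : ℝ) : ℂ))) :
    False := by
  have nsq : ∀ c : ℂ, ‖c‖ ^ 2 = c.re ^ 2 + c.im ^ 2 := by
    intro c
    rw [Complex.sq_norm, Complex.normSq_apply]; ring
  have hzn : z.re ^ 2 + z.im ^ 2 ≤ 1 := by
    rw [← nsq z]; nlinarith [norm_nonneg z]
  have hwn : w.re ^ 2 + w.im ^ 2 ≤ 1 := by
    rw [← nsq w]; nlinarith [norm_nonneg w]
  have h1n : z.re ^ 2 + z.im ^ 2 = 1 ∨ w.re ^ 2 + w.im ^ 2 = 1 := by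
    rcases h1 with h | h
    · left; rw [← nsq z, h]; norm_num
    · right; rw [← nsq w, h]; norm_num
  have e1r := congrArg Complex.re e1
  have e1i := congrArg Complex.im e1
  have e2r := congrArg Complex.re e2
  have e2i := congrArg Complex.im e2
  simp only [pow_succ, pow_zero, one_mul, Complex.add_re, Complex.add_im, Complex.sub_re,
    Complex.sub_im, Complex.mul_re, Complex.mul_im, Complex.neg_re, Complex.neg_im,
    Complex.ofReal_re, Complex.ofReal_im, Complex.conj_re, Complex.conj_im] at e1r e1i e2r e2i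
  refine core_real z.re z.im w.re w.im μ hμ hzn hwn h1n ?_ ?_ ?_ ?_
  · linear_combination e1r
  · linear_combination e1i
  · linear_combination e2r
  · linear_combination e2i

/-- the polynomial map -/
def Gp (z w : ℂ) (r τ K : ℝ) : ℂ × ℂ :=
  ((z + ((τ * r * (19 / 20) ^ 3 : ℝ) : ℂ)) * ((r : ℂ) * z ^ 2 + w ^ 3)
     - (w + ((τ * r * (19 / 20) ^ 2 : ℝ) : ℂ))
        * conj ((r : ℂ) * (((τ * r ^ 2 * (19 / 20) ^ 5 : ℝ) : ℂ) - conj z * w)),
   (z + ((τ * r * (19 / 20) ^ 3 : ℝ) : ℂ))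
        * ((r : ℂ) * (((τ * r ^ 2 * (19 / 20) ^ 5 : ℝ) : ℂ) - conj z * w))
     + (w + ((τ * r * (19 / 20) ^ 2 : ℝ) : ℂ)) * conj ((r : ℂ) * z ^ 2 + w ^ 3) + (K : ℂ))

theorem Gp_ne (z w : ℂ) (r : ℝ) (hr : r = max ‖z‖ ‖w‖) (hr1 : r ≤ 1) :
    Gp z w r (min 1 (2 - 2 * r)) (max 0 (1 - 2 * r)) ≠ 0 := by
  intro h
  have hr0 : 0 ≤ r := by rw [hr]; exact le_max_of_le_left (norm_nonneg _)
  have hzr : ‖z‖ ≤ r := by rw [hr]; exact le_max_left _ _
  have hwr : ‖w‖ ≤ r := by rw [hr]; exact le_max_right _ _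
  have hcase : ‖z‖ = r ∨ ‖w‖ = r := by
    rcases le_total ‖z‖ ‖w‖ with h' | h'
    · right; rw [hr, max_eq_right h']
    · left; rw [hr, max_eq_left h']
  set τ : ℝ := min 1 (2 - 2 * r) with hτ
  set K : ℝ := max 0 (1 - 2 * r) with hK
  have hτ1 : τ ≤ 1 := min_le_left _ _
  have hτ0 : 0 ≤ τ := by rw [hτ]; exact le_min zero_le_one (by linarith)
  have hK0 : 0 ≤ K := le_max_left _ _
  have e1 := congrArg Prod.fst h
  have e2 := congrArg Prod.snd h
  simp only [Gp, Prod.fst_zero, Prod.snd_zero] at e1 e2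
  set c1 : ℂ := ((τ * r * (19 / 20) ^ 3 : ℝ) : ℂ) with hc1
  set c2 : ℂ := ((τ * r * (19 / 20) ^ 2 : ℝ) : ℂ) with hc2
  set β : ℂ := (r : ℂ) * z ^ 2 + w ^ 3 with hβ
  set α : ℂ := (r : ℂ) * (((τ * r ^ 2 * (19 / 20) ^ 5 : ℝ) : ℂ) - conj z * w) with hα
  have e1' := congrArg conj e1
  have e2' := congrArg conj e2
  simp only [map_sub, map_mul, map_add, Complex.conj_conj, map_zero, Complex.conj_ofReal] at e1' e2'
  have hc1c : conj c1 = c1 := Complex.conj_ofReal _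
  have hc2c : conj c2 = c2 := Complex.conj_ofReal _
  rw [hc1c, hc2c] at e1' e2'
  set n : ℝ := Complex.normSq (z + c1) + Complex.normSq (w + c2) with hn
  have hnc : (n : ℂ) = (z + c1) * (conj z + c1) + (w + c2) * (conj w + c2) := by
    rw [hn, Complex.ofReal_add, Complex.normSq_eq_conj_mul_self, Complex.normSq_eq_conj_mul_self]
    simp only [map_add, hc1c, hc2c]
    ring
  have f1 : (n : ℂ) * β = -(K : ℂ) * (w + c2) := by
    rw [hnc]
    linear_combination (conj z + c1) * e1 + (w + c2) * e2'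
  have f2 : (n : ℂ) * α = -(K : ℂ) * (conj z + c1) := by
    rw [hnc]
    linear_combination (conj z + c1) * e2 - (w + c2) * e1'
  have hn_zero : n = 0 → z = -c1 ∧ w = -c2 := by
    intro h0
    have a1 := Complex.normSq_nonneg (z + c1)
    have a2 := Complex.normSq_nonneg (w + c2)
    have b1 : Complex.normSq (z + c1) = 0 := by linarith
    have b2 : Complex.normSq (w + c2) = 0 := by linarith
    exact ⟨eq_neg_of_add_eq_zero_left (Complex.normSq_eq_zero.mp b1),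
      eq_neg_of_add_eq_zero_left (Complex.normSq_eq_zero.mp b2)⟩
  rcases eq_or_lt_of_le hr0 with hr00 | hrpos
  · -- r = 0
    have hz0 : z = 0 := by
      rw [← norm_le_zero_iff]; linarith
    have hw0 : w = 0 := by
      rw [← norm_le_zero_iff]; linarith
    have hK1 : K = 1 := by rw [hK, ← hr00]; norm_num
    have hc10 : c1 = 0 := by rw [hc1, ← hr00]; simp
    have hc20 : c2 = 0 := by rw [hc2, ← hr00]; simp
    rw [hz0, hw0, hc10, hc20, hK1] at e2
    simp at e2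
  · have hnorm1 : ‖c1‖ < r := by
      rw [hc1, Complex.norm_real, Real.norm_eq_abs, abs_of_nonneg (by positivity)]
      have : τ * r ≤ r := mul_le_of_le_one_left hr0 hτ1
      nlinarith
    have hnorm2 : ‖c2‖ < r := by
      rw [hc2, Complex.norm_real, Real.norm_eq_abs, abs_of_nonneg (by positivity)]
      have : τ * r ≤ r := mul_le_of_le_one_left hr0 hτ1
      nlinarith
    have hnpos : n ≠ 0 := by
      intro h0
      obtain ⟨a, b⟩ := hn_zero h0
      rcases hcase with h' | h'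
      · rw [a, norm_neg] at h'; linarith
      · rw [b, norm_neg] at h'; linarith
    have hnC : (n : ℂ) ≠ 0 := by exact_mod_cast hnpos
    rcases eq_or_lt_of_le hK0 with hK00 | hKpos
    · -- K = 0
      rw [← hK00] at f1 f2
      have g1 : β = 0 := by
        have : (n : ℂ) * β = 0 := by rw [f1]; simp
        exact (mul_eq_zero.mp this).resolve_left hnC
      have g2 : α = 0 := by
        have : (n : ℂ) * α = 0 := by rw [f2]; simp
        exact (mul_eq_zero.mp this).resolve_left hnC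
      have hrC : (r : ℂ) ≠ 0 := by exact_mod_cast hrpos.ne'
      have g3 : conj z * w = ((τ * r ^ 2 * (19 / 20) ^ 5 : ℝ) : ℂ) := by
        have := (mul_eq_zero.mp (hα ▸ g2 : (r : ℂ) * _ = 0)).resolve_left hrC
        exact (sub_eq_zero.mp this).symm
      have g4 : ‖z‖ * ‖w‖ = τ * r ^ 2 * (19 / 20) ^ 5 := by
        have := congrArg norm g3
        rwa [norm_mul, RCLike.norm_conj, Complex.norm_real, Real.norm_eq_abs,
          abs_of_nonneg (by positivity)] at this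
      have g5 : r * ‖z‖ ^ 2 = ‖w‖ ^ 3 := by
        have h6 : (r : ℂ) * z ^ 2 = -(w ^ 3) := eq_neg_of_add_eq_zero_left g1
        have := congrArg norm h6
        rwa [norm_mul, norm_neg, norm_pow, norm_pow, Complex.norm_real, Real.norm_eq_abs,
          abs_of_nonneg hr0] at this
      have g6 : ‖z‖ * ‖w‖ < r ^ 2 := by
        rw [g4]
        have : τ * r ^ 2 ≤ r ^ 2 := mul_le_of_le_one_left (sq_nonneg r) hτ1
        have h7 : 0 < r ^ 2 := by positivity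
        nlinarith
      rcases hcase with h' | h'
      · rw [h'] at g5 g6
        have : ‖w‖ = r := by
          have h8 : ‖w‖ ^ 3 = r ^ 3 := by rw [← g5]; ring
          exact (pow_left_inj₀ (norm_nonneg w) hr0 (by norm_num)).mp h8
        rw [this] at g6
        nlinarith
      · rw [h'] at g5 g6
        have : ‖z‖ = r := by
          have h8 : ‖z‖ ^ 2 = r ^ 2 := by
            have : r * ‖z‖ ^ 2 = r * r ^ 2 := by rw [g5]; ring
            exact mul_left_cancel₀ hrpos.ne' this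
          exact (pow_left_inj₀ (norm_nonneg z) hr0 (by norm_num)).mp h8
        rw [this] at g6
        nlinarith
    · -- K > 0
      have hr2 : r < 1 / 2 := by
        by_contra hcon
        have : K = 0 := by rw [hK]; exact max_eq_left (by linarith [not_lt.mp hcon])
        linarith
      have hτe : τ = 1 := by rw [hτ]; exact min_eq_left (by linarith)
      have hnn : 0 < n := by
        have a1 := Complex.normSq_nonneg (z + c1)
        have a2 := Complex.normSq_nonneg (w + c2)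
        exact lt_of_le_of_ne (by rw [hn]; positivity) (Ne.symm hnpos)
      have hrC : (r : ℂ) ≠ 0 := by exact_mod_cast hrpos.ne'
      refine core (z / r) (w / r) (K / n / r ^ 2) (by positivity) ?_ ?_ ?_ ?_ ?_
      · rw [norm_div, Complex.norm_real, Real.norm_eq_abs, abs_of_pos hrpos, div_le_one hrpos]
        exact hzr
      · rw [norm_div, Complex.norm_real, Real.norm_eq_abs, abs_of_pos hrpos, div_le_one hrpos]
        exact hwr
      · rw [norm_div, norm_div, Complex.norm_real, Real.norm_eq_abs, abs_of_pos hrpos,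
          div_eq_one_iff_eq hrpos.ne', div_eq_one_iff_eq hrpos.ne']
        exact hcase
      · have : ((K / n / r ^ 2 : ℝ) : ℂ) = (K : ℂ) / n / (r : ℂ) ^ 2 := by push_cast; ring
        rw [this]
        rw [hβ, hc2, hτe] at f1
        push_cast at f1 ⊢
        field_simp
        linear_combination 400 * f1
      · have : ((K / n / r ^ 2 : ℝ) : ℂ) = (K : ℂ) / n / (r : ℂ) ^ 2 := by push_cast; ring
        rw [this]
        rw [hα, hc1, hτe] at f2
        rw [map_div₀, Complex.conj_ofReal]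
        push_cast at f2 ⊢
        field_simp
        linear_combination 3200000 * f2

/-- the cube root of unity -/
def zt : ℂ := Complex.exp (2 * Real.pi * Complex.I / (3 : ℕ))

theorem zt_cube : zt ^ 3 = 1 := (Complex.isPrimitiveRoot_exp 3 (by norm_num)).pow_eq_one

theorem zt_ne_one : zt ≠ 1 := (Complex.isPrimitiveRoot_exp 3 (by norm_num)).ne_one (by norm_num)

theorem zt_norm : ‖zt‖ = 1 := Complex.norm_eq_one_of_pow_eq_one zt_cube (by norm_num)

theorem zt_conj : conj zt = zt ^ 2 := by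
  have h1 : zt * conj zt = 1 := by
    rw [Complex.mul_conj, Complex.normSq_eq_norm_sq, zt_norm]; norm_num
  have h2 : zt ^ 2 * (zt * conj zt) = zt ^ 2 := by rw [h1, mul_one]
  calc conj zt = zt ^ 3 * conj zt := by rw [zt_cube, one_mul]
    _ = zt ^ 2 * (zt * conj zt) := by ring
    _ = zt ^ 2 := h2

/-- the rotation -/
def rot : (ℂ × ℂ) →ₗᵢ[ℝ] (ℂ × ℂ) where
  toFun x := (-x.1, zt * x.2)
  map_add' x y := by ext <;> simp [mul_add, add_comm]
  map_smul' c x := by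
    ext <;> simp [mul_left_comm]
  norm_map' x := by
    change ‖(-x.1, zt * x.2)‖ = ‖x‖
    rw [Prod.norm_def, Prod.norm_def]
    simp [zt_norm]

theorem rot_apply (x : ℂ × ℂ) : rot x = (-x.1, zt * x.2) := rfl

theorem rot_ne {x : ℂ × ℂ} (hx : x ≠ 0) : rot x ≠ x := by
  intro h
  rw [rot_apply] at h
  apply hx
  have h1 := congrArg Prod.fst h
  have h2 := congrArg Prod.snd h
  simp only at h1 h2
  have h3 : x.1 = 0 := self_eq_neg.mp h1.symm
  have h4 : x.2 = 0 := by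
    have : (zt - 1) * x.2 = 0 := by linear_combination h2
    exact (mul_eq_zero.mp this).resolve_left (sub_ne_zero.mpr zt_ne_one)
  exact Prod.ext h3 h4

/-- bounded and Lipschitz on the closed unit ball -/
def BL (g : ℂ × ℂ → ℂ) : Prop :=
  ∃ C : ℝ, 0 ≤ C ∧ (∀ x, ‖x‖ ≤ 1 → ‖g x‖ ≤ C) ∧
    ∀ x y, ‖x‖ ≤ 1 → ‖y‖ ≤ 1 → ‖g x - g y‖ ≤ C * ‖x - y‖

theorem BL.add {g h : ℂ × ℂ → ℂ} (hg : BL g) (hh : BL h) : BL (fun x => g x + h x) := by
  obtain ⟨C, hC, h1, h2⟩ := hg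
  obtain ⟨C', hC', h1', h2'⟩ := hh
  refine ⟨C + C', by positivity, fun x hx => ?_, fun x y hx hy => ?_⟩
  · exact (norm_add_le _ _).trans (add_le_add (h1 x hx) (h1' x hx))
  · have : g x + h x - (g y + h y) = (g x - g y) + (h x - h y) := by ring
    rw [this, add_mul]
    exact (norm_add_le _ _).trans (add_le_add (h2 x y hx hy) (h2' x y hx hy))

theorem BL.neg {g : ℂ × ℂ → ℂ} (hg : BL g) : BL (fun x => -g x) := by
  obtain ⟨C, hC, h1, h2⟩ := hg
  refine ⟨C, hC, fun x hx => by rw [norm_neg]; exact h1 x hx, fun x y hx hy => ?_⟩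
  have : -g x - -g y = -(g x - g y) := by ring
  rw [this, norm_neg]; exact h2 x y hx hy

theorem BL.sub {g h : ℂ × ℂ → ℂ} (hg : BL g) (hh : BL h) : BL (fun x => g x - h x) := by
  have := hg.add hh.neg
  simpa [sub_eq_add_neg] using this

theorem BL.mul {g h : ℂ × ℂ → ℂ} (hg : BL g) (hh : BL h) : BL (fun x => g x * h x) := by
  obtain ⟨C, hC, h1, h2⟩ := hg
  obtain ⟨C', hC', h1', h2'⟩ := hh
  refine ⟨C * C' + C * C', by positivity, fun x hx => ?_, fun x y hx hy => ?_⟩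
  · rw [norm_mul]
    have := mul_le_mul (h1 x hx) (h1' x hx) (norm_nonneg _) hC
    have h3 : 0 ≤ C * C' := by positivity
    linarith
  · have : g x * h x - g y * h y = (g x - g y) * h x + g y * (h x - h y) := by ring
    rw [this]
    refine (norm_add_le _ _).trans ?_
    rw [norm_mul, norm_mul]
    have a1 : ‖g x - g y‖ * ‖h x‖ ≤ (C * ‖x - y‖) * C' :=
      mul_le_mul (h2 x y hx hy) (h1' x hx) (norm_nonneg _) (by positivity)
    have a2 : ‖g y‖ * ‖h x - h y‖ ≤ C * (C' * ‖x - y‖) :=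
      mul_le_mul (h1 y hy) (h2' x y hx hy) (norm_nonneg _) hC
    calc _ ≤ (C * ‖x - y‖) * C' + C * (C' * ‖x - y‖) := add_le_add a1 a2
      _ = (C * C' + C * C') * ‖x - y‖ := by ring

theorem BL.pow {g : ℂ × ℂ → ℂ} (hg : BL g) : ∀ n : ℕ, BL (fun x => g x ^ n)
  | 0 => ⟨1, zero_le_one, fun x _ => by simp, fun x y _ _ => by simp⟩
  | n + 1 => by
    have := (BL.pow hg n).mul hg
    simpa [pow_succ] using this

theorem BL.conj {g : ℂ × ℂ → ℂ} (hg : BL g) : BL (fun x => (starRingEnd ℂ) (g x)) := by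
  obtain ⟨C, hC, h1, h2⟩ := hg
  refine ⟨C, hC, fun x hx => by rw [RCLike.norm_conj]; exact h1 x hx, fun x y hx hy => ?_⟩
  rw [← map_sub, RCLike.norm_conj]; exact h2 x y hx hy

theorem BL.const (c : ℂ) : BL (fun _ => c) :=
  ⟨‖c‖, norm_nonneg _, fun _ _ => le_rfl, fun x y _ _ => by simp; positivity⟩

theorem BL.fst : BL (fun x => x.1) :=
  ⟨1, zero_le_one, fun x hx => (norm_fst_le x).trans hx, fun x y _ _ => by
    rw [one_mul]; exact norm_fst_le (x - y)⟩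

theorem BL.snd : BL (fun x => x.2) :=
  ⟨1, zero_le_one, fun x hx => (norm_snd_le x).trans hx, fun x y _ _ => by
    rw [one_mul]; exact norm_snd_le (x - y)⟩

theorem BL.ofReal {g : ℂ × ℂ → ℝ} (C : ℝ) (hC : 0 ≤ C) (h1 : ∀ x, ‖x‖ ≤ 1 → |g x| ≤ C)
    (h2 : ∀ x y, |g x - g y| ≤ C * ‖x - y‖) : BL (fun x => ((g x : ℝ) : ℂ)) := by
  refine ⟨C, hC, fun x hx => ?_, fun x y _ _ => ?_⟩
  · rw [Complex.norm_real, Real.norm_eq_abs]; exact h1 x hx
  · rw [← Complex.ofReal_sub, Complex.norm_real, Real.norm_eq_abs]; exact h2 x y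

/-- the unnormalised map -/
def Phi0 (x : ℂ × ℂ) : ℂ × ℂ :=
  Gp x.1 x.2 ‖x‖ (min 1 (2 - 2 * ‖x‖)) (max 0 (1 - 2 * ‖x‖))

theorem Phi0_ne {x : ℂ × ℂ} (hx : ‖x‖ ≤ 1) : Phi0 x ≠ 0 :=
  Gp_ne x.1 x.2 ‖x‖ (Prod.norm_def x) hx

theorem BL_r : BL (fun x => ((‖x‖ : ℝ) : ℂ)) :=
  BL.ofReal 1 zero_le_one (fun x hx => by rw [abs_norm]; exact hx)
    (fun x y => by rw [one_mul]; exact abs_norm_sub_norm_le x y)

theorem BL_tau : BL (fun x => ((min 1 (2 - 2 * ‖x‖) : ℝ) : ℂ)) := by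
  refine BL.ofReal 2 (by norm_num) (fun x hx => ?_) (fun x y => ?_)
  · rw [abs_of_nonneg (le_min zero_le_one (by linarith))]
    exact (min_le_left _ _).trans (by norm_num)
  · have h1 := abs_min_sub_min_le_max (1 : ℝ) (2 - 2 * ‖x‖) 1 (2 - 2 * ‖y‖)
    have h2 := abs_norm_sub_norm_le x y
    refine h1.trans (max_le (by simp) ?_)
    have : (2 - 2 * ‖x‖) - (2 - 2 * ‖y‖) = -(2 * (‖x‖ - ‖y‖)) := by ring
    rw [this, abs_neg, abs_mul]
    have : |(2 : ℝ)| = 2 := by norm_num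
    rw [this]
    linarith

theorem BL_K : BL (fun x => ((max 0 (1 - 2 * ‖x‖) : ℝ) : ℂ)) := by
  refine BL.ofReal 2 (by norm_num) (fun x hx => ?_) (fun x y => ?_)
  · rw [abs_of_nonneg (le_max_left _ _)]
    exact max_le (by norm_num) (by linarith [norm_nonneg x])
  · have h1 := abs_max_sub_max_le_max (0 : ℝ) (1 - 2 * ‖x‖) 0 (1 - 2 * ‖y‖)
    have h2 := abs_norm_sub_norm_le x y
    refine h1.trans (max_le (by simp) ?_)
    have : (1 - 2 * ‖x‖) - (1 - 2 * ‖y‖) = -(2 * (‖x‖ - ‖y‖)) := by ring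
    rw [this, abs_neg, abs_mul]
    have : |(2 : ℝ)| = 2 := by norm_num
    rw [this]
    linarith

theorem Phi0_lip : ∃ C : ℝ, 0 ≤ C ∧
    ∀ x y : ℂ × ℂ, ‖x‖ ≤ 1 → ‖y‖ ≤ 1 → ‖Phi0 x - Phi0 y‖ ≤ C * ‖x - y‖ := by
  have hc1 : BL (fun x => ((min 1 (2 - 2 * ‖x‖) * ‖x‖ * (19 / 20) ^ 3 : ℝ) : ℂ)) := by
    have := (BL_tau.mul BL_r).mul (BL.const ((19 / 20 : ℂ) ^ 3))
    have e : (fun x : ℂ × ℂ => ((min 1 (2 - 2 * ‖x‖) * ‖x‖ * (19 / 20) ^ 3 : ℝ) : ℂ)) =
        fun x => ((min 1 (2 - 2 * ‖x‖) : ℝ) : ℂ) * ((‖x‖ : ℝ) : ℂ) * (19 / 20 : ℂ) ^ 3 := by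
      funext x
      rw [Complex.ofReal_mul, Complex.ofReal_mul, Complex.ofReal_pow]
      norm_num
    rw [e]; exact this
  have hc2 : BL (fun x => ((min 1 (2 - 2 * ‖x‖) * ‖x‖ * (19 / 20) ^ 2 : ℝ) : ℂ)) := by
    have := (BL_tau.mul BL_r).mul (BL.const ((19 / 20 : ℂ) ^ 2))
    have e : (fun x : ℂ × ℂ => ((min 1 (2 - 2 * ‖x‖) * ‖x‖ * (19 / 20) ^ 2 : ℝ) : ℂ)) =
        fun x => ((min 1 (2 - 2 * ‖x‖) : ℝ) : ℂ) * ((‖x‖ : ℝ) : ℂ) * (19 / 20 : ℂ) ^ 2 := by
      funext x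
      rw [Complex.ofReal_mul, Complex.ofReal_mul, Complex.ofReal_pow]
      norm_num
    rw [e]; exact this
  have hc3 : BL (fun x => ((min 1 (2 - 2 * ‖x‖) * ‖x‖ ^ 2 * (19 / 20) ^ 5 : ℝ) : ℂ)) := by
    have := (BL_tau.mul (BL_r.pow 2)).mul (BL.const ((19 / 20 : ℂ) ^ 5))
    have e : (fun x : ℂ × ℂ => ((min 1 (2 - 2 * ‖x‖) * ‖x‖ ^ 2 * (19 / 20) ^ 5 : ℝ) : ℂ)) =
        fun x => ((min 1 (2 - 2 * ‖x‖) : ℝ) : ℂ) * ((‖x‖ : ℝ) : ℂ) ^ 2 * (19 / 20 : ℂ) ^ 5 := by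
      funext x
      rw [Complex.ofReal_mul, Complex.ofReal_mul, Complex.ofReal_pow, Complex.ofReal_pow]
      norm_num
    rw [e]; exact this
  have hβ : BL (fun x => ((‖x‖ : ℝ) : ℂ) * x.1 ^ 2 + x.2 ^ 3) :=
    (BL_r.mul (BL.fst.pow 2)).add (BL.snd.pow 3)
  have hα : BL (fun x => ((‖x‖ : ℝ) : ℂ)
      * (((min 1 (2 - 2 * ‖x‖) * ‖x‖ ^ 2 * (19 / 20) ^ 5 : ℝ) : ℂ) - conj x.1 * x.2)) :=
    BL_r.mul (hc3.sub (BL.fst.conj.mul BL.snd))
  have h1 : BL (fun x => (Phi0 x).1) :=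
    ((BL.fst.add hc1).mul hβ).sub ((BL.snd.add hc2).mul hα.conj)
  have h2 : BL (fun x => (Phi0 x).2) :=
    (((BL.fst.add hc1).mul hα).add ((BL.snd.add hc2).mul hβ.conj)).add BL_K
  obtain ⟨C1, hC1, -, l1⟩ := h1
  obtain ⟨C2, hC2, -, l2⟩ := h2
  refine ⟨max C1 C2, le_max_of_le_left hC1, fun x y hx hy => ?_⟩
  rw [Prod.norm_def]
  refine max_le ((l1 x y hx hy).trans ?_) ((l2 x y hx hy).trans ?_)
  · exact mul_le_mul_of_nonneg_right (le_max_left _ _) (norm_nonneg _)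
  · exact mul_le_mul_of_nonneg_right (le_max_right _ _) (norm_nonneg _)

theorem Phi0_rot {x : ℂ × ℂ} (hx : ‖x‖ = 1) : Phi0 (rot x) = rot (Phi0 x) := by
  have hr : ‖rot x‖ = 1 := by rw [LinearIsometry.norm_map, hx]
  unfold Phi0
  rw [hr, hx, rot_apply, rot_apply]
  have e1 : min (1 : ℝ) (2 - 2 * 1) = 0 := by norm_num
  have e2 : max (0 : ℝ) (1 - 2 * 1) = 0 := by norm_num
  rw [e1, e2]
  have z3 := zt_cube
  have z4 : zt ^ 4 = zt := by rw [pow_succ, zt_cube, one_mul]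
  ext1
  · simp only [Gp, map_mul, map_sub, map_neg, map_add, map_pow, Complex.conj_conj,
      Complex.conj_ofReal, zt_conj]
    push_cast
    ring_nf
    simp only [z3, z4]
    ring
  · simp only [Gp, map_mul, map_sub, map_neg, map_add, map_pow, Complex.conj_conj,
      Complex.conj_ofReal, zt_conj]
    push_cast
    have z6 : zt ^ 6 = 1 := by
      calc zt ^ 6 = (zt ^ 3) ^ 2 := by ring
        _ = 1 := by rw [zt_cube, one_pow]
    have z7 : zt ^ 7 = zt := by rw [pow_succ, z6, one_mul]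
    ring_nf
    simp only [z7]

theorem exists_Phi : ∃ (Φ : ℂ × ℂ → ℂ × ℂ) (L : ℝ), 0 ≤ L ∧ (∀ x, ‖x‖ ≤ 1 → ‖Φ x‖ = 1) ∧
    (∀ x y, ‖x‖ ≤ 1 → ‖y‖ ≤ 1 → ‖Φ x - Φ y‖ ≤ L * ‖x - y‖) ∧
    ∀ x, ‖x‖ = 1 → Φ (rot x) = rot (Φ x) := by
  obtain ⟨C, hC, hlip⟩ := Phi0_lip
  have hcont : ContinuousOn (fun x : ℂ × ℂ => ‖Phi0 x‖) (Metric.closedBall 0 1) := by
    have h1 : LipschitzOnWith ⟨C, hC⟩ Phi0 (Metric.closedBall 0 1) := by
      refine LipschitzOnWith.of_dist_le_mul fun x hx y hy => ?_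
      rw [dist_eq_norm, dist_eq_norm]
      exact hlip x y (by simpa using hx) (by simpa using hy)
    exact h1.continuousOn.norm
  obtain ⟨x0, hx0, hmin⟩ := (isCompact_closedBall (0 : ℂ × ℂ) 1).exists_isMinOn
    ⟨0, by simp⟩ hcont
  have hx0' : ‖x0‖ ≤ 1 := by simpa using hx0
  set m := ‖Phi0 x0‖ with hm
  have hmpos : 0 < m := norm_pos_iff.mpr (Phi0_ne hx0')
  have hmle : ∀ x : ℂ × ℂ, ‖x‖ ≤ 1 → m ≤ ‖Phi0 x‖ := fun x hx => hmin (by simpa using hx)
  refine ⟨fun x => (‖Phi0 x‖)⁻¹ • Phi0 x, 2 / m * C, by positivity, fun x hx => ?_,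
    fun x y hx hy => ?_, fun x hx => ?_⟩
  · rw [norm_smul, norm_inv, norm_norm, inv_mul_cancel₀ (norm_pos_iff.mpr (Phi0_ne hx)).ne']
  · have hx' : 0 < ‖Phi0 x‖ := norm_pos_iff.mpr (Phi0_ne hx)
    have hy' : 0 < ‖Phi0 y‖ := norm_pos_iff.mpr (Phi0_ne hy)
    have e : (‖Phi0 x‖)⁻¹ • Phi0 x - (‖Phi0 y‖)⁻¹ • Phi0 y
        = (‖Phi0 x‖)⁻¹ • ((Phi0 x - Phi0 y) + ((‖Phi0 y‖ - ‖Phi0 x‖) * (‖Phi0 y‖)⁻¹) • Phi0 y) := by
      rw [smul_add, smul_sub, smul_smul]
      have : (‖Phi0 x‖)⁻¹ * ((‖Phi0 y‖ - ‖Phi0 x‖) * (‖Phi0 y‖)⁻¹)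
          = (‖Phi0 x‖)⁻¹ - (‖Phi0 y‖)⁻¹ := by
        field_simp
      rw [this, sub_smul]
      abel
    change ‖(‖Phi0 x‖)⁻¹ • Phi0 x - (‖Phi0 y‖)⁻¹ • Phi0 y‖ ≤ _
    rw [e, norm_smul, norm_inv, norm_norm]
    have h3 : ‖(Phi0 x - Phi0 y) + ((‖Phi0 y‖ - ‖Phi0 x‖) * (‖Phi0 y‖)⁻¹) • Phi0 y‖
        ≤ 2 * (C * ‖x - y‖) := by
      refine (norm_add_le _ _).trans ?_
      rw [norm_smul, norm_mul, norm_inv, norm_norm, mul_assoc, inv_mul_cancel₀ hy'.ne', mul_one]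
      have h4 := hlip x y hx hy
      have h5 : ‖‖Phi0 y‖ - ‖Phi0 x‖‖ ≤ ‖Phi0 x - Phi0 y‖ := by
        rw [Real.norm_eq_abs, abs_sub_comm]
        exact abs_norm_sub_norm_le _ _
      linarith
    have h6 : (‖Phi0 x‖)⁻¹ ≤ m⁻¹ := inv_anti₀ hmpos (hmle x hx)
    calc (‖Phi0 x‖)⁻¹ * _ ≤ m⁻¹ * (2 * (C * ‖x - y‖)) :=
          mul_le_mul h6 h3 (norm_nonneg _) (by positivity)
      _ = 2 / m * C * ‖x - y‖ := by ring
  · change (‖Phi0 (rot x)‖)⁻¹ • Phi0 (rot x) = rot ((‖Phi0 x‖)⁻¹ • Phi0 x)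
    rw [Phi0_rot hx, LinearIsometry.norm_map, LinearIsometry.map_smul]

end

end Pool.Agent.Helper52.D9
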