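import Mathlib
import Pool.Agent.Helper52.D9Defs
import Pool.Agent.Helper52.D9C0
import Pool.Agent.Helper52.D9Phi

/-!
Part II: the concrete data, built from the equivariant map `Φ`.
-/

open scoped ZeroAtInfty
open Filter Topology

namespace Pool.Agent.Helper52.D9

abbrev VV : Type := ℂ × ℂ

/-- radial retraction onto the closed unit ball -/
noncomputable def rr (z : VV) : VV := (max 1 ‖z‖)⁻¹ • z

theorem rr_norm (z : VV) : ‖rr z‖ ≤ 1 := by
  have h1 : 1 ≤ max 1 ‖z‖ := le_max_left _ _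
  have h2 : ‖z‖ ≤ max 1 ‖z‖ := le_max_right _ _
  unfold rr
  rw [norm_smul, norm_inv, Real.norm_eq_abs, abs_of_pos (by linarith), inv_mul_le_iff₀ (by linarith)]
  linarith

theorem rr_id {z : VV} (hz : ‖z‖ ≤ 1) : rr z = z := by
  unfold rr
  rw [max_eq_left hz, inv_one, one_smul]

theorem rr_lip (z w : VV) : ‖rr z - rr w‖ ≤ 2 * ‖z - w‖ := by
  unfold rr
  set a := max 1 ‖z‖ with ha
  set b := max 1 ‖w‖ with hb
  have ha1 : 1 ≤ a := le_max_left _ _
  have hb1 : 1 ≤ b := le_max_left _ _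
  have hwb : ‖w‖ ≤ b := le_max_right _ _
  have hab : |b - a| ≤ ‖z - w‖ := by
    refine (abs_max_sub_max_le_max _ _ _ _).trans ?_
    rw [sub_self, abs_zero]
    refine max_le (norm_nonneg _) ?_
    rw [norm_sub_rev]
    exact abs_norm_sub_norm_le w z
  have e : a⁻¹ • z - b⁻¹ • w = a⁻¹ • (z - w) + (a⁻¹ - b⁻¹) • w := by
    rw [smul_sub, sub_smul]
    abel
  rw [e]
  refine (norm_add_le _ _).trans ?_
  rw [norm_smul, norm_smul, Real.norm_eq_abs, Real.norm_eq_abs, abs_of_pos (inv_pos.mpr (by linarith))]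
  have h1 : a⁻¹ * ‖z - w‖ ≤ ‖z - w‖ := by
    have : a⁻¹ ≤ 1 := inv_le_one_of_one_le₀ ha1
    have := mul_le_mul_of_nonneg_right this (norm_nonneg (z - w))
    linarith
  have h2 : |a⁻¹ - b⁻¹| * ‖w‖ ≤ ‖z - w‖ := by
    have e2 : a⁻¹ - b⁻¹ = (b - a) / (a * b) := by
      field_simp
    rw [e2, abs_div, abs_of_pos (by positivity : 0 < a * b), div_mul_eq_mul_div,
      div_le_iff₀ (by positivity)]
    have h3 : |b - a| * ‖w‖ ≤ ‖z - w‖ * b := mul_le_mul hab hwb (norm_nonneg _) (norm_nonneg _)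
    have h4 : ‖z - w‖ * b ≤ ‖z - w‖ * (a * b) := by
      refine mul_le_mul_of_nonneg_left ?_ (norm_nonneg _)
      nlinarith
    linarith
  linarith

/-- A globally defined equivariant map. -/
theorem exists_Phi' : ∃ (Φ : VV → VV) (L : ℝ), 0 ≤ L ∧ (∀ x, ‖Φ x‖ = 1) ∧
    (∀ x y, ‖Φ x - Φ y‖ ≤ L * ‖x - y‖) ∧ ∀ x, ‖x‖ = 1 → Φ (rot x) = rot (Φ x) := by
  obtain ⟨Φ, L, hL, h1, h2, h3⟩ := exists_Phi
  refine ⟨fun x => Φ (rr x), L * 2, by positivity, fun x => h1 _ (rr_norm x), fun x y => ?_,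
    fun x hx => ?_⟩
  · refine (h2 _ _ (rr_norm x) (rr_norm y)).trans ?_
    rw [mul_assoc]
    exact mul_le_mul_of_nonneg_left (rr_lip x y) hL
  · have hr : ‖rot x‖ = 1 := by rw [LinearIsometry.norm_map, hx]
    change Φ (rr (rot x)) = rot (Φ (rr x))
    rw [rr_id hx.le, rr_id hr.le]
    exact h3 x hx

/-- the Banach space -/
abbrev EE : Type := C₀(ℕ, VV)

/-- rescaled coordinates -/
noncomputable def cf (x : EE) (i : ℕ) : VV := (2 : ℝ) ^ i • x i

/-- the point with given rescaled coordinates -/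
noncomputable def em (ξ : ℕ → VV) : EE := toC0 fun i => ((2 : ℝ) ^ i)⁻¹ • ξ i

theorem em_tendsto {ξ : ℕ → VV} (h : ∀ i, ‖ξ i‖ ≤ 1) :
    Tendsto (fun i : ℕ => ((2 : ℝ) ^ i)⁻¹ • ξ i) atTop (𝓝 0) := by
  refine squeeze_zero_norm (a := fun i : ℕ => (1 / 2 : ℝ) ^ i) (fun i => ?_) ?_
  · rw [norm_smul, norm_inv, norm_pow, Real.norm_eq_abs, abs_of_pos (by norm_num : (0 : ℝ) < 2),
      one_div, inv_pow]
    exact mul_le_of_le_one_right (by positivity) (h i)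
  · exact tendsto_pow_atTop_nhds_zero_of_lt_one (by norm_num) (by norm_num)

theorem em_apply {ξ : ℕ → VV} (h : ∀ i, ‖ξ i‖ ≤ 1) (i : ℕ) : em ξ i = ((2 : ℝ) ^ i)⁻¹ • ξ i :=
  toC0_apply (em_tendsto h) i

theorem cf_em {ξ : ℕ → VV} (h : ∀ i, ‖ξ i‖ ≤ 1) (i : ℕ) : cf (em ξ) i = ξ i := by
  unfold cf
  rw [em_apply h, smul_inv_smul₀ (by positivity)]

theorem em_cf (x : EE) : em (cf x) = x := by
  have e : (fun i : ℕ => ((2 : ℝ) ^ i)⁻¹ • cf x i) = x := by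
    funext i
    unfold cf
    rw [inv_smul_smul₀ (by positivity)]
  have h : Tendsto (fun i : ℕ => ((2 : ℝ) ^ i)⁻¹ • cf x i) atTop (𝓝 0) := by
    rw [e]; exact c0_tendsto x
  ext1 i
  unfold em
  rw [toC0_apply h]
  exact congrFun e i

/-- weighted estimate for the distance of two points given by coordinates -/
theorem em_dist {ξ η : ℕ → VV} (h : ∀ i, ‖ξ i‖ ≤ 1) (h' : ∀ i, ‖η i‖ ≤ 1) {r : ℝ} (hr : 0 ≤ r)
    (hd : ∀ i, ((2 : ℝ) ^ i)⁻¹ * ‖ξ i - η i‖ ≤ r) : ‖em ξ - em η‖ ≤ r := by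
  refine c0_norm_le hr fun i => ?_
  rw [ZeroAtInftyContinuousMap.sub_apply, em_apply h, em_apply h', ← smul_sub, norm_smul, norm_inv,
    norm_pow, Real.norm_eq_abs, abs_of_pos (by norm_num : (0 : ℝ) < 2)]
  exact hd i

theorem cf_dist (x y : EE) (i : ℕ) : ((2 : ℝ) ^ i)⁻¹ * ‖cf x i - cf y i‖ ≤ ‖x - y‖ := by
  unfold cf
  rw [← smul_sub, norm_smul, norm_pow, Real.norm_eq_abs, abs_of_pos (by norm_num : (0 : ℝ) < 2),
    inv_mul_cancel_left₀ (by positivity)]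
  exact c0_dist_apply x y i

theorem cf_cont (i : ℕ) : Continuous fun x : EE => cf x i := by
  have h : Continuous fun x : EE => x i := c0_continuous_apply i
  exact h.const_smul ((2 : ℝ) ^ i)

/-- the Hilbert cube-like compact set -/
def QQ : Set EE := {x | ∀ i, ‖cf x i‖ ≤ 1}

theorem QQ_compact : IsCompact QQ := by
  have hD : IsCompact (Set.univ.pi fun _ : ℕ => Metric.closedBall (0 : VV) 1) :=
    isCompact_univ_pi fun _ => isCompact_closedBall _ _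
  have hmem : ∀ ξ : (Set.univ.pi fun _ : ℕ => Metric.closedBall (0 : VV) 1), ∀ i, ‖ξ.1 i‖ ≤ 1 :=
    fun ξ i => by
      have := ξ.2 i (Set.mem_univ i)
      simpa using this
  have : CompactSpace (Set.univ.pi fun _ : ℕ => Metric.closedBall (0 : VV) 1) :=
    isCompact_iff_compactSpace.mp hD
  have ht : Tails (fun (ξ : (Set.univ.pi fun _ : ℕ => Metric.closedBall (0 : VV) 1)) (i : ℕ) =>
      ((2 : ℝ) ^ i)⁻¹ • ξ.1 i) := by
    intro ξ0
    refine squeeze_zero_norm (a := fun p => (1 / 2 : ℝ) ^ p.2) (fun p => ?_) ?_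
    · rw [norm_smul, norm_inv, norm_pow, Real.norm_eq_abs, abs_of_pos (by norm_num : (0 : ℝ) < 2),
        one_div, inv_pow]
      exact mul_le_of_le_one_right (by positivity) (hmem p.1 p.2)
    · exact (tendsto_pow_atTop_nhds_zero_of_lt_one (by norm_num) (by norm_num)).comp tendsto_snd
  have hc : Continuous fun ξ : (Set.univ.pi fun _ : ℕ => Metric.closedBall (0 : VV) 1) =>
      toC0 (fun i : ℕ => ((2 : ℝ) ^ i)⁻¹ • ξ.1 i) :=
    ht.continuous fun i => by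
      have h : Continuous fun ξ : (Set.univ.pi fun _ : ℕ => Metric.closedBall (0 : VV) 1) =>
          ξ.1 i := (continuous_apply i).comp continuous_subtype_val
      exact h.const_smul (((2 : ℝ) ^ i)⁻¹)
  have hr : QQ = Set.range fun ξ : (Set.univ.pi fun _ : ℕ => Metric.closedBall (0 : VV) 1) =>
      toC0 (fun i : ℕ => ((2 : ℝ) ^ i)⁻¹ • ξ.1 i) := by
    ext x
    constructor
    · intro hx
      refine ⟨⟨cf x, fun i _ => by simpa using hx i⟩, em_cf x⟩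
    · rintro ⟨ξ, rfl⟩ i
      have := cf_em (hmem ξ) i
      unfold em at this
      rw [this]
      exact hmem ξ i
  rw [hr]
  exact isCompact_range hc

/-- the retraction onto `QQ` -/
noncomputable def prr (x : EE) : EE := em fun i => rr (cf x i)

theorem prr_mem (x : EE) : prr x ∈ QQ := by
  intro i
  unfold prr
  rw [cf_em fun i => rr_norm _]
  exact rr_norm _

theorem prr_id {x : EE} (hx : x ∈ QQ) : prr x = x := by
  unfold prr
  have : (fun i => rr (cf x i)) = cf x := by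
    funext i
    exact rr_id (hx i)
  rw [this, em_cf]

theorem prr_lip (x y : EE) : ‖prr x - prr y‖ ≤ 2 * ‖x - y‖ := by
  unfold prr
  refine em_dist (fun i => rr_norm _) (fun i => rr_norm _) (by positivity) fun i => ?_
  have h1 := cf_dist x y i
  have h2 := rr_lip (cf x i) (cf y i)
  have h3 : ((2 : ℝ) ^ i)⁻¹ * ‖rr (cf x i) - rr (cf y i)‖ ≤
      ((2 : ℝ) ^ i)⁻¹ * (2 * ‖cf x i - cf y i‖) := mul_le_mul_of_nonneg_left h2 (by positivity)
  linarith

/-- the rotation, coordinatewise -/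
noncomputable def TTfun (x : EE) : EE := toC0 fun i => rot (x i)

theorem TT_tendsto (x : EE) : Tendsto (fun i : ℕ => rot (x i)) atTop (𝓝 0) := by
  have := (rot.continuous.tendsto 0).comp (c0_tendsto x)
  rw [map_zero] at this
  exact this

theorem TTfun_apply (x : EE) (i : ℕ) : TTfun x i = rot (x i) := toC0_apply (TT_tendsto x) i

/-- the rotation as a linear isometry -/
noncomputable def TT : EE →ₗᵢ[ℝ] EE where
  toFun := TTfun
  map_add' x y := by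
    ext1 i
    rw [ZeroAtInftyContinuousMap.add_apply, TTfun_apply, TTfun_apply, TTfun_apply,
      ZeroAtInftyContinuousMap.add_apply, map_add]
  map_smul' c x := by
    ext1 i
    rw [RingHom.id_apply, ZeroAtInftyContinuousMap.smul_apply, TTfun_apply, TTfun_apply,
      ZeroAtInftyContinuousMap.smul_apply, map_smul]
  norm_map' x := by
    change ‖TTfun x‖ = ‖x‖
    refine le_antisymm (c0_norm_le (norm_nonneg _) fun i => ?_)
      (c0_norm_le (norm_nonneg _) fun i => ?_)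
    · rw [TTfun_apply, rot.norm_map]
      exact c0_apply_le x i
    · rw [← rot.norm_map, ← TTfun_apply]
      exact c0_apply_le _ i

theorem TT_apply (x : EE) (i : ℕ) : TT x i = rot (x i) := TTfun_apply x i

theorem cf_TT (x : EE) (i : ℕ) : cf (TT x) i = rot (cf x i) := by
  unfold cf
  rw [TT_apply, map_smul]

/-- clamped time -/
noncomputable def th (t : ℝ) (i : ℕ) : ℝ := max 0 (min 1 (t - i))

theorem th_nonneg (t : ℝ) (i : ℕ) : 0 ≤ th t i := le_max_left _ _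

theorem th_le_one (t : ℝ) (i : ℕ) : th t i ≤ 1 := max_le zero_le_one (min_le_left _ _)

theorem th_zero {t : ℝ} {i : ℕ} (h : t ≤ i) : th t i = 0 := by
  unfold th
  exact max_eq_left ((min_le_right _ _).trans (by linarith))

theorem th_one {t : ℝ} {i : ℕ} (h : (i : ℝ) + 1 ≤ t) : th t i = 1 := by
  unfold th
  rw [min_eq_left (by linarith), max_eq_right zero_le_one]

theorem th_lip (s t : ℝ) (i : ℕ) : |th s i - th t i| ≤ |s - t| := by
  unfold th
  refine (abs_max_sub_max_le_max _ _ _ _).trans ?_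
  rw [sub_self, abs_zero]
  refine max_le (abs_nonneg _) ?_
  refine (abs_min_sub_min_le_max _ _ _ _).trans ?_
  rw [sub_self, abs_zero]
  refine max_le (abs_nonneg _) (le_of_eq ?_)
  congr 1
  ring

/-- the recursion -/
noncomputable def Sr (Φ : VV → VV) (t : ℝ) (ξ : ℕ → VV) : ℕ → ℕ → VV
  | 0, i => ξ i
  | k + 1, i => (1 - th t i) • ξ i + th t i • Φ (Sr Φ t ξ k (i + 1))

theorem Sr_norm {Φ : VV → VV} (hΦ : ∀ x, ‖Φ x‖ = 1) (t : ℝ) {ξ : ℕ → VV} (h : ∀ i, ‖ξ i‖ ≤ 1)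
    (k i : ℕ) : ‖Sr Φ t ξ k i‖ ≤ 1 := by
  cases k with
  | zero => exact h i
  | succ k =>
    change ‖(1 - th t i) • ξ i + th t i • Φ (Sr Φ t ξ k (i + 1))‖ ≤ 1
    refine (norm_add_le _ _).trans ?_
    have h0 := th_nonneg t i
    have h1 := th_le_one t i
    rw [norm_smul, norm_smul, hΦ, Real.norm_eq_abs, Real.norm_eq_abs, abs_of_nonneg h0,
      abs_of_nonneg (by linarith)]
    have := mul_le_mul_of_nonneg_left (h i) (by linarith : 0 ≤ 1 - th t i)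
    linarith

theorem Sr_stab (Φ : VV → VV) (t : ℝ) (ξ : ℕ → VV) (k i : ℕ) (h : t ≤ (k : ℝ) + i) :
    Sr Φ t ξ (k + 1) i = Sr Φ t ξ k i := by
  induction k generalizing i with
  | zero =>
    change (1 - th t i) • ξ i + th t i • Φ (Sr Φ t ξ 0 (i + 1)) = ξ i
    rw [th_zero (by simpa using h)]
    simp
  | succ k ih =>
    change (1 - th t i) • ξ i + th t i • Φ (Sr Φ t ξ (k + 1) (i + 1)) =
      (1 - th t i) • ξ i + th t i • Φ (Sr Φ t ξ k (i + 1))
    rw [ih (i + 1) (by push_cast at h ⊢; linarith)]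

theorem Sr_stab' (Φ : VV → VV) (t : ℝ) (ξ : ℕ → VV) {N : ℕ} (h : t ≤ N) (i : ℕ) :
    Sr Φ t ξ N i = Sr Φ t ξ ⌈t⌉₊ i := by
  have h1 : ⌈t⌉₊ ≤ N := Nat.ceil_le.mpr h
  have h2 : t ≤ ⌈t⌉₊ := Nat.le_ceil t
  induction N, h1 using Nat.le_induction with
  | base => rfl
  | succ n hn ih =>
    have h3 : (⌈t⌉₊ : ℝ) ≤ n := by exact_mod_cast hn
    have hi : (0 : ℝ) ≤ (i : ℝ) := by positivity
    rw [Sr_stab Φ t ξ n i (by linarith)]
    exact ih (h2.trans h3)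

theorem Sr_fix {Φ : VV → VV} (t : ℝ) {ξ : ℕ → VV} (h : ∀ i, ξ i = Φ (ξ (i + 1))) (k i : ℕ) :
    Sr Φ t ξ k i = ξ i := by
  induction k generalizing i with
  | zero => rfl
  | succ k ih =>
    change (1 - th t i) • ξ i + th t i • Φ (Sr Φ t ξ k (i + 1)) = ξ i
    rw [ih (i + 1), ← h i, ← add_smul]
    simp

theorem Sr_lip {Φ : VV → VV} {L : ℝ} (hL : 0 ≤ L) (hΦ : ∀ x, ‖Φ x‖ = 1)
    (hlip : ∀ x y, ‖Φ x - Φ y‖ ≤ L * ‖x - y‖) (s t : ℝ) {ξ η : ℕ → VV} (h : ∀ i, ‖ξ i‖ ≤ 1)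
    {d : ℝ} (hd : ∀ i, ((2 : ℝ) ^ i)⁻¹ * ‖ξ i - η i‖ ≤ d) (k i : ℕ) :
    ((2 : ℝ) ^ i)⁻¹ * ‖Sr Φ s ξ k i - Sr Φ t η k i‖ ≤
      (2 * (1 + L)) ^ k * (2 * (|s - t| + d)) := by
  have hd0 : 0 ≤ d := le_trans (by positivity) (hd 0)
  have hst := abs_nonneg (s - t)
  induction k generalizing i with
  | zero =>
    change ((2 : ℝ) ^ i)⁻¹ * ‖ξ i - η i‖ ≤ _
    have := hd i
    rw [pow_zero]
    linarith
  | succ k ih =>
    change ((2 : ℝ) ^ i)⁻¹ * ‖((1 - th s i) • ξ i + th s i • Φ (Sr Φ s ξ k (i + 1))) -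
      ((1 - th t i) • η i + th t i • Φ (Sr Φ t η k (i + 1)))‖ ≤ _
    set a := Sr Φ s ξ k (i + 1) with ha
    set b := Sr Φ t η k (i + 1) with hb
    have hih := ih (i + 1)
    rw [← ha, ← hb] at hih
    have e : ((1 - th s i) • ξ i + th s i • Φ a) - ((1 - th t i) • η i + th t i • Φ b) =
        (th s i - th t i) • (Φ a - ξ i) + (1 - th t i) • (ξ i - η i) +
          th t i • (Φ a - Φ b) := by
      module
    have h0 := th_nonneg t i
    have h1 := th_le_one t i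
    have hp : 0 < ((2 : ℝ) ^ i)⁻¹ := by positivity
    have hp1 : ((2 : ℝ) ^ i)⁻¹ ≤ 1 := inv_le_one_of_one_le₀ (one_le_pow₀ (by norm_num))
    have n1 : ‖(th s i - th t i) • (Φ a - ξ i)‖ ≤ |s - t| * 2 := by
      rw [norm_smul, Real.norm_eq_abs]
      refine mul_le_mul (th_lip s t i) ?_ (norm_nonneg _) hst
      have := norm_sub_le (Φ a) (ξ i)
      rw [hΦ] at this
      linarith [h i]
    have n2 : ‖(1 - th t i) • (ξ i - η i)‖ ≤ ‖ξ i - η i‖ := by
      rw [norm_smul, Real.norm_eq_abs, abs_of_nonneg (by linarith)]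
      exact mul_le_of_le_one_left (norm_nonneg _) (by linarith)
    have n3 : ‖th t i • (Φ a - Φ b)‖ ≤ L * ‖a - b‖ := by
      rw [norm_smul, Real.norm_eq_abs, abs_of_nonneg h0]
      refine le_trans (mul_le_of_le_one_left (norm_nonneg _) h1) (hlip a b)
    rw [e]
    have n4 := (norm_add_le ((th s i - th t i) • (Φ a - ξ i) + (1 - th t i) • (ξ i - η i))
      (th t i • (Φ a - Φ b))).trans (add_le_add_left (norm_add_le _ _) _)
    have n5 := mul_le_mul_of_nonneg_left (n4.trans (add_le_add (add_le_add n1 n2) n3)) hp.le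
    have n6 := hd i
    have n7 : ((2 : ℝ) ^ i)⁻¹ * (L * ‖a - b‖) = 2 * L * (((2 : ℝ) ^ (i + 1))⁻¹ * ‖a - b‖) := by
      rw [pow_succ]
      field_simp
    have n8 : ((2 : ℝ) ^ i)⁻¹ * (|s - t| * 2) ≤ |s - t| * 2 :=
      mul_le_of_le_one_left (by positivity) hp1
    have n9 := mul_le_mul_of_nonneg_left hih (by positivity : 0 ≤ 2 * L)
    have hP : 1 ≤ (2 * (1 + L)) ^ k := one_le_pow₀ (by linarith)
    set P := (2 * (1 + L)) ^ k with hPdef
    have n10 : |s - t| * 2 + d ≤ 2 * (P * (2 * (|s - t| + d))) := by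
      have : (|s - t| + d) ≤ P * (|s - t| + d) := le_mul_of_one_le_left (by positivity) hP
      nlinarith
    rw [pow_succ, ← hPdef]
    calc _ ≤ ((2 : ℝ) ^ i)⁻¹ * (|s - t| * 2 + ‖ξ i - η i‖ + L * ‖a - b‖) := n5
      _ = ((2 : ℝ) ^ i)⁻¹ * (|s - t| * 2) + ((2 : ℝ) ^ i)⁻¹ * ‖ξ i - η i‖ +
          ((2 : ℝ) ^ i)⁻¹ * (L * ‖a - b‖) := by ring
      _ ≤ |s - t| * 2 + d + 2 * L * (P * (2 * (|s - t| + d))) := by
          rw [n7]; linarith
      _ ≤ 2 * (P * (2 * (|s - t| + d))) + 2 * L * (P * (2 * (|s - t| + d))) := by linarith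
      _ = _ := by ring

section

variable (Φ : VV → VV)

/-- truncated solution sets -/
def QK (k : ℕ) : Set EE := {x | x ∈ QQ ∧ ∀ i < k, cf x i = Φ (cf x (i + 1))}

/-- the attractor -/
def AA : Set EE := {x | x ∈ QQ ∧ ∀ i, cf x i = Φ (cf x (i + 1))}

/-- the homotopy -/
noncomputable def RR (t : ℝ) (x : EE) : EE := em fun i => Sr Φ t (cf x) ⌈t⌉₊ i

theorem AA_eq : AA Φ = ⋂ k, QK Φ k := by
  ext x
  simp only [AA, QK, Set.mem_iInter, Set.mem_ofPred_eq]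
  constructor
  · rintro ⟨h1, h2⟩ k
    exact ⟨h1, fun i _ => h2 i⟩
  · intro h
    exact ⟨(h 0).1, fun i => (h (i + 1)).2 i (Nat.lt_succ_self i)⟩

theorem QK_compact (hΦ : Continuous Φ) (k : ℕ) : IsCompact (QK Φ k) := by
  have hcl : IsClosed {x : EE | ∀ i < k, cf x i = Φ (cf x (i + 1))} := by
    have : {x : EE | ∀ i < k, cf x i = Φ (cf x (i + 1))} =
        ⋂ i, ⋂ (_ : i < k), {x : EE | cf x i = Φ (cf x (i + 1))} := by
      ext x; simp
    rw [this]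
    exact isClosed_iInter fun i => isClosed_iInter fun _ =>
      isClosed_eq (cf_cont i) (hΦ.comp (cf_cont (i + 1)))
  exact QQ_compact.inter_right hcl

theorem QK_mono (k : ℕ) : QK Φ (k + 1) ⊆ QK Φ k :=
  fun _ hx => ⟨hx.1, fun i hi => hx.2 i (by omega)⟩

theorem AA_compact (hΦ : Continuous Φ) : IsCompact (AA Φ) := by
  rw [AA_eq]
  exact (QK_compact Φ hΦ 0).of_isClosed_subset
    (isClosed_iInter fun k => (QK_compact Φ hΦ k).isClosed) (Set.iInter_subset _ 0)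

variable {Φ}

theorem cf_RR (hΦ : ∀ x, ‖Φ x‖ = 1) {t : ℝ} {x : EE} (hx : x ∈ QQ) {N : ℕ} (hN : t ≤ N)
    (i : ℕ) : cf (RR Φ t x) i = Sr Φ t (cf x) N i := by
  unfold RR
  rw [cf_em fun i => Sr_norm hΦ t hx _ _, Sr_stab' Φ t (cf x) hN i]

theorem RR_mem (hΦ : ∀ x, ‖Φ x‖ = 1) (t : ℝ) {x : EE} (hx : x ∈ QQ) : RR Φ t x ∈ QQ := by
  intro i
  rw [cf_RR hΦ hx (Nat.le_ceil t)]
  exact Sr_norm hΦ t hx _ _

theorem RR_QK (hΦ : ∀ x, ‖Φ x‖ = 1) {t : ℝ} {k : ℕ} (hk : (k : ℝ) ≤ t) {x : EE}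
    (hx : x ∈ QQ) : RR Φ t x ∈ QK Φ k := by
  refine ⟨RR_mem hΦ t hx, fun i hi => ?_⟩
  have h1 : (i : ℝ) + 1 ≤ k := by exact_mod_cast hi
  have h2 : t ≤ ((⌈t⌉₊ + 1 : ℕ) : ℝ) := by
    push_cast
    linarith [Nat.le_ceil t]
  rw [cf_RR hΦ hx h2 i, cf_RR hΦ hx (Nat.le_ceil t) (i + 1)]
  change (1 - th t i) • cf x i + th t i • Φ (Sr Φ t (cf x) ⌈t⌉₊ (i + 1)) = _
  rw [th_one (by linarith)]
  simp

theorem RR_zero {x : EE} : RR Φ 0 x = x := by
  unfold RR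
  rw [Nat.ceil_zero]
  exact em_cf x

theorem RR_fix {t : ℝ} {x : EE} (hx : x ∈ AA Φ) : RR Φ t x = x := by
  unfold RR
  have : (fun i => Sr Φ t (cf x) ⌈t⌉₊ i) = cf x := by
    funext i
    exact Sr_fix t hx.2 _ i
  rw [this, em_cf]

theorem RR_lip {L : ℝ} (hL : 0 ≤ L) (hΦ : ∀ x, ‖Φ x‖ = 1)
    (hlip : ∀ x y, ‖Φ x - Φ y‖ ≤ L * ‖x - y‖) (N : ℕ) (s t : ℝ) (hs : s ≤ N) (ht : t ≤ N)
    {x y : EE} (hx : x ∈ QQ) (hy : y ∈ QQ) :
    ‖RR Φ s x - RR Φ t y‖ ≤ 2 * (2 * (1 + L)) ^ N * (|s - t| + ‖x - y‖) := by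
  have e1 : RR Φ s x = em fun i => Sr Φ s (cf x) N i := by
    unfold RR
    congr 1
    funext i
    exact (Sr_stab' Φ s (cf x) hs i).symm
  have e2 : RR Φ t y = em fun i => Sr Φ t (cf y) N i := by
    unfold RR
    congr 1
    funext i
    exact (Sr_stab' Φ t (cf y) ht i).symm
  rw [e1, e2]
  refine em_dist (fun i => Sr_norm hΦ s hx _ _) (fun i => Sr_norm hΦ t hy _ _) (by positivity)
    fun i => ?_
  refine (Sr_lip hL hΦ hlip s t hx (cf_dist x y) N i).trans (le_of_eq ?_)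
  ring

theorem AA_nonempty (hc : Continuous Φ) (hΦ : ∀ x, ‖Φ x‖ = 1) : (AA Φ).Nonempty := by
  rw [AA_eq]
  refine IsCompact.nonempty_iInter_of_sequence_nonempty_isCompact_isClosed (QK Φ)
    (fun k => QK_mono Φ k) (fun k => ?_) (QK_compact Φ hc 0) fun k => (QK_compact Φ hc k).isClosed
  have h0 : (0 : EE) ∈ QQ := by
    intro i
    unfold cf
    simp
  exact ⟨_, RR_QK hΦ (le_refl (k : ℝ)) h0⟩

theorem RR_lim (hc : Continuous Φ) (hΦ : ∀ x, ‖Φ x‖ = 1) (ε : ℝ) (hε : 0 < ε) :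
    ∃ T0 : ℝ, 0 ≤ T0 ∧ ∀ t : ℝ, T0 ≤ t → ∀ x ∈ QQ, Metric.infDist (RR Φ t x) (AA Φ) ≤ ε := by
  have hdir : Directed (· ⊇ ·) (QK Φ) := by
    have : Antitone (QK Φ) := antitone_nat_of_succ_le fun k => QK_mono Φ k
    exact this.directed_ge
  have hU : ∀ x ∈ ⋂ k, QK Φ k, {y : EE | Metric.infDist y (AA Φ) < ε} ∈ 𝓝 x := by
    intro x hx
    rw [← AA_eq] at hx
    have ho : IsOpen {y : EE | Metric.infDist y (AA Φ) < ε} :=
      isOpen_lt (Metric.continuous_infDist_pt _) continuous_const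
    refine ho.mem_nhds ?_
    change Metric.infDist x (AA Φ) < ε
    rw [Metric.infDist_zero_of_mem hx]
    exact hε
  obtain ⟨k, hk⟩ := exists_subset_nhds_of_isCompact hdir (QK_compact Φ hc) hU
  refine ⟨k, by positivity, fun t ht x hx => ?_⟩
  have := hk (RR_QK hΦ ht hx)
  exact this.le

theorem TT_QQ {x : EE} (hx : x ∈ QQ) : TT x ∈ QQ := by
  intro i
  rw [cf_TT, rot.norm_map]
  exact hx i

theorem AA_sphere (hΦ : ∀ x, ‖Φ x‖ = 1) {x : EE} (hx : x ∈ AA Φ) (i : ℕ) : ‖cf x i‖ = 1 := by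
  rw [hx.2 i]
  exact hΦ _

theorem TT_AA (hΦ : ∀ x, ‖Φ x‖ = 1) (hrot : ∀ x, ‖x‖ = 1 → Φ (rot x) = rot (Φ x)) {x : EE}
    (hx : x ∈ AA Φ) : TT x ∈ AA Φ := by
  refine ⟨TT_QQ hx.1, fun i => ?_⟩
  rw [cf_TT, cf_TT, hrot _ (AA_sphere hΦ hx (i + 1)), ← hx.2 i]

theorem TT_ne (hΦ : ∀ x, ‖Φ x‖ = 1) {x : EE} (hx : x ∈ AA Φ) : TT x ≠ x := by
  intro h
  have h1 := AA_sphere hΦ hx 0
  have h2 : cf (TT x) 0 = cf x 0 := by rw [h]
  rw [cf_TT] at h2
  refine rot_ne ?_ h2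
  intro h3
  rw [h3, norm_zero] at h1
  exact zero_ne_one h1

end

/-- The concrete data. -/
theorem exists_data : Nonempty (Data EE) := by
  obtain ⟨Φ, L, hL, hΦ, hlip, hrot⟩ := exists_Phi'
  have hc : Continuous Φ := by
    have : LipschitzWith ⟨L, hL⟩ Φ := by
      refine LipschitzWith.of_dist_le_mul fun x y => ?_
      rw [dist_eq_norm, dist_eq_norm]
      exact hlip x y
    exact this.continuous
  exact ⟨{
    Q := QQ
    A := AA Φ
    pr := prr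
    T := TT
    R := RR Φ
    K := 2
    C := 2
    M := 2 * (1 + L)
    hQ := QQ_compact
    hA := AA_compact Φ hc
    hAne := AA_nonempty hc hΦ
    hAQ := fun x hx => hx.1
    pr_mem := prr_mem
    pr_id := fun x hx => prr_id hx
    hK := by norm_num
    pr_lip := prr_lip
    T_Q := fun x hx => TT_QQ hx
    T_A := fun x hx => TT_AA hΦ hrot hx
    T_ne := fun x hx => TT_ne hΦ hx
    hC := by norm_num
    hM := by linarith
    R_zero := fun x _ => RR_zero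
    R_A := fun t _ x hx => RR_fix hx
    R_Q := fun t _ x hx => RR_mem hΦ t hx
    R_lip := fun N s t _ _ hs ht x hx y hy => RR_lip hL hΦ hlip N s t hs ht hx hy
    R_lim := RR_lim hc hΦ }⟩

end Pool.Agent.Helper52.D9
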