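import Mathlib
import Pool.Agent.Helper52.D9Abs2
import Pool.Agent.Helper52.D9Conc

/-!
Transport of the counterexample of `D9Abs2`, `D9Conc` to the real or complex Banach space `c_0`.
-/

open scoped ZeroAtInfty
open Filter Topology

namespace Pool.Agent.Helper52.D9

noncomputable section

/-- the four real coordinates -/
def co (v : VV) : Fin 4 → ℝ := ![v.1.re, v.1.im, v.2.re, v.2.im]

/-- the inverse of `co` -/
def oc (u : Fin 4 → ℝ) : VV := (⟨u 0, u 1⟩, ⟨u 2, u 3⟩)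

theorem oc_co (v : VV) : oc (co v) = v := by
  rfl

theorem co_sub (v w : VV) (j : Fin 4) : co v j - co w j = co (v - w) j := by
  fin_cases j <;> simp [co]

theorem co_le (v : VV) (j : Fin 4) : |co v j| ≤ ‖v‖ := by
  have h1 : ‖v.1‖ ≤ ‖v‖ := norm_fst_le v
  have h2 : ‖v.2‖ ≤ ‖v‖ := norm_snd_le v
  fin_cases j
  · exact (Complex.abs_re_le_norm v.1).trans h1
  · exact (Complex.abs_im_le_norm v.1).trans h1
  · exact (Complex.abs_re_le_norm v.2).trans h2
  · exact (Complex.abs_im_le_norm v.2).trans h2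

theorem oc_sub (u w : Fin 4 → ℝ) : oc u - oc w = oc (fun j => u j - w j) := by
  apply Prod.ext <;> apply Complex.ext <;> simp [oc]

theorem oc_le (u : Fin 4 → ℝ) {r : ℝ} (h : ∀ j, |u j| ≤ r) : ‖oc u‖ ≤ 2 * r := by
  rw [Prod.norm_def]
  refine max_le ?_ ?_
  · refine (Complex.norm_le_abs_re_add_abs_im _).trans ?_
    have h0 := h 0
    have h1 := h 1
    change |u 0| + |u 1| ≤ 2 * r
    linarith
  · refine (Complex.norm_le_abs_re_add_abs_im _).trans ?_
    have h0 := h 2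
    have h1 := h 3
    change |u 2| + |u 3| ≤ 2 * r
    linarith

/-- the index set of all real coordinates of an element of `Sp EE` -/
abbrev II : Type := (ℕ × ℕ × Fin 4) ⊕ ℕ

/-- an enumeration -/
def en : ℕ ≃ II := Classical.choice (nonempty_equiv_of_countable (α := ℕ) (β := II))

/-- the coordinates -/
def GG (x : Sp EE) : II → ℝ := Sum.elim (fun p => co (x.1 p.1 p.2.1) p.2.2) (fun n => x.2 n)

theorem GG_le (x : Sp EE) (p : II) : |GG x p| ≤ ‖x‖ := by
  have h1 : ‖x.1‖ ≤ ‖x‖ := norm_fst_le x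
  have h2 : ‖x.2‖ ≤ ‖x‖ := norm_snd_le x
  rcases p with p | n
  · exact ((co_le _ _).trans (c0_apply_le _ _)).trans ((c0_apply_le _ _).trans h1)
  · have := c0_apply_le x.2 n
    rw [Real.norm_eq_abs] at this
    exact this.trans h2

theorem GG_sub (x y : Sp EE) (p : II) : GG x p - GG y p = GG (x - y) p := by
  rcases p with p | n
  · change co _ _ - co _ _ = co _ _
    rw [co_sub]
    rfl
  · rfl

theorem c0_finite {F : Type} [NormedAddCommGroup F] (f : C₀(ℕ, F)) {ε : ℝ} (hε : 0 < ε) :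
    {n | ε ≤ ‖f n‖}.Finite := by
  have h1 := (c0_tendsto f).norm
  rw [norm_zero] at h1
  have h2 : ∀ᶠ n in atTop, ‖f n‖ < ε := h1.eventually (gt_mem_nhds hε)
  rw [← Nat.cofinite_eq_atTop, eventually_cofinite] at h2
  refine h2.subset fun n hn => ?_
  exact not_lt.2 hn

theorem GG_tendsto (x : Sp EE) : Tendsto (GG x) cofinite (𝓝 0) := by
  rw [Metric.tendsto_nhds]
  intro ε hε
  rw [eventually_cofinite]
  have hS := c0_finite x.1 hε
  have hT := fun n => c0_finite (x.1 n) hε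
  have hU := c0_finite x.2 hε
  have hfin : (Sum.inl '' (⋃ n ∈ {n | ε ≤ ‖x.1 n‖}, ⋃ m ∈ {m | ε ≤ ‖x.1 n m‖},
      Set.range fun j : Fin 4 => (n, m, j)) ∪ Sum.inr '' {n | ε ≤ ‖x.2 n‖} : Set II).Finite := by
    refine Set.Finite.union (Set.Finite.image _ ?_) (hU.image _)
    exact hS.biUnion fun n _ => (hT n).biUnion fun m _ => Set.finite_range _
  refine hfin.subset fun p hp => ?_
  have hp' : ε ≤ |GG x p| := by
    have : ¬ dist (GG x p) 0 < ε := hp
    rw [Real.dist_eq, sub_zero] at this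
    exact not_lt.1 this
  rcases p with ⟨n, m, j⟩ | n
  · left
    refine ⟨(n, m, j), ?_, rfl⟩
    have h1 : ε ≤ ‖x.1 n m‖ := hp'.trans (co_le _ _)
    have h2 : ε ≤ ‖x.1 n‖ := h1.trans (c0_apply_le _ _)
    simp only [Set.mem_iUnion]
    exact ⟨n, h2, m, h1, j, rfl⟩
  · right
    exact ⟨n, hp', rfl⟩

variable (𝕜 : Type) [RCLike 𝕜]

/-- the embedding into `c_0` -/
def inj (x : Sp EE) : C₀(ℕ, 𝕜) := toC0 fun k => ((GG x (en k) : ℝ) : 𝕜)

theorem inj_apply (x : Sp EE) (k : ℕ) : inj 𝕜 x k = ((GG x (en k) : ℝ) : 𝕜) := by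
  refine toC0_apply ?_ k
  have h1 : Tendsto (fun k => GG x (en k)) atTop (𝓝 0) := by
    rw [← Nat.cofinite_eq_atTop]
    exact (GG_tendsto x).comp en.injective.tendsto_cofinite
  have h2 : Tendsto (fun r : ℝ => (r : 𝕜)) (𝓝 0) (𝓝 ((0 : ℝ) : 𝕜)) :=
    (RCLike.continuous_ofReal (K := 𝕜)).tendsto 0
  rw [RCLike.ofReal_zero] at h2
  exact h2.comp h1

theorem inj_cont : Continuous (inj 𝕜) := by
  refine (LipschitzWith.of_dist_le_mul (K := 1) fun x y => ?_).continuous
  rw [dist_eq_norm, dist_eq_norm, NNReal.coe_one, one_mul]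
  refine c0_norm_le (norm_nonneg _) fun k => ?_
  have h : (inj 𝕜 x - inj 𝕜 y) k = ((GG (x - y) (en k) : ℝ) : 𝕜) := by
    rw [ZeroAtInftyContinuousMap.sub_apply, inj_apply, inj_apply, ← RCLike.ofReal_sub, GG_sub]
  rw [h, RCLike.norm_ofReal]
  exact GG_le _ _

variable {𝕜}

/-- the real parts of the coordinates -/
def HHc (y : C₀(ℕ, 𝕜)) (p : II) : ℝ := RCLike.re (y (en.symm p))

theorem HHc_tendsto (y : C₀(ℕ, 𝕜)) : Tendsto (HHc y) cofinite (𝓝 0) := by
  have h1 : Tendsto (fun p : II => y (en.symm p)) cofinite (𝓝 0) := by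
    have h0 := c0_tendsto y
    rw [← Nat.cofinite_eq_atTop] at h0
    exact h0.comp en.symm.injective.tendsto_cofinite
  have h2 : Tendsto (fun z : 𝕜 => RCLike.re z) (𝓝 0) (𝓝 (RCLike.re (0 : 𝕜))) :=
    (RCLike.continuous_re (K := 𝕜)).tendsto 0
  rw [map_zero] at h2
  exact h2.comp h1

theorem HHc_sub (x y : C₀(ℕ, 𝕜)) (p : II) : |HHc x p - HHc y p| ≤ ‖x - y‖ := by
  unfold HHc
  rw [← map_sub]
  exact (RCLike.abs_re_le_norm _).trans (c0_dist_apply x y _)

theorem row_tendsto (y : C₀(ℕ, 𝕜)) (n : ℕ) :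
    Tendsto (fun m : ℕ => oc fun j => HHc y (Sum.inl (n, m, j))) atTop (𝓝 0) := by
  rw [tendsto_zero_iff_norm_tendsto_zero]
  have h1 : ∀ j : Fin 4, Tendsto (fun m : ℕ => |HHc y (Sum.inl (n, m, j))|) atTop (𝓝 0) := by
    intro j
    have h2 : Function.Injective fun m : ℕ => (Sum.inl (n, m, j) : II) := by
      intro a b hab
      have := Sum.inl.inj hab
      exact (Prod.mk.inj (Prod.mk.inj this).2).1
    have h3 := (HHc_tendsto y).comp h2.tendsto_cofinite
    rw [Nat.cofinite_eq_atTop] at h3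
    have h4 := h3.abs
    rw [abs_zero] at h4
    exact h4
  have h5 : Tendsto (fun m : ℕ => 2 * (∑ j : Fin 4, |HHc y (Sum.inl (n, m, j))|)) atTop (𝓝 0) := by
    have := (tendsto_finsetSum Finset.univ fun j _ => h1 j).const_mul 2
    simpa using this
  refine squeeze_zero (fun m => norm_nonneg _) (fun m => ?_) h5
  refine oc_le _ fun j => ?_
  exact Finset.single_le_sum (f := fun j => |HHc y (Sum.inl (n, m, j))|)
    (fun _ _ => abs_nonneg _) (Finset.mem_univ j)

theorem rows_tendsto (y : C₀(ℕ, 𝕜)) :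
    Tendsto (fun n : ℕ => (toC0 fun m : ℕ => oc fun j => HHc y (Sum.inl (n, m, j)) : EE)) atTop
      (𝓝 0) := by
  rw [Metric.tendsto_nhds]
  intro ε hε
  have h1 := HHc_tendsto y
  rw [Metric.tendsto_nhds] at h1
  have h2 := h1 (ε / 4) (by positivity)
  rw [eventually_cofinite] at h2
  have h3 : (((fun p : II => (Sum.elim (fun q : ℕ × ℕ × Fin 4 => q.1) id p : ℕ)) ''
      {p | ¬ dist (HHc y p) 0 < ε / 4})).Finite := h2.image _
  rw [← Nat.cofinite_eq_atTop, eventually_cofinite]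
  refine h3.subset fun n hn => ?_
  by_contra hcon
  apply hn
  have h4 : ∀ m j, |HHc y (Sum.inl (n, m, j))| ≤ ε / 4 := by
    intro m j
    by_contra h5
    apply hcon
    refine ⟨Sum.inl (n, m, j), ?_, rfl⟩
    change ¬ dist (HHc y (Sum.inl (n, m, j))) 0 < ε / 4
    rw [Real.dist_eq, sub_zero]
    intro h6
    exact h5 h6.le
  rw [dist_eq_norm, sub_zero]
  refine lt_of_le_of_lt (c0_norm_le (r := ε / 2) (by positivity) fun m => ?_) (by linarith)
  rw [toC0_apply (row_tendsto y n)]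
  refine (oc_le _ fun j => h4 m j).trans ?_
  linarith

/-- the retraction -/
def ret (y : C₀(ℕ, 𝕜)) : Sp EE :=
  (toC0 fun n => toC0 fun m => oc fun j => HHc y (Sum.inl (n, m, j)),
    toC0 fun n => HHc y (Sum.inr n))

theorem last_tendsto (y : C₀(ℕ, 𝕜)) : Tendsto (fun n => HHc y (Sum.inr n)) atTop (𝓝 0) := by
  have h2 : Function.Injective fun n : ℕ => (Sum.inr n : II) := Sum.inr_injective
  have h3 := (HHc_tendsto y).comp h2.tendsto_cofinite
  rw [Nat.cofinite_eq_atTop] at h3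
  exact h3

theorem ret_fst (y : C₀(ℕ, 𝕜)) (n m : ℕ) :
    (ret y).1 n m = oc fun j => HHc y (Sum.inl (n, m, j)) := by
  have h1 : (ret y).1 n = toC0 fun m => oc fun j => HHc y (Sum.inl (n, m, j)) :=
    toC0_apply (rows_tendsto y) n
  rw [h1]
  exact toC0_apply (row_tendsto y n) m

theorem ret_snd (y : C₀(ℕ, 𝕜)) (n : ℕ) : (ret y).2 n = HHc y (Sum.inr n) :=
  toC0_apply (last_tendsto y) n

theorem ret_cont : Continuous (ret : C₀(ℕ, 𝕜) → Sp EE) := by
  refine (LipschitzWith.of_dist_le_mul (K := 2) fun x y => ?_).continuous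
  rw [dist_eq_norm, dist_eq_norm, NNReal.coe_ofNat, Prod.norm_def]
  have h0 := norm_nonneg (x - y)
  refine max_le ?_ ?_
  · refine c0_norm_le (by positivity) fun n => c0_norm_le (by positivity) fun m => ?_
    have e : ((ret x - ret y).1 n) m = (ret x).1 n m - (ret y).1 n m := rfl
    rw [e, ret_fst, ret_fst, oc_sub]
    exact oc_le _ fun j => HHc_sub x y _
  · refine c0_norm_le (by positivity) fun n => ?_
    have e : (ret x - ret y).2 n = (ret x).2 n - (ret y).2 n := rfl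
    rw [e, ret_snd, ret_snd, Real.norm_eq_abs]
    have := HHc_sub x y (Sum.inr n)
    linarith

theorem ret_inj (x : Sp EE) : ret (inj 𝕜 x) = x := by
  have hH : ∀ p, HHc (inj 𝕜 x) p = GG x p := by
    intro p
    unfold HHc
    rw [inj_apply, RCLike.ofReal_re, Equiv.apply_symm_apply]
  apply Prod.ext
  · ext1 n
    ext1 m
    rw [ret_fst]
    have : (fun j => HHc (inj 𝕜 x) (Sum.inl (n, m, j))) = co (x.1 n m) := by
      funext j
      rw [hH]
      rfl
    rw [this, oc_co]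
  · ext1 n
    rw [ret_snd, hH]
    rfl

variable (𝕜)

/-- a compact set which attracts all compact sets under a continuous map without fixed points
of the real or complex Banach space `c_0` -/
theorem full : ∃ (f : C₀(ℕ, 𝕜) → C₀(ℕ, 𝕜)) (A : Set C₀(ℕ, 𝕜)), Continuous f ∧ IsCompact A ∧
    A.Nonempty ∧
    (∀ K : Set C₀(ℕ, 𝕜), IsCompact K → ∀ U : Set C₀(ℕ, 𝕜), (∃ O, IsOpen O ∧ A ⊆ O ∧ O ⊆ U) →
      ∃ N : ℕ, ∀ n ≥ N, f^[n] '' K ⊆ U) ∧
    ∀ x, f x ≠ x := by
  obtain ⟨D⟩ := exists_data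
  obtain ⟨f, A, hf, hA, hatt, hne⟩ := counterexample D
  have hne' : ∀ x, f x ≠ x := by
    intro x hx
    have hxA : x ∈ A := by
      by_contra hcon
      have hU : {x}ᶜ ∈ nhdsSet A := by
        rw [mem_nhdsSet_iff_exists]
        exact ⟨{x}ᶜ, isOpen_compl_singleton, fun a ha hax => hcon (hax ▸ ha), subset_rfl⟩
      obtain ⟨N, hN⟩ := hatt {x} isCompact_singleton _ hU
      have h1 : f^[N] x ∈ ({x}ᶜ : Set (Sp EE)) := hN N le_rfl ⟨x, rfl, rfl⟩
      rw [Function.iterate_fixed hx] at h1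
      exact h1 rfl
    exact hne x hxA hx
  have hit : ∀ (n : ℕ) (y : C₀(ℕ, 𝕜)), (fun z => inj 𝕜 (f (ret z)))^[n + 1] y =
      inj 𝕜 (f^[n + 1] (ret y)) := by
    intro n y
    induction n with
    | zero => rfl
    | succ n ih =>
      rw [Function.iterate_succ_apply', ih, ret_inj, ← Function.iterate_succ_apply' f (n + 1)]
  refine ⟨fun z => inj 𝕜 (f (ret z)), inj 𝕜 '' A, (inj_cont 𝕜).comp (hf.comp ret_cont),
    hA.image (inj_cont 𝕜), ?_, ?_, ?_⟩
  · by_contra hcon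
    rw [Set.not_nonempty_iff_eq_empty, Set.image_eq_empty] at hcon
    obtain ⟨N, hN⟩ := hatt {0} isCompact_singleton ∅ (by rw [hcon]; simp)
    exact hN N le_rfl ⟨0, rfl, rfl⟩
  · rintro K hK U ⟨O, hO, hAO, hOU⟩
    have hU : (inj 𝕜) ⁻¹' O ∈ nhdsSet A := by
      rw [mem_nhdsSet_iff_exists]
      exact ⟨_, hO.preimage (inj_cont 𝕜), fun a ha => hAO ⟨a, ha, rfl⟩, subset_rfl⟩
    obtain ⟨N, hN⟩ := hatt (ret '' K) (hK.image ret_cont) _ hU
    refine ⟨N + 1, fun n hn => ?_⟩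
    obtain ⟨m, rfl⟩ : ∃ m, n = m + 1 := ⟨n - 1, by omega⟩
    rintro _ ⟨y, hy, rfl⟩
    rw [hit]
    exact hOU (hN (m + 1) (by omega) ⟨ret y, ⟨y, hy, rfl⟩, rfl⟩)
  · intro x hx
    apply hne' (ret x)
    have h1 := congrArg (ret (𝕜 := 𝕜)) hx
    simp only at h1
    rw [ret_inj] at h1
    exact h1

end

end Pool.Agent.Helper52.D9
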