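import Mathlib

/-!
# Definitions for the non-Ore RD domain (MP_44b994_al)

Everything is over a field `k : Type`.  We carry a `k`-algebra `T` with an idempotent `e`;
the domain is `R = e T e`.
-/

set_option autoImplicit false

namespace Pool.Agent.Helper52.Rd

/-- `e` is of rank one. -/
def RO {T : Type} [Ring T] (e : T) : Prop :=
  ∀ x y : T, x * e = x → e * y = y → x * y = 0 → x = 0 ∨ y = 0

/-- Heredity of `T`, in the form: every equivariant map between representations of `T` on
`k`-spaces factors as an injection followed by a surjection whose kernel lies in the image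
of the injection. -/
def Her (k T : Type) [Field k] [Ring T] [Algebra k T] : Prop :=
  ∀ (L E : Type) [AddCommGroup L] [Module k L] [AddCommGroup E] [Module k E]
    (ρL : T →ₐ[k] Module.End k L) (ρE : T →ₐ[k] Module.End k E) (g : L →ₗ[k] E)
    (_ : ∀ t x, g (ρL t x) = ρE t (g x)),
    ∃ (M : Type) (_ : AddCommGroup M) (_ : Module k M) (ρM : T →ₐ[k] Module.End k M)
      (i : L →ₗ[k] M) (p : M →ₗ[k] E),
      (∀ t x, i (ρL t x) = ρM t (i x)) ∧ (∀ t m, p (ρM t m) = ρE t (p m)) ∧
      Function.Injective i ∧ Function.Surjective p ∧ (∀ x, p (i x) = g x) ∧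
      (∀ m, p m = 0 → ∃ x, i x = m)

/-- The witness for an element `A` of `T`. -/
def Cert {T : Type} [Ring T] (e A : T) : Prop :=
  ∃ d C F E G H : T, e * d = d ∧ d * e = d ∧ e * C = C ∧ e * F = F ∧ E * e = E ∧ G * e = G ∧
    C * A = d * F ∧ E * d = A * G ∧ E * (C * A) = A + A * (H * A)

/-- The invariants of a stage. -/
structure Good (k : Type) {T : Type} [Field k] [Ring T] [Algebra k T]
    (e s s' p p' l1 l2 : T) : Prop where
  ee : e * e = e
  e0 : e ≠ 0
  ro : RO e
  her : Her k T
  herOp : Her k Tᵐᵒᵖ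
  s's : s' * s = 1
  p'p : p' * p = e
  pe : p * e = p
  ep' : e * p' = p'
  sum : s * s' + p * p' = 1
  el1 : e * l1 = l1
  l1e : l1 * e = l1
  el2 : e * l2 = l2
  l2e : l2 * e = l2
  indep : ∀ x y : T, e * x = x → e * y = y → l1 * x + l2 * y = 0 → x = 0 ∧ y = 0

/-- The step theorem (to be proved in the core files). -/
def Step (k : Type) [Field k] : Prop :=
  ∀ (T : Type) [Ring T] [Algebra k T] (e s s' p p' l1 l2 : T), Good k e s s' p p' l1 l2 →
    ∃ (T' : Type) (_ : Ring T') (_ : Algebra k T') (ι : T →ₐ[k] T'),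
      Function.Injective ι ∧ Good k (ι e) (ι s) (ι s') (ι p) (ι p') (ι l1) (ι l2) ∧
      ∀ A : T, Cert (ι e) (ι A)

/-- The start theorem (to be proved in the core files). -/
def Start (k : Type) [Field k] : Prop :=
  ∃ (T : Type) (_ : Ring T) (_ : Algebra k T) (e s s' p p' l1 l2 : T),
    Good k e s s' p p' l1 l2

/-- The data of an adjunction: for each `i : I` two letters `r i = e i * r i * y i` and
`c i = z i * c i * e i`; if `m1 i` then `r i * a i * c i = e i`; if moreover `m2 i` then
`y i = z i = a i` and `c i * r i = y i`. -/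
structure LData (T : Type) [Ring T] where
  I : Type
  e : I → T
  y : I → T
  z : I → T
  a : I → T
  m1 : I → Prop
  m2 : I → Prop
  ee : ∀ i, e i * e i = e i
  yy : ∀ i, y i * y i = y i
  zz : ∀ i, z i * z i = z i
  ya : ∀ i, y i * a i = a i
  az : ∀ i, a i * z i = a i
  m21 : ∀ i, m2 i → m1 i
  m2y : ∀ i, m2 i → a i = y i
  m2z : ∀ i, m2 i → z i = y i
  a0 : ∀ i, m1 i → a i ≠ 0
  e0 : ∀ i, m2 i → e i ≠ 0

/-- The relations satisfied by the letters of an adjunction along `ι : T → B`. -/
structure LRel {T B : Type} [Ring T] [Ring B] (D : LData T) (ι : T → B) (r c : D.I → B) :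
    Prop where
  er : ∀ i, ι (D.e i) * r i = r i
  ry : ∀ i, r i * ι (D.y i) = r i
  zc : ∀ i, ι (D.z i) * c i = c i
  ce : ∀ i, c i * ι (D.e i) = c i
  rac : ∀ i, D.m1 i → r i * (ι (D.a i) * c i) = ι (D.e i)
  cr : ∀ i, D.m2 i → c i * r i = ι (D.y i)

/-- `T'` is the universal adjunction of the letters of `D` to `T`. -/
structure IsAdj (k : Type) {T T' : Type} [Field k] [Ring T] [Algebra k T] [Ring T']
    [Algebra k T'] (D : LData T) (ι : T →ₐ[k] T') (r c : D.I → T') : Prop where
  rel : LRel D ι r c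
  lift : ∀ (B : Type) [Ring B] [Algebra k B] (f : T →ₐ[k] B) (R C : D.I → B),
    LRel D f R C → ∃ F : T' →ₐ[k] B, (∀ t, F (ι t) = f t) ∧ (∀ i, F (r i) = R i) ∧
      (∀ i, F (c i) = C i)
  gen : ∀ S : Subalgebra k T', (∀ t, ι t ∈ S) → (∀ i, r i ∈ S) → (∀ i, c i ∈ S) → S = ⊤

end Pool.Agent.Helper52.Rd
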