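import Mathlib
import Pool.Agent.Helper66.PFDense

/-!
Bases of metric spaces that are countable unions of families of pairwise disjoint open sets.
-/

set_option autoImplicit false

open Set Cardinal Ordinal

universe u v

namespace Pool.Agent.Helper52.Tame

/-- Every metric space has a base that is a countable union of families of pairwise disjoint
open sets. -/
theorem exists_sigma_disjoint_base (X : Type u) [MetricSpace X] :
    ∃ O : ℕ → X → Set X, (∀ n x, IsOpen (O n x)) ∧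
      (∀ n, Pairwise (fun x y => Disjoint (O n x) (O n y))) ∧
      ∀ (y : X) (U : Set X), IsOpen U → y ∈ U → ∃ n x, y ∈ O n x ∧ O n x ⊆ U := by
  obtain ⟨r, hr⟩ : ∃ r : X → X → Prop, IsWellOrder X r := ⟨WellOrderingRel, inferInstance⟩
  -- the centres of level `n, m` belonging to `x`
  obtain ⟨E, hE⟩ : ∃ E : ℕ → ℕ → X → Set X, E = fun (n m : ℕ) (x : X) =>
      {y | Metric.ball y (1 / ((m : ℝ) + 1)) ⊆ Metric.ball x (1 / ((n : ℝ) + 1)) ∧
        ∀ x', r x' x → y ∉ Metric.ball x' (1 / ((n : ℝ) + 1))} := ⟨_, rfl⟩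
  obtain ⟨V, hV⟩ : ∃ V : ℕ → ℕ → X → Set X, V = fun (n m : ℕ) (x : X) =>
      (⋃ y ∈ E n m x, Metric.ball y (1 / ((m : ℝ) + 1) / 2)) := ⟨_, rfl⟩
  have hVopen : ∀ n m x, IsOpen (V n m x) := by
    intro n m x
    rw [hV]
    exact isOpen_biUnion (fun y _ => Metric.isOpen_ball)
  have hpos : ∀ m : ℕ, 0 < 1 / ((m : ℝ) + 1) := fun m => by positivity
  have hVsub : ∀ n m x, V n m x ⊆ Metric.ball x (1 / ((n : ℝ) + 1)) := by
    intro n m x z hz
    rw [hV] at hz
    obtain ⟨y, hy, hz⟩ := mem_iUnion₂.1 hz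
    rw [hE] at hy
    refine hy.1 (Metric.ball_subset_ball ?_ hz)
    have := hpos m
    linarith
  have hdisj : ∀ n m x x', r x x' → Disjoint (V n m x) (V n m x') := by
    intro n m x x' hxx'
    rw [disjoint_left]
    intro z hz hz'
    rw [hV] at hz hz'
    obtain ⟨y, hy, hz⟩ := mem_iUnion₂.1 hz
    obtain ⟨y', hy', hz'⟩ := mem_iUnion₂.1 hz'
    rw [hE] at hy hy'
    apply hy'.2 x hxx'
    apply hy.1
    rw [Metric.mem_ball] at hz hz' ⊢
    have h1 := dist_triangle_left y' y z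
    linarith
  refine ⟨fun l x => V (Nat.unpair l).1 (Nat.unpair l).2 x, fun l x => hVopen _ _ _, ?_, ?_⟩
  · intro l x y hxy
    rcases trichotomous_of r x y with h | h | h
    · exact hdisj _ _ _ _ h
    · exact absurd h hxy
    · exact (hdisj _ _ _ _ h).symm
  · intro y U hU hyU
    obtain ⟨ε, hε, hb⟩ := Metric.isOpen_iff.1 hU y hyU
    obtain ⟨n, hn⟩ := exists_nat_one_div_lt (half_pos hε)
    have hne : {x | y ∈ Metric.ball x (1 / ((n : ℝ) + 1))}.Nonempty :=
      ⟨y, Metric.mem_ball_self (hpos n)⟩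
    obtain ⟨x, hx, hmin⟩ := WellFounded.has_min hr.wf _ hne
    obtain ⟨δ, hδ, hδb⟩ := Metric.isOpen_iff.1 (Metric.isOpen_ball (x := x)
      (ε := 1 / ((n : ℝ) + 1))) y hx
    obtain ⟨m, hm⟩ := exists_nat_one_div_lt hδ
    have hyE : y ∈ E n m x := by
      rw [hE]
      exact ⟨(Metric.ball_subset_ball hm.le).trans hδb, fun x' hx' hy' => hmin x' hy' hx'⟩
    refine ⟨Nat.pair n m, x, ?_, ?_⟩
    · change y ∈ V (Nat.unpair (Nat.pair n m)).1 (Nat.unpair (Nat.pair n m)).2 x
      rw [Nat.unpair_pair, hV]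
      refine mem_iUnion₂.2 ⟨y, hyE, Metric.mem_ball_self ?_⟩
      have := hpos m
      linarith
    · change V (Nat.unpair (Nat.pair n m)).1 (Nat.unpair (Nat.pair n m)).2 x ⊆ U
      rw [Nat.unpair_pair]
      refine (hVsub n m x).trans (Subset.trans ?_ hb)
      intro z hz
      rw [mem_ofPred_eq, Metric.mem_ball] at hx
      rw [Metric.mem_ball] at hz ⊢
      have h1 := dist_triangle_right z y x
      linarith

end Pool.Agent.Helper52.Tame
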