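import Mathlib
import Pool.Agent.Helper66.PFSigma

/-!
Countable systems of continuous monotone families of sets and the additive Borel classes.
-/

set_option autoImplicit false

open Set Cardinal Ordinal
open Pool.Agent.Helper66.PF

universe u v

namespace Pool.Agent.Helper52.Tame

/-- A countable system of families of subsets of `K`: every family is closed under supersets and
continuous along increasing sequences, and for every family of the system the family of the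
complements of its members belongs to the `σ`-algebra of families generated by the system. -/
structure Sys {K : Type u} (𝒢 : ℕ → Set (Set K)) : Prop where
  mono : ∀ i : ℕ, ∀ A ∈ 𝒢 i, ∀ B : Set K, A ⊆ B → B ∈ 𝒢 i
  cont : ∀ (i : ℕ) (A : ℕ → Set K), Monotone A → (⋃ n, A n) ∈ 𝒢 i → ∃ n, A n ∈ 𝒢 i
  dual : ∀ i : ℕ,
    @MeasurableSet (Set K) (MeasurableSpace.generateFrom (range 𝒢)) {A : Set K | Aᶜ ∈ 𝒢 i}

theorem add_lt_w1 {α β : Ordinal.{0}} (hα : α < ω₁) (hβ : β < ω₁) : α + β < ω₁ := by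
  have h := Ordinal.isPrincipal_add_omega (o := 1)
  exact h hα hβ

theorem Sys.open {K : Type u} {𝒢 : ℕ → Set (Set K)} (h : Sys 𝒢) {X : Type v} [MetricSpace X]
    (C : K → Set X) (hC : ∀ k, IsOpen (C k)) (i : ℕ) : IsOpen {x : X | {k | x ∈ C k} ∈ 𝒢 i} := by
  rw [Metric.isOpen_iff]
  intro x hx
  have h1 : (⋃ n : ℕ, {k | Metric.ball x (1 / ((n : ℝ) + 1)) ⊆ C k}) = {k | x ∈ C k} := by
    ext k
    simp only [mem_iUnion, mem_ofPred_eq]
    constructor
    · rintro ⟨n, hn⟩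
      exact hn (Metric.mem_ball_self (by positivity))
    · intro hk
      obtain ⟨ε, hε, hb⟩ := Metric.isOpen_iff.1 (hC k) x hk
      obtain ⟨n, hn⟩ := exists_nat_one_div_lt hε
      exact ⟨n, (Metric.ball_subset_ball hn.le).trans hb⟩
  have hmono : Monotone (fun n : ℕ => {k | Metric.ball x (1 / ((n : ℝ) + 1)) ⊆ C k}) := by
    intro n m hnm k hk
    refine (Metric.ball_subset_ball ?_).trans hk
    exact Nat.one_div_le_one_div hnm
  obtain ⟨n, hn⟩ := h.cont i _ hmono (by rw [h1]; exact hx)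
  refine ⟨1 / ((n : ℝ) + 1), by positivity, ?_⟩
  intro y hy
  exact h.mono i _ hn _ (fun k hk => hk hy)

theorem sg_iInter_lt {X : Type v} [MetricSpace X] {γ : ℕ → Ordinal.{0}}
    {α : Ordinal.{0}} (hα : 1 < α) (hγ : ∀ l, γ l < α) (k : ℕ) :
    ∃ δ : Ordinal.{0}, 1 ≤ δ ∧ δ < α ∧ ∀ (f : ℕ → Set X), (∀ l, Sg (γ l) (f l)ᶜ) →
      Sg δ (⋃ l ∈ Iio k, f l)ᶜ := by
  induction k with
  | zero =>
    refine ⟨1, le_rfl, hα, fun f hf => ?_⟩
    have h1 : (⋃ l ∈ Iio 0, f l) = (∅ : Set X) := by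
      ext x; simp
    rw [h1, compl_empty]
    exact sg_univ le_rfl
  | succ k ih =>
    obtain ⟨δ, hδ1, hδ2, hδ3⟩ := ih
    refine ⟨max δ (γ k), le_max_of_le_left hδ1, max_lt hδ2 (hγ k), fun f hf => ?_⟩
    have h1 : (⋃ l ∈ Iio (k + 1), f l) = (⋃ l ∈ Iio k, f l) ∪ f k := by
      ext x
      simp only [mem_iUnion, mem_Iio, mem_union, exists_prop]
      constructor
      · rintro ⟨l, hl, hx⟩
        rcases (Nat.lt_succ_iff_lt_or_eq.1 hl) with h | rfl
        · exact Or.inl ⟨l, h, hx⟩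
        · exact Or.inr hx
      · rintro (⟨l, hl, hx⟩ | hx)
        · exact ⟨l, by omega, hx⟩
        · exact ⟨k, by omega, hx⟩
    rw [h1, compl_union]
    exact ((hδ3 f hf).mono (le_max_left _ _)).inter ((hf k).mono (le_max_right _ _))

/-- Countable Boolean combinations raise the class by a fixed countable ordinal. -/
theorem rank {K : Type u} {𝒢 : ℕ → Set (Set K)} (X : Type v) [MetricSpace X] {M : Set (Set K)}
    (hM : @MeasurableSet (Set K) (MeasurableSpace.generateFrom (range 𝒢)) M) :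
    ∃ ρ : Ordinal.{0}, ρ < ω₁ ∧ ∀ γ : Ordinal.{0}, 1 ≤ γ → ∀ g : X → Set K,
      (∀ j, Sg γ (g ⁻¹' 𝒢 j)) → Sg (γ + ρ) (g ⁻¹' M) := by
  induction M, hM using MeasurableSpace.generateFrom_induction with
  | hC t ht _ =>
    obtain ⟨j, rfl⟩ := ht
    refine ⟨0, Ordinal.omega_pos 1, fun γ hγ g hg => ?_⟩
    rw [add_zero]
    exact hg j
  | empty =>
    refine ⟨0, Ordinal.omega_pos 1, fun γ hγ g hg => ?_⟩
    rw [preimage_empty]
    exact sg_empty (hγ.trans (by simp))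
  | compl t ht ih =>
    obtain ⟨ρ, hρ, h⟩ := ih
    refine ⟨ρ + 1, add_one_lt_w1 hρ, fun γ hγ g hg => ?_⟩
    rw [preimage_compl, ← add_assoc]
    exact (h γ hγ g hg).compl
  | iUnion s hs ih =>
    choose ρ hρ h using ih
    refine ⟨⨆ n, ρ n, iSup_lt_w1 hρ, fun γ hγ g hg => ?_⟩
    rw [preimage_iUnion]
    exact Sg.iUnion_nat (fun n => (h n γ hγ g hg).mono
      (by gcongr; exact le_iSup_w1 ρ n))

/-- The key lemma: the points at which a family of sets of additive class `α` is large in the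
sense of a member of the system form a set of class bounded in terms of `α`. -/
theorem Sys.sg {K : Type u} {𝒢 : ℕ → Set (Set K)} (h : Sys 𝒢) (X : Type v) [MetricSpace X]
    (α : Ordinal.{0}) (hα : 1 ≤ α) (hα' : α < ω₁) :
    ∃ δ : Ordinal.{0}, 1 ≤ δ ∧ δ < ω₁ ∧ ∀ C : K → Set X, (∀ k, Sg α (C k)) → ∀ i,
      Sg δ {x : X | {k | x ∈ C k} ∈ 𝒢 i} := by
  induction α using WellFoundedLT.induction with
  | _ α ih =>
    rcases hα.eq_or_lt with rfl | hlt
    · exact ⟨1, le_rfl, one_lt_w1, fun C hC i =>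
        .isOpen (h.open C (fun k => sg_one.1 (hC k)) i)⟩
    have hcount : Countable (Iio α) := countable_Iio_w1 hα'
    have hne : Nonempty (Iio α) := ⟨⟨1, hlt⟩⟩
    obtain ⟨e, he⟩ := exists_surjective_nat (Iio α)
    -- the bounds given by the induction hypothesis
    have h1 : ∀ n : ℕ, ∃ δ : Ordinal.{0}, 1 ≤ δ ∧ δ < ω₁ ∧ (1 ≤ (e n : Ordinal.{0}) →
        ∀ C : K → Set X, (∀ k, Sg (e n : Ordinal.{0}) (C k)) → ∀ i,
          Sg δ {x : X | {k | x ∈ C k} ∈ 𝒢 i}) := by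
      intro n
      by_cases h2 : 1 ≤ (e n : Ordinal.{0})
      · obtain ⟨δ, h3, h4, h5⟩ := ih (e n) (e n).2 h2 ((e n).2.trans hα')
        exact ⟨δ, h3, h4, fun _ => h5⟩
      · exact ⟨1, le_rfl, one_lt_w1, fun h3 => absurd h3 h2⟩
    choose δ hδ1 hδ2 hδ3 using h1
    have h1 := fun i => rank X (h.dual i)
    choose ρ hρ1 hρ2 using h1
    refine ⟨(⨆ n, δ n) + ⨆ n, ρ n, ?_, add_lt_w1 (iSup_lt_w1 hδ2) (iSup_lt_w1 hρ1), ?_⟩
    · exact ((hδ1 0).trans (le_iSup_w1 δ 0)).trans le_self_add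
    intro C hC i
    have h' : ∀ k, ∃ (f : ℕ → Set X) (β : ℕ → Ordinal.{0}), C k = (⋃ n, f n) ∧
        ∀ n, 1 ≤ β n ∧ β n < α ∧ Sg (β n) (f n)ᶜ := by
      intro k
      obtain ⟨f, hf1, hf2⟩ := (sg_iff hlt).1 (hC k)
      choose β hβ1 hβ2 hβ3 using hf2
      exact ⟨f, β, hf1, fun n => ⟨hβ1 n, hβ2 n, hβ3 n⟩⟩
    choose f β hf hβ using h'
    obtain ⟨γ, hγ⟩ : ∃ γ : ℕ → Ordinal.{0}, γ = fun l => max 1 (e (Nat.unpair l).2 : Ordinal.{0}) :=
      ⟨_, rfl⟩
    have hγ2 : ∀ l, γ l < α := fun l => by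
      rw [hγ]; exact max_lt hlt (e (Nat.unpair l).2).2
    classical
    obtain ⟨D, hD⟩ : ∃ D : K → ℕ → Set X, D = fun k l =>
        if β k (Nat.unpair l).1 = (e (Nat.unpair l).2 : Ordinal.{0}) then
          f k (Nat.unpair l).1 else ∅ := ⟨_, rfl⟩
    have hD1 : ∀ k l, Sg (γ l) (D k l)ᶜ := by
      intro k l
      rw [hD, hγ]
      dsimp only
      split_ifs with hif
      · refine ((hβ k (Nat.unpair l).1).2.2).mono ?_
        rw [hif]
        exact le_max_right _ _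
      · rw [compl_empty]
        exact sg_univ (le_max_left _ _)
    have hD2 : ∀ k, (⋃ l, D k l) = C k := by
      intro k
      rw [hf k]
      ext x
      simp only [mem_iUnion]
      constructor
      · rintro ⟨l, hl⟩
        rw [hD] at hl
        dsimp only at hl
        split_ifs at hl with hif
        · exact ⟨_, hl⟩
        · exact absurd hl (notMem_empty x)
      · rintro ⟨n, hn⟩
        obtain ⟨m, hm⟩ := he ⟨β k n, (hβ k n).2.1⟩
        refine ⟨Nat.pair n m, ?_⟩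
        rw [hD]
        dsimp only
        rw [Nat.unpair_pair]
        dsimp only
        rw [if_pos (by rw [hm])]
        exact hn
    have heq : {x : X | {k | x ∈ C k} ∈ 𝒢 i} =
        ⋃ n : ℕ, (fun x : X => {k | x ∈ (⋃ l ∈ Iio n, D k l)ᶜ}) ⁻¹' {A : Set K | Aᶜ ∈ 𝒢 i} := by
      ext x
      have hx1 : {k | x ∈ C k} = ⋃ n : ℕ, {k | x ∈ ⋃ l ∈ Iio n, D k l} := by
        ext k
        rw [mem_ofPred_eq, ← hD2 k]
        simp only [mem_iUnion, mem_ofPred_eq, exists_prop, mem_Iio]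
        constructor
        · rintro ⟨l, hl⟩
          exact ⟨l + 1, l, by omega, hl⟩
        · rintro ⟨n, l, -, hl⟩
          exact ⟨l, hl⟩
      have hx2 : Monotone (fun n : ℕ => {k | x ∈ ⋃ l ∈ Iio n, D k l}) := by
        intro n m hnm k hk
        simp only [mem_iUnion, mem_ofPred_eq, exists_prop, mem_Iio] at hk ⊢
        obtain ⟨l, hl, hx⟩ := hk
        exact ⟨l, by omega, hx⟩
      have hx3 : ∀ n : ℕ, ({k | x ∈ (⋃ l ∈ Iio n, D k l)ᶜ}ᶜ : Set K) =
          {k | x ∈ ⋃ l ∈ Iio n, D k l} := by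
        intro n
        ext k
        simp
      rw [mem_ofPred_eq, mem_iUnion]
      constructor
      · intro hx
        rw [hx1] at hx
        obtain ⟨n, hn⟩ := h.cont i _ hx2 hx
        refine ⟨n, ?_⟩
        rw [mem_preimage, mem_ofPred_eq, hx3 n]
        exact hn
      · rintro ⟨n, hn⟩
        rw [mem_preimage, mem_ofPred_eq, hx3 n] at hn
        refine h.mono i _ hn _ ?_
        rw [hx1]
        exact subset_iUnion (fun n : ℕ => {k | x ∈ ⋃ l ∈ Iio n, D k l}) n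
    rw [heq]
    refine Sg.iUnion_nat (fun n => ?_)
    obtain ⟨ε, h1, h2, h3⟩ := sg_iInter_lt (X := X) hlt hγ2 n
    obtain ⟨m, hm⟩ := he ⟨ε, h2⟩
    have hm' : (e m : Ordinal.{0}) = ε := by rw [hm]
    have h4 : ∀ j, Sg (δ m) ((fun x : X => {k | x ∈ (⋃ l ∈ Iio n, D k l)ᶜ}) ⁻¹' 𝒢 j) := by
      intro j
      refine hδ3 m (by rw [hm']; exact h1) (fun k => (⋃ l ∈ Iio n, D k l)ᶜ) (fun k => ?_) j
      rw [hm']
      exact h3 _ (hD1 k)
    exact (hρ2 i (δ m) (hδ1 m) _ h4).mono (add_le_add (le_iSup_w1 δ m) (le_iSup_w1 ρ i))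

end Pool.Agent.Helper52.Tame
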