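import Mathlib
import Pool.Agent.Helper52.TameSg
import Pool.Agent.Helper66.PFDense

/-!
The additivity of the null ideal of a family of unbounded class is not tame.
-/

set_option autoImplicit false

open Set Cardinal Ordinal
open Pool.Agent.Helper66.PF

universe u v

namespace Pool.Agent.Helper52.Tame

/-- A cardinal `κ` is tame if some set `K` of cardinality `κ` carries a countable system of
families of subsets, in the sense of `Sys`, such that every set with a complement of cardinality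
less than `κ` belongs to a family of the system that does not contain the empty set. -/
def TameCard (κ : Cardinal.{u}) : Prop :=
  ∃ (K : Type u) (𝒢 : ℕ → Set (Set K)), #K = κ ∧ Sys 𝒢 ∧
    ∀ A : Set K, #(Aᶜ : Set K) < κ → ∃ i, A ∈ 𝒢 i ∧ ∅ ∉ 𝒢 i

/-- A map from `κ` to `ω₁` takes some value cofinally often, for regular `κ > ℵ₁`. -/
theorem exists_value {κ : Cardinal.{u}} (hκ : κ.IsRegular) (h1 : ℵ₁ < κ)
    (α : κ.ord.ToType → Ordinal.{0}) (hα : ∀ b, α b < ω₁) :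
    ∃ a : Ordinal.{0}, a < ω₁ ∧ ∀ b, ∃ c, b ≤ c ∧ α c = a := by
  by_contra hcon
  push Not at hcon
  have h2 : ∀ j : (ω₁ : Ordinal.{0}).ToType, ∃ b, ∀ c, b ≤ c → α c ≠ ToType.toOrd j :=
    fun j => hcon _ (ToType.toOrd j).2
  choose b hb using h2
  have hcard : #(range b) < κ := by
    have h6 : Cardinal.lift.{0} #(range b) ≤ Cardinal.lift.{u} #(ω₁ : Ordinal.{0}).ToType :=
      Cardinal.mk_range_le_lift
    rw [mk_toType, card_omega] at h6
    refine lt_of_le_of_lt ?_ h1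
    simpa using h6
  obtain ⟨c, hc⟩ := exists_bound hκ hcard
  have h3 := hb (ToType.mk ⟨α c, hα c⟩) c (hc _ ⟨_, rfl⟩).le
  simp at h3

theorem not_tame {X : Type u} [MetricSpace X] {ι : Type u} {G : ι → Set X} {κ : Cardinal.{u}}
    (hκ : QuasiMeasurable κ) (hadd : ∀ N ⊆ Nul G, #N < κ → ⋃₀ N ∈ Nul G)
    {N : Set (Set ι)} (hN : N ⊆ Nul G) (hNκ : #N = κ) (hNI : ⋃₀ N ∉ Nul G) : ¬ TameCard κ := by
  rintro ⟨K, 𝒢, hK, hS, hbig⟩
  obtain ⟨e⟩ := Cardinal.eq.1 (show #κ.ord.ToType = #N by rw [mk_ord_toType, hNκ])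
  obtain ⟨r⟩ := Cardinal.eq.1 (show #K = #κ.ord.ToType by rw [mk_ord_toType, hK])
  obtain ⟨S, hSdef⟩ : ∃ S : κ.ord.ToType → Set ι, S = fun b => ⋃ c ∈ Iio b, (e c : Set ι) :=
    ⟨_, rfl⟩
  have hSN : ∀ b, S b ∈ Nul G := by
    intro b
    rw [hSdef]
    exact small_union hadd b (fun c _ => hN (e c).2)
  have hSmono : ∀ b c, b ≤ c → S b ⊆ S c := by
    intro b c hbc
    rw [hSdef]
    exact biUnion_subset_biUnion_left (fun d hd => lt_of_lt_of_le hd hbc)
  choose α hα hα' using hSN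
  obtain ⟨a, ha, hval⟩ := exists_value hκ.isRegular hκ.aleph_one_lt α hα
  have hSa : ∀ b, ∀ T ⊆ S b, Sg a (⋃ i ∈ T, G i) := by
    intro b T hT
    obtain ⟨c, hbc, hc⟩ := hval b
    rw [← hc]
    exact hα' c T (hT.trans (hSmono b c hbc))
  have ha1 : 1 ≤ a := by
    have hne : Nonempty κ.ord.ToType := by
      rw [← Cardinal.mk_ne_zero_iff, mk_ord_toType]
      exact (Cardinal.aleph0_pos.trans hκ.lt).ne'
    obtain ⟨b⟩ := hne
    exact (hSa b ∅ (empty_subset _)).one_le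
  obtain ⟨δ, hδ1, hδ2, hδ3⟩ := hS.sg X a ha1 ha
  apply hNI
  refine ⟨δ, hδ2, fun T hT => ?_⟩
  have key := hδ3 (fun k : K => ⋃ i ∈ T ∩ S (r k), G i)
    (fun k => hSa (r k) _ inter_subset_right)
  have heq : (⋃ i ∈ T, G i) =
      ⋃ j : {j : ℕ // ∅ ∉ 𝒢 j}, {x : X | {k : K | x ∈ ⋃ i ∈ T ∩ S (r k), G i} ∈ 𝒢 j} := by
    ext x
    constructor
    · intro hx
      obtain ⟨i, hi, hxi⟩ := mem_iUnion₂.1 hx
      obtain ⟨A, hA, hiA⟩ := hT hi
      obtain ⟨c, hc⟩ := e.surjective ⟨A, hA⟩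
      have hsmall : #({k : K | x ∈ ⋃ i ∈ T ∩ S (r k), G i}ᶜ : Set K) < κ := ?_
      · obtain ⟨j, hj1, hj2⟩ := hbig _ hsmall
        exact mem_iUnion.2 ⟨⟨j, hj2⟩, hj1⟩
      have hsub : ({k : K | x ∈ ⋃ i ∈ T ∩ S (r k), G i}ᶜ : Set K) ⊆ r ⁻¹' (Iic c) := by
        intro k hk
        by_contra hcon
        apply hk
        rw [mem_preimage, mem_Iic, not_le] at hcon
        refine mem_iUnion₂.2 ⟨i, ⟨hi, ?_⟩, hxi⟩
        rw [hSdef]
        refine mem_iUnion₂.2 ⟨c, hcon, ?_⟩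
        rw [hc]
        exact hiA
      refine (mk_le_mk_of_subset hsub).trans_lt ?_
      have h7 : #(r ⁻¹' (Iic c)) = #(Iic c) := by
        refine mk_preimage_of_injective_of_subset_range _ _ r.injective ?_
        rw [r.surjective.range_eq]
        exact subset_univ _
      rw [h7]
      exact mk_Iic_lt' hκ.lt.le c
    · intro hx
      by_contra hcon
      obtain ⟨j, hx⟩ := mem_iUnion.1 hx
      apply j.2
      have h8 : {k : K | x ∈ ⋃ i ∈ T ∩ S (r k), G i} = ∅ := by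
        rw [eq_empty_iff_forall_notMem]
        intro k hk
        obtain ⟨i, hi, hxi⟩ := mem_iUnion₂.1 hk
        exact hcon (mem_iUnion₂.2 ⟨i, hi.1, hxi⟩)
      rw [mem_ofPred_eq, h8] at hx
      exact hx
  rw [heq]
  exact Sg.iUnion hδ1 (fun j => key j)

end Pool.Agent.Helper52.Tame
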