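import Mathlib
import Pool.Agent.Helper52.TameMain
import Pool.Agent.Helper52.TameBase

/-!
The additivity of the null ideal of a family of unbounded class is not the length of a chain of
proper subalgebras with union a full power set.
-/

set_option autoImplicit false

open Set Cardinal Ordinal
open Pool.Agent.Helper66.PF

universe u v

namespace Pool.Agent.Helper52.Tame

/-- An increasing chain of type `κ` of families of subsets of `K`, each closed under complements
and under unions of at most `ℵ₁` members and different from the power set, with union the power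
set. -/
structure IsChainOf (κ : Cardinal.{u}) {K : Type v} (𝔄 : κ.ord.ToType → Set (Set K)) : Prop where
  compl : ∀ a, ∀ A ∈ 𝔄 a, Aᶜ ∈ 𝔄 a
  union : ∀ a, ∀ F ⊆ 𝔄 a, #F ≤ ℵ₁ → ⋃₀ F ∈ 𝔄 a
  mono : ∀ a b, a ≤ b → 𝔄 a ⊆ 𝔄 b
  cover : ∀ A : Set K, ∃ a, A ∈ 𝔄 a
  proper : ∀ a, ∃ A : Set K, A ∉ 𝔄 a

/-- A cardinal `κ` is decomposing if, for some set `K` of any size, the power set of `K` is the
union of an increasing chain of type `κ` of proper subfamilies closed under complements and under
unions of at most `ℵ₁` members. -/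
def Decomposing (κ : Cardinal.{u}) : Prop :=
  ∃ (K : Type u) (𝔄 : κ.ord.ToType → Set (Set K)), IsChainOf κ 𝔄

theorem IsChainOf.countable {κ : Cardinal.{u}} {K : Type v} {𝔄 : κ.ord.ToType → Set (Set K)}
    (h : IsChainOf κ 𝔄) (a : κ.ord.ToType) {J : Type} [Countable J] {A : J → Set K}
    (hA : ∀ j, A j ∈ 𝔄 a) : (⋃ j, A j) ∈ 𝔄 a := by
  rw [← sUnion_range]
  refine h.union a _ ?_ ?_
  · rintro _ ⟨j, rfl⟩
    exact hA j
  · exact (le_aleph0_iff_set_countable.2 (countable_range A)).trans (aleph0_le_aleph 1)

/-- A countable family of elements of a regular uncountable cardinal is bounded. -/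
theorem exists_bound_nat {κ : Cardinal.{u}} (hκ : κ.IsRegular) (h0 : ℵ₀ < κ) {J : Type}
    [Countable J] (R : J → κ.ord.ToType) : ∃ b, ∀ j, R j ≤ b := by
  obtain ⟨b, hb⟩ := exists_bound hκ (s := range R)
    ((le_aleph0_iff_set_countable.2 (countable_range R)).trans_lt h0)
  exact ⟨b, fun j => (hb _ ⟨j, rfl⟩).le⟩

/-- The key lemma: the evaluation of a family of sets of class `α` at a point `y` belongs to the
member of the chain given by the values of a function on the members of the base that
contain `y`. -/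
theorem IsChainOf.key {κ : Cardinal.{u}} (hκ : κ.IsRegular) (h0 : ℵ₀ < κ) {K : Type v}
    {𝔄 : κ.ord.ToType → Set (Set K)} (h : IsChainOf κ 𝔄) {X : Type u} [MetricSpace X]
    {O : ℕ → X → Set X} (hOd : ∀ n, Pairwise (fun x y => Disjoint (O n x) (O n y)))
    (hOb : ∀ (y : X) (U : Set X), IsOpen U → y ∈ U → ∃ n x, y ∈ O n x ∧ O n x ⊆ U)
    (α : Ordinal.{0}) (hα : 1 ≤ α) (hα' : α < ω₁) (C : K → Set X) (hC : ∀ z, Sg α (C z)) :
    ∃ R : ℕ → X → κ.ord.ToType, ∀ y b, (∀ n x, y ∈ O n x → R n x ≤ b) →
      {z | y ∈ C z} ∈ 𝔄 b := by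
  induction α using WellFoundedLT.induction generalizing C with
  | _ α ih =>
    rcases hα.eq_or_lt with rfl | hlt
    · have h1 : ∀ n x, ∃ a, {z | O n x ⊆ C z} ∈ 𝔄 a := fun n x => h.cover _
      choose R hR using h1
      refine ⟨R, fun y b hb => ?_⟩
      classical
      have h2 : {z | y ∈ C z} = ⋃ n : ℕ, (⋃ x, ⋃ _ : y ∈ O n x, {z | O n x ⊆ C z}) := by
        ext z
        simp only [mem_ofPred_eq, mem_iUnion, exists_prop]
        constructor
        · intro hy
          obtain ⟨n, x, h3, h4⟩ := hOb y (C z) (sg_one.1 (hC z)) hy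
          exact ⟨n, x, h3, h4⟩
        · rintro ⟨n, x, h3, h4⟩
          exact h4 h3
      rw [h2]
      refine h.countable b (fun n => ?_)
      by_cases hn : ∃ x, y ∈ O n x
      · obtain ⟨x, hx⟩ := hn
        have h3 : (⋃ x, ⋃ _ : y ∈ O n x, {z | O n x ⊆ C z}) = {z | O n x ⊆ C z} := by
          ext z
          simp only [mem_iUnion, mem_ofPred_eq, exists_prop]
          constructor
          · rintro ⟨x', hx', h4⟩
            have h5 : x' = x := by
              by_contra hne
              exact disjoint_left.1 (hOd n hne) hx' hx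
            rw [h5] at h4
            exact h4
          · intro h4
            exact ⟨x, hx, h4⟩
        rw [h3]
        exact h.mono _ _ (hb n x hx) (hR n x)
      · have h3 : (⋃ x, ⋃ _ : y ∈ O n x, {z | O n x ⊆ C z}) = ⋃ j : Empty, j.elim := by
          ext z
          simp only [mem_iUnion, mem_ofPred_eq, exists_prop]
          constructor
          · rintro ⟨x', hx', -⟩
            exact absurd ⟨x', hx'⟩ hn
          · rintro ⟨j, -⟩
            exact j.elim
        rw [h3]
        exact h.countable b (fun j => j.elim)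
    · have h' : ∀ k, ∃ (f : ℕ → Set X) (β : ℕ → Ordinal.{0}), C k = (⋃ n, f n) ∧
          ∀ n, 1 ≤ β n ∧ β n < α ∧ Sg (β n) (f n)ᶜ := by
        intro k
        obtain ⟨f, hf1, hf2⟩ := (sg_iff hlt).1 (hC k)
        choose β hβ1 hβ2 hβ3 using hf2
        exact ⟨f, β, hf1, fun n => ⟨hβ1 n, hβ2 n, hβ3 n⟩⟩
      choose f β hf hβ using h'
      have hcount : Countable (Iio α) := countable_Iio_w1 hα'
      have hne : Nonempty (Iio α) := ⟨⟨1, hlt⟩⟩
      obtain ⟨e, he⟩ := exists_surjective_nat (Iio α)
      obtain ⟨γ, hγ⟩ : ∃ γ : ℕ → Ordinal.{0},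
          γ = fun l => max 1 (e (Nat.unpair l).2 : Ordinal.{0}) := ⟨_, rfl⟩
      have hγ2 : ∀ l, γ l < α := fun l => by
        rw [hγ]; exact max_lt hlt (e (Nat.unpair l).2).2
      have hγ1 : ∀ l, 1 ≤ γ l := fun l => by rw [hγ]; exact le_max_left _ _
      classical
      obtain ⟨D, hD⟩ : ∃ D : K → ℕ → Set X, D = fun k l =>
          if β k (Nat.unpair l).1 = (e (Nat.unpair l).2 : Ordinal.{0}) then
            f k (Nat.unpair l).1 else ∅ := ⟨_, rfl⟩
      have hD1 : ∀ k l, Sg (γ l) (D k l)ᶜ := by
        intro k l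
        rw [hD, hγ]
        dsimp only
        split_ifs with hif
        · refine ((hβ k (Nat.unpair l).1).2.2).mono ?_
          rw [hif]
          exact le_max_right _ _
        · rw [compl_empty]
          exact sg_univ (le_max_left _ _)
      have hD2 : ∀ k, (⋃ l, D k l) = C k := by
        intro k
        rw [hf k]
        ext x
        simp only [mem_iUnion]
        constructor
        · rintro ⟨l, hl⟩
          rw [hD] at hl
          dsimp only at hl
          split_ifs at hl with hif
          · exact ⟨_, hl⟩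
          · exact absurd hl (notMem_empty x)
        · rintro ⟨n, hn⟩
          obtain ⟨m, hm⟩ := he ⟨β k n, (hβ k n).2.1⟩
          refine ⟨Nat.pair n m, ?_⟩
          rw [hD]
          dsimp only
          rw [Nat.unpair_pair]
          dsimp only
          rw [if_pos (by rw [hm])]
          exact hn
      have h1 := fun l => ih (γ l) (hγ2 l) (hγ1 l) ((hγ2 l).trans hα') (fun k => (D k l)ᶜ)
        (fun k => hD1 k l)
      choose R hR using h1
      have h2 := fun n x => exists_bound_nat hκ h0 (fun l => R l n x)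
      choose R' hR' using h2
      refine ⟨R', fun y b hb => ?_⟩
      have h3 : {z | y ∈ C z} = ⋃ l, {z | y ∈ (D z l)ᶜ}ᶜ := by
        ext z
        rw [mem_ofPred_eq, ← hD2 z]
        simp
      rw [h3]
      refine h.countable b (fun l => h.compl b _ ?_)
      exact hR l y b (fun n x hx => (hR' n x l).trans (hb n x hx))

end Pool.Agent.Helper52.Tame
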