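import Mathlib
import Pool.Agent.Helper52.TameChain

/-!
The additivity of the null ideal of a family of unbounded class is not decomposing.
-/

set_option autoImplicit false

open Set Cardinal Ordinal
open Pool.Agent.Helper66.PF

universe u v

namespace Pool.Agent.Helper52.Tame

theorem mk_range_w1_le {α : Type u} (f : (ω₁ : Ordinal.{0}).ToType → α) : #(range f) ≤ ℵ₁ := by
  have h6 : Cardinal.lift.{0} #(range f) ≤ Cardinal.lift.{u} #(ω₁ : Ordinal.{0}).ToType :=
    Cardinal.mk_range_le_lift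
  rw [mk_toType, card_omega] at h6
  simpa using h6

/-- The initial unions of a family of null sets of the size of the additivity are null with one
bound. -/
theorem exists_uniform {X : Type u} [MetricSpace X] {ι : Type u} {G : ι → Set X}
    {κ : Cardinal.{u}} (hκ : QuasiMeasurable κ)
    (hadd : ∀ N ⊆ Nul G, #N < κ → ⋃₀ N ∈ Nul G)
    {e : κ.ord.ToType → Set ι} (he : ∀ c, e c ∈ Nul G) :
    ∃ a : Ordinal.{0}, 1 ≤ a ∧ a < ω₁ ∧ ∀ b, ∀ T ⊆ (⋃ c ∈ Iio b, e c), Sg a (⋃ i ∈ T, G i) := by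
  obtain ⟨S, hSdef⟩ : ∃ S : κ.ord.ToType → Set ι, S = fun b => ⋃ c ∈ Iio b, e c := ⟨_, rfl⟩
  have hSN : ∀ b, S b ∈ Nul G := by
    intro b
    rw [hSdef]
    exact small_union hadd b (fun c _ => he c)
  have hSmono : ∀ b c, b ≤ c → S b ⊆ S c := by
    intro b c hbc
    rw [hSdef]
    exact biUnion_subset_biUnion_left (fun d hd => lt_of_lt_of_le hd hbc)
  choose α hα hα' using hSN
  obtain ⟨a, ha, hval⟩ := exists_value hκ.isRegular hκ.aleph_one_lt α hα
  have hSa : ∀ b, ∀ T ⊆ S b, Sg a (⋃ i ∈ T, G i) := by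
    intro b T hT
    obtain ⟨c, hbc, hc⟩ := hval b
    rw [← hc]
    exact hα' c T (hT.trans (hSmono b c hbc))
  refine ⟨a, ?_, ha, fun b T hT => hSa b T (by rw [hSdef]; exact hT)⟩
  have hne : Nonempty κ.ord.ToType := by
    rw [← Cardinal.mk_ne_zero_iff, mk_ord_toType]
    exact (Cardinal.aleph0_pos.trans hκ.lt).ne'
  obtain ⟨b⟩ := hne
  exact (hSa b ∅ (empty_subset _)).one_le

theorem not_decomposing {X : Type u} [MetricSpace X] {ι : Type u} {G : ι → Set X}
    (hG : PFB G) {κ : Cardinal.{u}} (hκ : QuasiMeasurable κ) (hκc : κ ≤ 𝔠)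
    (hadd : ∀ N ⊆ Nul G, #N < κ → ⋃₀ N ∈ Nul G)
    {N : Set (Set ι)} (hN : N ⊆ Nul G) (hNκ : #N = κ) (hNI : ⋃₀ N ∉ Nul G) :
    ¬ Decomposing κ := by
  rintro ⟨K, 𝔄, hch⟩
  obtain ⟨O, hO1, hO2, hO3⟩ := exists_sigma_disjoint_base X
  obtain ⟨e⟩ := Cardinal.eq.1 (show #κ.ord.ToType = #N by rw [mk_ord_toType, hNκ])
  obtain ⟨a₁, ha₁, ha₁', hSa⟩ := exists_uniform hκ hadd (e := fun c => (e c : Set ι))
    (fun c => hN (e c).2)
  -- the first index
  obtain ⟨M, hM⟩ : ∃ M : κ.ord.ToType → Set ι, M = fun c =>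
      {i | i ∈ (e c : Set ι) ∧ ∀ d < c, i ∉ (e d : Set ι)} := ⟨_, rfl⟩
  have hMuniq : ∀ i c d, i ∈ M c → i ∈ M d → c = d := by
    intro i c d hc hd
    rw [hM] at hc hd
    rcases lt_trichotomy c d with h | h | h
    · exact absurd hc.1 (hd.2 c h)
    · exact h
    · exact absurd hd.1 (hc.2 d h)
  have hMex : ∀ i, ∃ c, i ∈ ⋃₀ N → i ∈ M c := by
    intro i
    by_cases hi : i ∈ ⋃₀ N
    · obtain ⟨A, hA, hiA⟩ := hi
      have hne : {c | i ∈ (e c : Set ι)}.Nonempty := by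
        obtain ⟨c, hc⟩ := e.surjective ⟨A, hA⟩
        exact ⟨c, by rw [mem_ofPred_eq, hc]; exact hiA⟩
      obtain ⟨c, hc, hmin⟩ := WellFounded.has_min (wellFounded_lt (α := κ.ord.ToType)) _ hne
      refine ⟨c, fun _ => ?_⟩
      rw [hM]
      exact ⟨hc, fun d hd hid => hmin d hid hd⟩
    · have hne : Nonempty κ.ord.ToType := by
        rw [← Cardinal.mk_ne_zero_iff, mk_ord_toType]
        exact (Cardinal.aleph0_pos.trans hκ.lt).ne'
      obtain ⟨c⟩ := hne
      exact ⟨c, fun h => absurd h hi⟩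
  choose ν hν using hMex
  have hMsub : ∀ c i, i ∈ M c → i ∈ ⋃₀ N := by
    intro c i hi
    rw [hM] at hi
    exact ⟨e c, (e c).2, hi.1⟩
  obtain ⟨supp, hsupp⟩ : ∃ supp : X → Set κ.ord.ToType, supp = fun y =>
      {c | ∃ i ∈ M c, y ∈ G i} := ⟨_, rfl⟩
  have hsfin : ∀ y, (supp y).Finite := by
    intro y
    refine ((hG.fin y).image ν).subset ?_
    intro c hc
    rw [hsupp] at hc
    obtain ⟨i, hi, hy⟩ := hc
    exact ⟨i, hy, hMuniq i _ _ (hν i (hMsub c i hi)) hi⟩
  obtain ⟨U, hU⟩ : ∃ U : Set κ.ord.ToType → Set X, U = fun E =>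
      ⋃ i ∈ {i | ∃ c ∈ E, i ∈ M c}, G i := ⟨_, rfl⟩
  have hmemU : ∀ y E, y ∈ U E ↔ ∃ c ∈ E, c ∈ supp y := by
    intro y E
    rw [hU, hsupp]
    simp only [mem_iUnion, mem_ofPred_eq, exists_prop]
    constructor
    · rintro ⟨i, ⟨c, hc, hi⟩, hy⟩
      exact ⟨c, hc, i, hi, hy⟩
    · rintro ⟨c, hc, i, hi, hy⟩
      exact ⟨i, ⟨c, hc, hi⟩, hy⟩
  -- codes of the indices by reals
  have hcode : ∃ h : κ.ord.ToType → (ℕ → Bool), Function.Injective h := by
    have h1 : Cardinal.lift.{0} #κ.ord.ToType ≤ Cardinal.lift.{u} #(ℕ → Bool) := by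
      rw [mk_ord_toType]
      simpa using hκc
    obtain ⟨g⟩ := Cardinal.lift_mk_le'.1 h1
    exact ⟨g, g.injective⟩
  obtain ⟨h, hinj⟩ := hcode
  obtain ⟨D, hD⟩ : ∃ D : (Σ n : ℕ, (Fin n → Bool)) → Set κ.ord.ToType, D = fun p =>
      {c | ini (h c) p.1 = p} := ⟨_, rfl⟩
  have hisol : ∀ y, ∀ a ∈ supp y, ∃ p, a ∈ D p ∧ ∀ c ∈ D p, c ∈ supp y → c = a := by
    intro y a ha
    have h1 : ∀ c ∈ supp y \ {a}, ∃ n, h c n ≠ h a n := by
      rintro c ⟨-, hc⟩
      by_contra hcon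
      push Not at hcon
      exact hc (hinj (funext hcon))
    choose! n hn using h1
    obtain ⟨m, hm⟩ := ((hsfin y).subset (diff_subset (t := {a}))).image n |>.bddAbove
    refine ⟨ini (h a) (m + 1), ?_, ?_⟩
    · rw [hD]
      rfl
    · intro c hc hcs
      by_contra hne
      rw [hD] at hc
      have h2 : ini (h c) (m + 1) = ini (h a) (m + 1) := hc
      rw [ini_eq] at h2
      have h3 : n c ≤ m := hm ⟨c, ⟨hcs, hne⟩, rfl⟩
      exact hn c ⟨hcs, hne⟩ (h2.2 _ (by omega))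
  -- the sets outside the chain and their classes
  have hT := hch.proper
  choose T hT using hT
  have hcls : ∀ z : K, ∃ c : Ordinal.{0}, c < ω₁ ∧ ∀ p, Sg c (U ({a | z ∈ T a} ∩ D p)) := by
    intro z
    have h1 : ∀ p, ∃ c : Ordinal.{0}, c < ω₁ ∧ Sg c (U ({a | z ∈ T a} ∩ D p)) := by
      intro p
      rw [hU]
      exact exists_sg (hG.meas _)
    choose c hc1 hc2 using h1
    exact ⟨⨆ p, c p, iSup_lt_w1 hc1, fun p => (hc2 p).mono (le_iSup_w1 c p)⟩
  choose c hc1 hc2 using hcls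
  obtain ⟨P, hP⟩ : ∃ P : (ω₁ : Ordinal.{0}).ToType → Set K, P = fun j =>
      {z | c z = ToType.toOrd j} := ⟨_, rfl⟩
  obtain ⟨L, hL⟩ : ∃ L : (ω₁ : Ordinal.{0}).ToType → Set ι, L = fun j =>
      {i | ∃ a, T a ∩ P j ∉ 𝔄 a ∧ i ∈ M a} := ⟨_, rfl⟩
  have hLN : ∀ j, L j ∈ Nul G := by
    intro j
    by_cases hPj : (P j).Nonempty
    · obtain ⟨z₀, hz₀⟩ := hPj
      obtain ⟨α, hαdef⟩ : ∃ α : Ordinal.{0}, α = ToType.toOrd j := ⟨_, rfl⟩
      have hα1 : 1 ≤ α := by
        have h1 : c z₀ = ToType.toOrd j := by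
          rw [hP] at hz₀
          exact hz₀
        rw [hαdef, ← h1]
        exact (hc2 z₀ ⟨0, fun i => i.elim0⟩).one_le
      have hα2 : α < ω₁ := by
        rw [hαdef]
        exact (ToType.toOrd j).2
      classical
      obtain ⟨C, hC⟩ : ∃ C : (Σ n : ℕ, (Fin n → Bool)) → K → Set X, C = fun p z =>
          if z ∈ P j then U ({a | z ∈ T a} ∩ D p) else ∅ := ⟨_, rfl⟩
      have hCsg : ∀ p z, Sg α (C p z) := by
        intro p z
        rw [hC]
        dsimp only
        split_ifs with hz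
        · have h1 := hc2 z p
          rw [hP] at hz
          rw [hαdef, ← (show c z = ToType.toOrd j from hz)]
          exact h1
        · exact sg_empty hα1
      have h1 := fun p => hch.key hκ.isRegular hκ.lt hO2 hO3 α hα1 hα2 (C p) (hCsg p)
      choose R hR using h1
      have h2 := fun n x => exists_bound_nat hκ.isRegular hκ.lt (fun p => R p n x)
      choose R' hR' using h2
      -- the indices are bounded by the values of `R'`
      have h3 : ∀ y a, T a ∩ P j ∉ 𝔄 a → a ∈ supp y → ∃ n x, y ∈ O n x ∧ a < R' n x := by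
        intro y a haT hay
        by_contra hcon
        push Not at hcon
        obtain ⟨p, hp1, hp2⟩ := hisol y a hay
        apply haT
        have h4 := hR p y a (fun n x hx => (hR' n x p).trans (hcon n x hx))
        have h5 : {z | y ∈ C p z} = T a ∩ P j := by
          ext z
          rw [mem_ofPred_eq, hC]
          dsimp only
          split_ifs with hz
          · rw [hmemU]
            constructor
            · rintro ⟨d, ⟨hd1, hd2⟩, hd3⟩
              have h6 := hp2 d hd2 hd3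
              subst h6
              exact ⟨hd1, hz⟩
            · rintro ⟨hza, -⟩
              exact ⟨a, ⟨hza, hp1⟩, hay⟩
          · constructor
            · intro h6
              exact absurd h6 (notMem_empty y)
            · rintro ⟨-, h6⟩
              exact absurd h6 hz
        rw [h5] at h4
        exact h4
      refine ⟨a₁, ha₁', fun T' hT' => ?_⟩
      have h4 : (⋃ i ∈ T', G i) = ⋃ n : ℕ, ⋃ x ∈ (Set.univ : Set X),
          O n x ∩ ⋃ i ∈ T' ∩ ⋃ c ∈ Iio (R' n x), (e c : Set ι), G i := by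
        ext y
        simp only [mem_iUnion, mem_inter_iff, exists_prop, mem_univ, true_and]
        constructor
        · rintro ⟨i, hi, hy⟩
          have h5 := hT' hi
          rw [hL] at h5
          obtain ⟨a, ha1, ha2⟩ := h5
          have h6 : a ∈ supp y := by
            rw [hsupp]
            exact ⟨i, ha2, hy⟩
          obtain ⟨n, x, hx1, hx2⟩ := h3 y a ha1 h6
          refine ⟨n, x, hx1, i, ⟨hi, a, hx2, ?_⟩, hy⟩
          rw [hM] at ha2
          exact ha2.1
        · rintro ⟨n, x, -, i, ⟨hi, -⟩, hy⟩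
          exact ⟨i, hi, hy⟩
      rw [h4]
      refine Sg.iUnion_nat (fun n => ?_)
      exact Sg.iUnion_disjoint (hO1 n) (hO2 n) ha₁ ha₁'
        (fun x _ => hSa (R' n x) _ inter_subset_right)
    · rw [not_nonempty_iff_eq_empty] at hPj
      have h1 : L j = ∅ := by
        rw [hL, eq_empty_iff_forall_notMem]
        rintro i ⟨a, ha, -⟩
        rw [hPj, inter_empty] at ha
        apply ha
        have h2 := hch.union a ∅ (empty_subset _) (by simp)
        rwa [sUnion_empty] at h2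
      rw [h1]
      exact Nul.empty G
  apply hNI
  have h1 : ⋃₀ range L ∈ Nul G := by
    refine hadd _ ?_ ((mk_range_w1_le L).trans_lt hκ.aleph_one_lt)
    rintro _ ⟨j, rfl⟩
    exact hLN j
  refine Nul.mono h1 ?_
  intro i hi
  have h2 : ∃ j, T (ν i) ∩ P j ∉ 𝔄 (ν i) := by
    by_contra hcon
    push Not at hcon
    apply hT (ν i)
    have h3 : T (ν i) = ⋃₀ range (fun j => T (ν i) ∩ P j) := by
      ext z
      rw [mem_sUnion]
      constructor
      · intro hz
        refine ⟨_, ⟨ToType.mk ⟨c z, hc1 z⟩, rfl⟩, hz, ?_⟩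
        rw [hP]
        simp
      · rintro ⟨_, ⟨j, rfl⟩, hz⟩
        exact hz.1
    rw [h3]
    refine hch.union _ _ ?_ (by simpa using mk_range_w1_le (fun j => T (ν i) ∩ P j))
    rintro _ ⟨j, rfl⟩
    exact hcon j
  obtain ⟨j, hj⟩ := h2
  refine ⟨L j, ⟨j, rfl⟩, ?_⟩
  rw [hL]
  exact ⟨ν i, hj, hν i hi⟩

end Pool.Agent.Helper52.Tame
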