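import Mathlib
import Pool.Agent.Helper52.TameMain

/-!
Cardinals that carry a continuous submeasure are tame.
-/

set_option autoImplicit false

open Set Cardinal

universe u v

namespace Pool.Agent.Helper52.Tame

/-- A criterion for systems indexed by a countable type. -/
theorem sys_of_countable {K : Type u} {I : Type v} [Countable I] {𝒢 : I → Set (Set K)}
    (mono : ∀ i, ∀ A ∈ 𝒢 i, ∀ B : Set K, A ⊆ B → B ∈ 𝒢 i)
    (cont : ∀ (i : I) (A : ℕ → Set K), Monotone A → (⋃ n, A n) ∈ 𝒢 i → ∃ n, A n ∈ 𝒢 i)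
    (dual : ∀ i, ∃ J : Set I, ∀ A : Set K, A ∈ 𝒢 i ↔ ∃ j ∈ J, Aᶜ ∉ 𝒢 j)
    {g : ℕ → I} (hg : Function.Surjective g) : Sys (fun n => 𝒢 (g n)) where
  mono := fun i => mono (g i)
  cont := fun i => cont (g i)
  dual := by
    intro i
    obtain ⟨J, hJ⟩ := dual (g i)
    have h1 : {A : Set K | Aᶜ ∈ 𝒢 (g i)} = ⋃ j : J, (𝒢 j)ᶜ := by
      ext A
      rw [mem_ofPred_eq, hJ, mem_iUnion, compl_compl]
      constructor
      · rintro ⟨j, hj, h⟩
        exact ⟨⟨j, hj⟩, h⟩
      · rintro ⟨⟨j, hj⟩, h⟩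
        exact ⟨j, hj, h⟩
    rw [h1]
    refine MeasurableSet.iUnion (fun j => MeasurableSet.compl ?_)
    obtain ⟨n, hn⟩ := hg j
    rw [← hn]
    exact MeasurableSpace.measurableSet_generateFrom ⟨n, rfl⟩

/-- A cardinal `κ` is submeasurable if some set `K` of cardinality `κ` carries a continuous
submeasure on all its subsets that is not zero but vanishes on all sets of cardinality less
than `κ`. Every real-valued measurable cardinal is submeasurable. -/
def Submeasurable (κ : Cardinal.{u}) : Prop :=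
  ∃ (K : Type u) (m : Set K → ℝ), #K = κ ∧ (∀ A B : Set K, A ⊆ B → m A ≤ m B) ∧
    (∀ A B : Set K, m (A ∪ B) ≤ m A + m B) ∧
    (∀ A : ℕ → Set K, Antitone A → (⋂ n, A n) = ∅ → ∀ ε > 0, ∃ n, m (A n) < ε) ∧
    (∀ A : Set K, #A < κ → m A = 0) ∧ 0 < m Set.univ

theorem Submeasurable.tame {κ : Cardinal.{u}} (hκ : 0 < κ) (h : Submeasurable κ) :
    TameCard κ := by
  obtain ⟨K, m, hK, hmono, hsub, hcont, hsmall, hpos⟩ := h
  let 𝒢 : Bool × ℚ → Set (Set K) := fun p =>
    if p.1 then {A | (p.2 : ℝ) < m A} else {A | m Aᶜ < p.2}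
  have htrue : ∀ (q : ℚ) (A : Set K), A ∈ 𝒢 (true, q) ↔ (q : ℝ) < m A := fun q A => Iff.rfl
  have hfalse : ∀ (q : ℚ) (A : Set K), A ∈ 𝒢 (false, q) ↔ m Aᶜ < (q : ℝ) := fun q A => Iff.rfl
  have hdiff : ∀ A : ℕ → Set K, Monotone A → ∀ ε > 0, ∃ n, m ((⋃ l, A l) \ A n) < ε := by
    intro A hA ε hε
    apply hcont (fun n => (⋃ l, A l) \ A n) (fun n l hnl => diff_subset_diff_right (hA hnl))
      ?_ ε hε
    rw [eq_empty_iff_forall_notMem]
    intro k hk
    rw [mem_iInter] at hk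
    obtain ⟨l, hl⟩ := mem_iUnion.1 (hk 0).1
    exact (hk l).2 hl
  have h1 : ∀ i, ∀ A ∈ 𝒢 i, ∀ B : Set K, A ⊆ B → B ∈ 𝒢 i := by
    rintro ⟨b, q⟩ A hA B hAB
    cases b with
    | true => exact lt_of_lt_of_le hA (hmono _ _ hAB)
    | false => exact lt_of_le_of_lt (hmono _ _ (compl_subset_compl.2 hAB)) hA
  have h2 : ∀ (i : Bool × ℚ) (A : ℕ → Set K), Monotone A → (⋃ n, A n) ∈ 𝒢 i →
      ∃ n, A n ∈ 𝒢 i := by
    rintro ⟨b, q⟩ A hA hU
    cases b with
    | true =>
      rw [htrue] at hU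
      obtain ⟨n, hn⟩ := hdiff A hA (m (⋃ l, A l) - q) (by linarith)
      refine ⟨n, ?_⟩
      rw [htrue]
      have h3 := hsub (A n) ((⋃ l, A l) \ A n)
      rw [union_diff_cancel (subset_iUnion A n)] at h3
      linarith
    | false =>
      rw [hfalse] at hU
      obtain ⟨n, hn⟩ := hdiff A hA (q - m (⋃ l, A l)ᶜ) (by linarith)
      refine ⟨n, ?_⟩
      rw [hfalse]
      have h3 := hsub (⋃ l, A l)ᶜ ((⋃ l, A l) \ A n)
      have h4 : (A n)ᶜ ⊆ (⋃ l, A l)ᶜ ∪ ((⋃ l, A l) \ A n) := by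
        intro k hk
        by_cases hk' : k ∈ ⋃ l, A l
        · exact Or.inr ⟨hk', hk⟩
        · exact Or.inl hk'
      have h5 := hmono _ _ h4
      linarith
  have h3 : ∀ i, ∃ J : Set (Bool × ℚ), ∀ A : Set K, A ∈ 𝒢 i ↔ ∃ j ∈ J, Aᶜ ∉ 𝒢 j := by
    rintro ⟨b, q⟩
    cases b with
    | true =>
      refine ⟨{p | p.1 = false ∧ q < p.2}, fun A => ?_⟩
      rw [htrue]
      constructor
      · intro h
        obtain ⟨r, hr1, hr2⟩ := exists_rat_btwn h
        refine ⟨(false, r), ⟨rfl, by exact_mod_cast hr1⟩, ?_⟩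
        rw [hfalse, compl_compl, not_lt]
        exact hr2.le
      · rintro ⟨⟨b, r⟩, ⟨hb, hr⟩, hA⟩
        dsimp only at hb hr
        subst hb
        rw [hfalse, compl_compl, not_lt] at hA
        have : (q : ℝ) < r := by exact_mod_cast hr
        linarith
    | false =>
      refine ⟨{p | p.1 = true ∧ p.2 < q}, fun A => ?_⟩
      rw [hfalse]
      constructor
      · intro h
        obtain ⟨r, hr1, hr2⟩ := exists_rat_btwn h
        refine ⟨(true, r), ⟨rfl, by exact_mod_cast hr2⟩, ?_⟩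
        rw [htrue, not_lt]
        exact hr1.le
      · rintro ⟨⟨b, r⟩, ⟨hb, hr⟩, hA⟩
        dsimp only at hb hr
        subst hb
        rw [htrue, not_lt] at hA
        have : (r : ℝ) < q := by exact_mod_cast hr
        linarith
  obtain ⟨g, hg⟩ := exists_surjective_nat (Bool × ℚ)
  refine ⟨K, fun n => 𝒢 (g n), hK, sys_of_countable h1 h2 h3 hg, fun A hA => ?_⟩
  obtain ⟨n, hn⟩ := hg (true, 0)
  refine ⟨n, ?_, ?_⟩
  · change A ∈ 𝒢 (g n)
    rw [hn, htrue]
    have h4 := hsub A Aᶜ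
    rw [union_compl_self, hsmall _ hA] at h4
    have : ((0 : ℚ) : ℝ) = 0 := by norm_num
    rw [this]
    linarith
  · change ∅ ∉ 𝒢 (g n)
    rw [hn, htrue, hsmall ∅ (by rw [mk_emptyCollection]; exact hκ)]
    simp

/-- A cardinal `κ` is real-valued measurable if some set `K` of cardinality `κ` carries a
countably additive probability measure on all its subsets that vanishes on all sets of
cardinality less than `κ`. -/
def RealValuedMeasurable (κ : Cardinal.{u}) : Prop :=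
  ∃ (K : Type u) (μ : @MeasureTheory.Measure K ⊤), #K = κ ∧ μ Set.univ = 1 ∧
    ∀ A : Set K, #A < κ → μ A = 0

theorem RealValuedMeasurable.submeasurable {κ : Cardinal.{u}} (h : RealValuedMeasurable κ) :
    Submeasurable κ := by
  obtain ⟨K, μ, hK, hu, hsmall⟩ := h
  let _ : MeasurableSpace K := ⊤
  have hfin : ∀ A : Set K, μ A ≠ ⊤ := fun A => by
    have h1 := MeasureTheory.measure_mono (μ := μ) (subset_univ A)
    rw [hu] at h1
    exact (h1.trans_lt ENNReal.one_lt_top).ne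
  refine ⟨K, fun A => (μ A).toReal, hK, fun A B hAB => ?_, fun A B => ?_, fun A hA hA' ε hε => ?_,
    fun A hA => ?_, ?_⟩
  · exact ENNReal.toReal_mono (hfin B) (MeasureTheory.measure_mono hAB)
  · change (μ (A ∪ B)).toReal ≤ (μ A).toReal + (μ B).toReal
    rw [← ENNReal.toReal_add (hfin A) (hfin B)]
    exact ENNReal.toReal_mono (ENNReal.add_ne_top.2 ⟨hfin A, hfin B⟩)
      (MeasureTheory.measure_union_le A B)
  · have h1 := MeasureTheory.tendsto_measure_iInter_atTop (μ := μ) (s := A)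
      (fun n => (MeasurableSpace.measurableSet_top).nullMeasurableSet) hA ⟨0, hfin _⟩
    rw [hA', MeasureTheory.measure_empty] at h1
    have h2 := (ENNReal.tendsto_toReal ENNReal.zero_ne_top).comp h1
    rw [ENNReal.toReal_zero] at h2
    obtain ⟨n, hn⟩ := (h2.eventually (gt_mem_nhds hε)).exists
    exact ⟨n, hn⟩
  · change (μ A).toReal = 0
    rw [hsmall A hA, ENNReal.toReal_zero]
  · change 0 < (μ Set.univ).toReal
    rw [hu, ENNReal.toReal_one]
    exact one_pos

end Pool.Agent.Helper52.Tame
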