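import Mathlib
import Pool.Agent.Helper52.TameEx

/-!
Cardinals that carry an ideal whose quotient has the Cohen algebra of some weight as its
completion are tame.
-/

set_option autoImplicit false

open Set Cardinal Filter

universe u v

namespace Pool.Agent.Helper52.Tame

section

variable {K : Type u} {Λ : Type v}

/-- A set of literals is consistent if it contains no literal together with its negation. -/
def Cons (d : Set (Λ × Bool)) : Prop := ∀ a : Λ, ¬ ((a, true) ∈ d ∧ (a, false) ∈ d)

/-- The cell of a set of literals: the points that satisfy all of them. -/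
def cell (E : Λ → Set K) (d : Set (Λ × Bool)) : Set K := {k | ∀ p ∈ d, (k ∈ E p.1 ↔ p.2 = true)}

/-- A `σ`-ideal `I` on `K` and a family `E` of subsets of `K` that is independent modulo `I` and
whose finite Boolean combinations are dense in the quotient by `I`. -/
structure CohenIdeal (I : Set (Set K)) (E : Λ → Set K) : Prop where
  mono : ∀ A ∈ I, ∀ B ⊆ A, B ∈ I
  empty : ∅ ∈ I
  iUnion : ∀ A : ℕ → Set K, (∀ n, A n ∈ I) → (⋃ n, A n) ∈ I
  indep : ∀ d : Set (Λ × Bool), d.Finite → Cons d → cell E d ∉ I
  dense : ∀ A : Set K, A ∉ I → ∃ d : Set (Λ × Bool), d.Finite ∧ cell E d ∉ I ∧ cell E d \ A ∈ I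

variable {I : Set (Set K)} {E : Λ → Set K}

theorem CohenIdeal.union (hI : CohenIdeal I E) {A B : Set K} (hA : A ∈ I) (hB : B ∈ I) :
    A ∪ B ∈ I := by
  have h1 := hI.iUnion (fun n => if n = 0 then A else B) (fun n => by
    split_ifs
    · exact hA
    · exact hB)
  refine hI.mono _ h1 _ ?_
  rintro k (hk | hk)
  · exact mem_iUnion.2 ⟨0, by simpa using hk⟩
  · exact mem_iUnion.2 ⟨1, by simpa using hk⟩

/-- Games of finite length: a word over the two players prescribes who adds at most one literal
to the present condition, and in the end the condition should be compatible with `A`. -/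
def Game (I : Set (Set K)) (E : Λ → Set K) : List Bool → Set K → Set (Λ × Bool) → Prop
  | [], A, d => cell E d ∩ A ∉ I
  | true :: w, A, d => Game I E w A d ∨ ∃ a, Cons (insert a d) ∧ Game I E w A (insert a d)
  | false :: w, A, d => Game I E w A d ∧ ∀ a, Cons (insert a d) → Game I E w A (insert a d)

theorem Cons.mono {d e : Set (Λ × Bool)} (h : Cons e) (hde : d ⊆ e) : Cons d :=
  fun a ha => h a ⟨hde ha.1, hde ha.2⟩

theorem cell_mono {d e : Set (Λ × Bool)} (hde : d ⊆ e) : cell E e ⊆ cell E d :=
  fun _ hk p hp => hk p (hde hp)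

theorem Game.mono (hI : CohenIdeal I E) (w : List Bool) {A B : Set K} (hAB : A ⊆ B)
    (d : Set (Λ × Bool)) (h : Game I E w A d) : Game I E w B d := by
  induction w generalizing d with
  | nil =>
    intro hB
    exact h (hI.mono _ hB _ (inter_subset_inter_right _ hAB))
  | cons b w ih =>
    cases b with
    | true =>
      rcases h with h | ⟨a, ha, h⟩
      · exact Or.inl (ih d h)
      · exact Or.inr ⟨a, ha, ih _ h⟩
    | false => exact ⟨ih d h.1, fun a ha => ih _ (h.2 a ha)⟩

/-- The limit of a sequence of conditions along a fixed nonprincipal ultrafilter. -/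
def Lim (δ : ℕ → Set (Λ × Bool)) (d : Set (Λ × Bool)) : Prop :=
  ∀ a, a ∈ d ↔ ∀ᶠ n in (hyperfilter ℕ : Filter ℕ), a ∈ δ n

theorem lim_const (d : Set (Λ × Bool)) : Lim (fun _ => d) d := by
  intro a
  simp

theorem lim_insert {δ : ℕ → Set (Λ × Bool)} {d : Set (Λ × Bool)} (h : Lim δ d)
    (a : ℕ → Λ × Bool) :
    (∃ b, (∀ᶠ n in (hyperfilter ℕ : Filter ℕ), a n = b) ∧
      Lim (fun n => insert (a n) (δ n)) (insert b d)) ∨
    Lim (fun n => insert (a n) (δ n)) d := by
  by_cases hb : ∃ b, ∀ᶠ n in (hyperfilter ℕ : Filter ℕ), a n = b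
  · obtain ⟨b, hb⟩ := hb
    refine Or.inl ⟨b, hb, fun c => ?_⟩
    simp only [mem_insert_iff]
    rw [Ultrafilter.eventually_or, ← h c]
    have h1 : c = b ↔ ∀ᶠ n in (hyperfilter ℕ : Filter ℕ), c = a n := by
      constructor
      · rintro rfl
        exact hb.mono (fun n hn => hn.symm)
      · intro hc
        obtain ⟨n, hn1, hn2⟩ := (hc.and hb).exists
        rw [hn1, hn2]
    rw [h1]
  · refine Or.inr (fun c => ?_)
    simp only [mem_insert_iff]
    rw [Ultrafilter.eventually_or, ← h c]
    constructor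
    · exact Or.inr
    · rintro (hc | hc)
      · exact absurd ⟨c, hc.mono (fun n hn => hn.symm)⟩ hb
      · exact hc

theorem Lim.cons {δ : ℕ → Set (Λ × Bool)} {d : Set (Λ × Bool)} (h : Lim δ d)
    (hδ : ∀ᶠ n in (hyperfilter ℕ : Filter ℕ), Cons (δ n)) : Cons d := by
  rintro a ⟨h1, h2⟩
  obtain ⟨n, ⟨h3, h4⟩, h5⟩ := ((((h _).1 h1).and ((h _).1 h2)).and hδ).exists
  exact h5 a ⟨h3, h4⟩

theorem Lim.insert {δ : ℕ → Set (Λ × Bool)} {d : Set (Λ × Bool)} (h : Lim δ d)
    (hδ : ∀ᶠ n in (hyperfilter ℕ : Filter ℕ), Cons (δ n)) {a : Λ × Bool}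
    (ha : Cons (insert a d)) :
    Lim (fun n => insert a (δ n)) (insert a d) ∧
      ∀ᶠ n in (hyperfilter ℕ : Filter ℕ), Cons (insert a (δ n)) := by
  constructor
  · intro c
    simp only [mem_insert_iff]
    rw [Ultrafilter.eventually_or, ← h c]
    simp
  · have h1 : (a.1, !a.2) ∉ d := by
      intro h1
      apply ha a.1
      obtain ⟨x, b⟩ := a
      cases b
      · exact ⟨mem_insert_of_mem _ h1, mem_insert _ _⟩
      · exact ⟨mem_insert _ _, mem_insert_of_mem _ h1⟩
    rw [h, ← Ultrafilter.eventually_not] at h1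
    filter_upwards [h1, hδ] with n hn1 hn2
    rintro c ⟨h3, h4⟩
    obtain ⟨x, b⟩ := a
    rw [mem_insert_iff, Prod.mk.injEq] at h3 h4
    rcases h3 with ⟨rfl, rfl⟩ | h3
    · rcases h4 with ⟨-, h4⟩ | h4
      · exact absurd h4 (by decide)
      · exact hn1 h4
    · rcases h4 with ⟨rfl, rfl⟩ | h4
      · exact hn1 h3
      · exact hn2 c ⟨h3, h4⟩

/-- A condition below the limit is compatible with almost all members of the sequence. -/
theorem CohenIdeal.amalgam (hI : CohenIdeal I E) {δ : ℕ → Set (Λ × Bool)}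
    {d : Set (Λ × Bool)} (h : Lim δ d)
    (hδ : ∀ᶠ n in (hyperfilter ℕ : Filter ℕ), Cons (δ n)) {e : Set (Λ × Bool)}
    (he : e.Finite) (he1 : cell E e ∉ I) (he2 : cell E e \ cell E d ∈ I) :
    ∀ᶠ n in (hyperfilter ℕ : Filter ℕ), Cons (e ∪ δ n) := by
  have h1 : ∀ a ∈ e, ∀ᶠ n in (hyperfilter ℕ : Filter ℕ), (a.1, !a.2) ∉ δ n := by
    intro a ha
    rw [Ultrafilter.eventually_not, ← h]
    intro had
    apply he1
    refine hI.mono _ he2 _ (fun k hk => ⟨hk, fun hk' => ?_⟩)
    have h3 := hk a ha
    have h4 := hk' _ had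
    rw [h3] at h4
    cases hb : a.2 <;> simp [hb] at h4
  have h2 := (Filter.eventually_all_finite he).2 h1
  have hce : Cons e := by
    rintro a ⟨h3, h4⟩
    apply he1
    refine hI.mono _ hI.empty _ (fun k hk => ?_)
    have h5 := hk _ h3
    have h6 := hk _ h4
    rw [h5] at h6
    simp at h6
  filter_upwards [h2, hδ] with n hn1 hn2
  rintro a ⟨h3 | h3, h4 | h4⟩
  · exact hce a ⟨h3, h4⟩
  · exact hn1 _ h3 h4
  · exact hn1 _ h4 h3
  · exact hn2 a ⟨h3, h4⟩

/-- Continuity along increasing sequences, with moving conditions. -/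
theorem Game.up (hI : CohenIdeal I E) (w : List Bool) {A : ℕ → Set K} (hA : Monotone A)
    (δ : ℕ → Set (Λ × Bool)) (d : Set (Λ × Bool)) (hfin : ∀ n, (δ n).Finite)
    (hδ : ∀ᶠ n in (hyperfilter ℕ : Filter ℕ), Cons (δ n)) (hd : Lim δ d)
    (h : Game I E w (⋃ n, A n) d) :
    ∀ᶠ n in (hyperfilter ℕ : Filter ℕ), Game I E w (A n) (δ n) := by
  induction w generalizing δ d with
  | nil =>
    have h1 : ∃ m, cell E d ∩ A m ∉ I := by
      by_contra hcon
      push Not at hcon
      apply h
      rw [inter_iUnion]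
      exact hI.iUnion _ hcon
    obtain ⟨m, hm⟩ := h1
    obtain ⟨e, he, he1, he2⟩ := hI.dense _ hm
    have h3 := hI.amalgam hd hδ he he1 (hI.mono _ he2 _ (diff_subset_diff_right inter_subset_left))
    have h4 : ∀ᶠ n in (hyperfilter ℕ : Filter ℕ), m ≤ n :=
      (Nat.hyperfilter_le_atTop : (hyperfilter ℕ : Filter ℕ) ≤ atTop) (eventually_ge_atTop m)
    filter_upwards [h3, h4] with n hn1 hn2 hn3
    apply hI.indep (e ∪ δ n) (he.union (hfin n)) hn1
    refine hI.mono _ (hI.union he2 hn3) _ (fun k hk => ?_)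
    have hk1 := cell_mono (E := E) subset_union_left hk
    have hk2 := cell_mono (E := E) subset_union_right hk
    by_cases hkA : k ∈ A m
    · exact Or.inr ⟨hk2, hA hn2 hkA⟩
    · exact Or.inl ⟨hk1, fun h => hkA h.2⟩
  | cons b w ih =>
    cases b with
    | true =>
      rcases h with h | ⟨a, ha, h⟩
      · exact (ih δ d hfin hδ hd h).mono (fun n hn => Or.inl hn)
      · obtain ⟨h1, h2⟩ := hd.insert hδ ha
        have h3 := ih _ _ (fun n => (hfin n).insert a) h2 h1 h
        filter_upwards [h2, h3] with n hn1 hn2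
        exact Or.inr ⟨a, hn1, hn2⟩
    | false =>
      obtain ⟨h1, h2⟩ := h
      by_contra hcon
      rw [← Ultrafilter.eventually_not] at hcon
      have h3 := ih δ d hfin hδ hd h1
      have h4 : ∀ᶠ n in (hyperfilter ℕ : Filter ℕ),
          ∃ a, Cons (insert a (δ n)) ∧ ¬ Game I E w (A n) (insert a (δ n)) := by
        filter_upwards [hcon, h3] with n hn1 hn2
        by_contra hn3
        push Not at hn3
        exact hn1 ⟨hn2, hn3⟩
      obtain ⟨-, a₀, -⟩ := h4.exists
      have h5 : ∀ n, ∃ a, (∃ a, Cons (insert a (δ n)) ∧ ¬ Game I E w (A n) (insert a (δ n))) →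
          Cons (insert a (δ n)) ∧ ¬ Game I E w (A n) (insert a (δ n)) := by
        intro n
        by_cases hn : ∃ a, Cons (insert a (δ n)) ∧ ¬ Game I E w (A n) (insert a (δ n))
        · obtain ⟨a, ha⟩ := hn
          exact ⟨a, fun _ => ha⟩
        · exact ⟨a₀, fun hn' => absurd hn' hn⟩
      choose a ha using h5
      have h6 : ∀ᶠ n in (hyperfilter ℕ : Filter ℕ), Cons (insert (a n) (δ n)) ∧
          ¬ Game I E w (A n) (insert (a n) (δ n)) := h4.mono (fun n hn => ha n hn)
      have h7 : ∀ᶠ n in (hyperfilter ℕ : Filter ℕ), Cons (insert (a n) (δ n)) :=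
        h6.mono (fun n hn => hn.1)
      have h8 : ∀ᶠ n in (hyperfilter ℕ : Filter ℕ), Game I E w (A n) (insert (a n) (δ n)) := by
        rcases lim_insert hd a with ⟨b, -, hb⟩ | hb
        · exact ih _ _ (fun n => (hfin n).insert _) h7 hb (h2 b (hb.cons h7))
        · exact ih _ _ (fun n => (hfin n).insert _) h7 hb h1
      obtain ⟨n, hn1, hn2⟩ := (h6.and h8).exists
      exact hn1.2 hn2

theorem Game.pass (A : Set K) (l : ℕ) (d : Set (Λ × Bool))
    (h : Game I E (List.replicate l false) A d) : cell E d ∩ A ∉ I := by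
  induction l with
  | zero => exact h
  | succ l ih => exact ih h.1

/-- A player with many moves can play any prescribed compatible condition. -/
theorem Game.play (A : Set K) (s : List (Λ × Bool)) (l : ℕ) (hs : s.length ≤ l)
    (d : Set (Λ × Bool)) (hc : Cons ({a | a ∈ s} ∪ d))
    (h : Game I E (List.replicate l false) A d) : cell E ({a | a ∈ s} ∪ d) ∩ A ∉ I := by
  induction s generalizing l d with
  | nil =>
    have h1 : ({a | a ∈ ([] : List (Λ × Bool))} ∪ d) = d := by
      ext a; simp
    rw [h1]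
    exact Game.pass A l d h
  | cons b s ih =>
    cases l with
    | zero => simp at hs
    | succ l =>
      have h1 : ({a | a ∈ b :: s} ∪ d) = ({a | a ∈ s} ∪ insert b d) := by
        ext a
        simp only [List.mem_cons, mem_union, mem_ofPred_eq, mem_insert_iff]
        tauto
      rw [h1] at hc ⊢
      exact ih l (by simpa using hs) _ hc (h.2 b (hc.mono subset_union_right))

/-- Compactness: if the first player wins all games with a long enough final phase then he wins
the limit game. -/
theorem Game.down (hI : CohenIdeal I E) (w : List Bool) (A : Set K)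
    (δ : ℕ → Set (Λ × Bool)) (d : Set (Λ × Bool)) (hfin : ∀ n, (δ n).Finite)
    (hδ : ∀ᶠ n in (hyperfilter ℕ : Filter ℕ), Cons (δ n)) (hd : Lim δ d)
    (h : ∀ᶠ n in (hyperfilter ℕ : Filter ℕ),
      Game I E (w.map not ++ List.replicate n false) A (δ n)) : ¬ Game I E w Aᶜ d := by
  induction w generalizing δ d with
  | nil =>
    intro hcon
    obtain ⟨e, he, he1, he2⟩ := hI.dense _ hcon
    have h3 := hI.amalgam hd hδ he he1 (hI.mono _ he2 _ (diff_subset_diff_right inter_subset_left))
    obtain ⟨s, hs⟩ : ∃ s : List (Λ × Bool), {a | a ∈ s} = e :=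
      ⟨he.toFinset.toList, by ext a; simp⟩
    have h4 : ∀ᶠ n in (hyperfilter ℕ : Filter ℕ), s.length ≤ n :=
      (Nat.hyperfilter_le_atTop : (hyperfilter ℕ : Filter ℕ) ≤ atTop) (eventually_ge_atTop _)
    obtain ⟨n, ⟨hn1, hn2⟩, hn3⟩ := ((h3.and h4).and h).exists
    have h5 := Game.play A s n hn2 (δ n) (by rw [hs]; exact hn1) (by simpa using hn3)
    rw [hs] at h5
    apply h5
    refine hI.mono _ he2 _ (fun k hk => ⟨cell_mono (E := E) subset_union_left hk.1, ?_⟩)
    intro hk'
    exact hk'.2 hk.2
  | cons b w ih =>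
    cases b with
    | true =>
      rintro (hg | ⟨a, ha, hg⟩)
      · exact ih δ d hfin hδ hd (h.mono (fun n hn => hn.1)) hg
      · obtain ⟨h1, h2⟩ := hd.insert hδ ha
        refine ih _ _ (fun n => (hfin n).insert a) h2 h1 ?_ hg
        filter_upwards [h, h2] with n hn1 hn2
        exact hn1.2 a hn2
    | false =>
      rintro ⟨hg1, hg2⟩
      have hg3 : ∀ᶠ n in (hyperfilter ℕ : Filter ℕ),
          ¬ Game I E (w.map not ++ List.replicate n false) A (δ n) := by
        by_contra hcon
        rw [← Ultrafilter.eventually_not] at hcon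
        exact ih δ d hfin hδ hd (hcon.mono (fun n hn => not_not.1 hn)) hg1
      have h4 : ∀ᶠ n in (hyperfilter ℕ : Filter ℕ), ∃ a, Cons (insert a (δ n)) ∧
          Game I E (w.map not ++ List.replicate n false) A (insert a (δ n)) := by
        filter_upwards [h, hg3] with n hn1 hn2
        rcases hn1 with hn1 | hn1
        · exact absurd hn1 hn2
        · exact hn1
      obtain ⟨-, a₀, -⟩ := h4.exists
      have h5 : ∀ n, ∃ a, (∃ a, Cons (insert a (δ n)) ∧
            Game I E (w.map not ++ List.replicate n false) A (insert a (δ n))) →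
          Cons (insert a (δ n)) ∧
            Game I E (w.map not ++ List.replicate n false) A (insert a (δ n)) := by
        intro n
        by_cases hn : ∃ a, Cons (insert a (δ n)) ∧
            Game I E (w.map not ++ List.replicate n false) A (insert a (δ n))
        · obtain ⟨a, ha⟩ := hn
          exact ⟨a, fun _ => ha⟩
        · exact ⟨a₀, fun hn' => absurd hn' hn⟩
      choose a ha using h5
      have h6 := h4.mono (fun n hn => ha n hn)
      have h7 : ∀ᶠ n in (hyperfilter ℕ : Filter ℕ), Cons (insert (a n) (δ n)) :=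
        h6.mono (fun n hn => hn.1)
      rcases lim_insert hd a with ⟨b, -, hb⟩ | hb
      · exact ih _ _ (fun n => (hfin n).insert _) h7 hb (h6.mono (fun n hn => hn.2))
          (hg2 b (hb.cons h7))
      · exact ih _ _ (fun n => (hfin n).insert _) h7 hb (h6.mono (fun n hn => hn.2)) hg1

theorem Game.final (hI : CohenIdeal I E) (A : Set K) (l : ℕ) (d : Set (Λ × Bool))
    (hfin : d.Finite) (hc : Cons d) (h : cell E d ∩ Aᶜ ∈ I) :
    Game I E (List.replicate l false) A d := by
  induction l generalizing d with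
  | zero =>
    intro h1
    apply hI.indep d hfin hc
    refine hI.mono _ (hI.union h1 h) _ (fun k hk => ?_)
    by_cases hkA : k ∈ A
    · exact Or.inl ⟨hk, hkA⟩
    · exact Or.inr ⟨hk, hkA⟩
  | succ l ih =>
    exact ⟨ih d hfin hc h, fun a ha => ih _ (hfin.insert a) ha
      (hI.mono _ h _ (inter_subset_inter_left _ (cell_mono (subset_insert _ _))))⟩

theorem Game.back (hI : CohenIdeal I E) (w : List Bool) (A : Set K) (l : ℕ)
    (d : Set (Λ × Bool)) (hfin : d.Finite) (hc : Cons d) (h : ¬ Game I E w Aᶜ d) :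
    Game I E (w.map not ++ List.replicate l false) A d := by
  induction w generalizing d with
  | nil => exact Game.final hI A l d hfin hc (not_not.1 h)
  | cons b w ih =>
    cases b with
    | true =>
      refine ⟨ih d hfin hc (fun h' => h (Or.inl h')), fun a ha => ?_⟩
      exact ih _ (hfin.insert a) ha (fun h' => h (Or.inr ⟨a, ha, h'⟩))
    | false =>
      by_cases h1 : Game I E w Aᶜ d
      · have h2 : ¬ ∀ a, Cons (insert a d) → Game I E w Aᶜ (insert a d) := fun h2 => h ⟨h1, h2⟩
        push Not at h2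
        obtain ⟨a, ha, h2⟩ := h2
        exact Or.inr ⟨a, ha, ih _ (hfin.insert a) ha h2⟩
      · exact Or.inl (ih d hfin hc h1)

end

/-- A cardinal `κ` is of Cohen type if some set `K` of cardinality `κ` carries a `σ`-ideal
containing all sets of cardinality less than `κ` and a family of subsets, independent modulo the
ideal, whose finite Boolean combinations are dense in the quotient. -/
def CohenType (κ : Cardinal.{u}) : Prop :=
  ∃ (K Λ : Type u) (I : Set (Set K)) (E : Λ → Set K), #K = κ ∧ CohenIdeal I E ∧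
    ∀ A : Set K, #A < κ → A ∈ I

theorem CohenType.tame {κ : Cardinal.{u}} (h : CohenType κ) : TameCard κ := by
  obtain ⟨K, Λ, I, E, hK, hI, hsmall⟩ := h
  have hcons : Cons (∅ : Set (Λ × Bool)) := fun a ha => ha.1
  have hcell : cell E ∅ = Set.univ := by
    ext k; simp [cell]
  obtain ⟨g, hg⟩ := exists_surjective_nat (List Bool)
  refine ⟨K, fun n => {A | Game I E (g n) A ∅}, hK,
    sys_of_countable (𝒢 := fun w : List Bool => {A | Game I E w A ∅}) ?_ ?_ ?_ hg, ?_⟩
  · intro w A hA B hAB
    exact Game.mono hI w hAB _ hA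
  · intro w A hA hU
    exact (Game.up hI w hA (fun _ => ∅) ∅ (fun _ => finite_empty)
      (Eventually.of_forall fun _ => hcons) (lim_const _) hU).exists
  · intro w
    refine ⟨range (fun l : ℕ => w.map not ++ List.replicate l false), fun A => ?_⟩
    constructor
    · intro hA
      by_contra hcon
      push Not at hcon
      have h1 : ∀ l : ℕ, Game I E (w.map not ++ List.replicate l false) Aᶜ ∅ :=
        fun l => hcon _ ⟨l, rfl⟩
      have h2 := Game.down hI w Aᶜ (fun _ => ∅) ∅ (fun _ => finite_empty)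
        (Eventually.of_forall fun _ => hcons) (lim_const _) (Eventually.of_forall h1)
      rw [compl_compl] at h2
      exact h2 hA
    · rintro ⟨_, ⟨l, rfl⟩, hA⟩
      by_contra hcon
      apply hA
      refine Game.back hI w Aᶜ l ∅ finite_empty hcons ?_
      rw [compl_compl]
      exact hcon
  · intro A hA
    obtain ⟨n, hn⟩ := hg []
    refine ⟨n, ?_, ?_⟩
    · change Game I E (g n) A ∅
      rw [hn]
      intro h1
      rw [hcell, univ_inter] at h1
      have h2 := hI.union h1 (hsmall _ hA)
      rw [union_compl_self, ← hcell] at h2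
      exact hI.indep ∅ finite_empty hcons h2
    · change ¬ Game I E (g n) ∅ ∅
      rw [hn]
      intro h1
      apply h1
      rw [inter_empty]
      exact hI.empty

end Pool.Agent.Helper52.Tame
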