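import Mathlib
import Pool.Agent.Helper52.TameCohen
import Pool.Agent.Helper52.TameChainMain

/-!
The dichotomy theorem for point-finite Borel-additive families, with a quasi-measurable cardinal
that is not tame in the second alternative.
-/

set_option autoImplicit false

open Set Cardinal Ordinal TopologicalSpace
open Pool.Agent.Helper66.PF

universe u v

namespace Pool.Agent.Helper52.Tame

/-- The data obtained from a family that is not of bounded class. -/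
theorem data' {X : Type u} [MetricSpace X] {ι : Type u} {F : ι → Set X} (hF : PFB F)
    (h : ¬ ∃ α : Ordinal.{0}, α < ω₁ ∧ ∀ T : Set ι, Sg α (⋃ i ∈ T, F i)) :
    ∃ (κι : Type u) (G : κι → Set X) (T : (ω₁ : Ordinal.{0}).ToType → Set κι) (κ : Cardinal.{u}),
      PFB G ∧ (∀ a b, (∀ j, a ∈ T j ↔ b ∈ T j) → a = b) ∧
      (∀ j, ¬ Sg (ToType.toOrd j : Ordinal.{0}) (⋃ i ∈ T j, G i)) ∧
      SatIdeal (Nul G) ∧ QuasiMeasurable κ ∧ κ ≤ #ι ∧ κ ≤ 𝔠 ∧
      (∀ N ⊆ Nul G, #N < κ → ⋃₀ N ∈ Nul G) ∧ ∃ N ⊆ Nul G, #N = κ ∧ ⋃₀ N ∉ Nul G := by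
  obtain ⟨κι, G, T, hcard, hG, hsep, hT⟩ := collapse hF h
  have huniv : Set.univ ∉ Nul G := by
    rintro ⟨α, hα, h1⟩
    apply hT (ToType.mk ⟨α, hα⟩)
    have := h1 (T (ToType.mk ⟨α, hα⟩)) (subset_univ _)
    simpa using this
  have hI : SatIdeal (Nul G) := Nul.satIdeal hG huniv
  obtain ⟨κ, hκ, hκι, hadd, hN⟩ := hI.exists_add
  refine ⟨κι, G, T, κ, hG, hsep, hT, hI, hκ, hκι.trans hcard, ?_, hadd, hN⟩
  by_contra hc
  rw [not_le] at hc
  exact tree hI T hsep (fun F hF hF' => hadd F hF (hF'.trans_lt hc))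

/-- The dichotomy for indexed families. -/
theorem dichotomy' {X : Type u} [MetricSpace X] {ι : Type u} {F : ι → Set X} (hF : PFB F) :
    (∃ α : Ordinal.{0}, α < ω₁ ∧ ∀ T : Set ι, Sg α (⋃ i ∈ T, F i)) ∨
    ((∃ κ : Cardinal.{u}, QuasiMeasurable κ ∧ ¬ TameCard κ ∧ ¬ Decomposing κ ∧
        κ ≤ #ι ∧ κ ≤ 𝔠 ∧ ∀ D : Set X, Dense D → κ < #D) ∧
      ∀ (Y : Type u) [MetricSpace Y] [SeparableSpace Y],
        (∀ A : Set Y, @MeasurableSet Y (borel Y) A) → Countable Y) := by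
  by_cases h : ∃ α : Ordinal.{0}, α < ω₁ ∧ ∀ T : Set ι, Sg α (⋃ i ∈ T, F i)
  · exact Or.inl h
  · right
    obtain ⟨κι, G, T, κ, hG, hsep, hT, hI, hκ, hκι, hκc, hadd, N, hN, hNκ, hNI⟩ := data' hF h
    refine ⟨⟨κ, hκ, not_tame hκ hadd hN hNκ hNI, not_decomposing hG hκ hκc hadd hN hNκ hNI,
      hκι, hκc, fun D hD => ?_⟩,
      countable_of_unbounded hG T hsep hT⟩
    by_contra hcon
    rw [not_lt] at hcon
    have hXne : Nonempty X := by
      by_contra hX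
      rw [not_nonempty_iff] at hX
      apply hI.univ
      refine ⟨1, one_lt_w1, fun T' _ => ?_⟩
      have : (⋃ i ∈ T', G i) = ∅ := Set.eq_empty_of_isEmpty _
      rw [this]
      exact sg_empty le_rfl
    have hDne : Nonempty D := hD.nonempty.to_subtype
    have hle : #D ≤ #κ.ord.ToType := by rw [mk_ord_toType]; exact hcon
    obtain ⟨g⟩ := hle
    obtain ⟨s, hsurj⟩ : ∃ s : κ.ord.ToType → D, Function.Surjective s :=
      ⟨Function.invFun g, Function.invFun_surjective g.injective⟩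
    refine dense_false hG T hsep hT hI hκ hadd (fun k => (s k : X)) ?_
    have h1 : range (fun k => (s k : X)) = D := by
      ext x
      constructor
      · rintro ⟨k, rfl⟩
        exact (s k).2
      · intro hx
        obtain ⟨k, hk⟩ := hsurj ⟨x, hx⟩
        exact ⟨k, by simp only [hk]⟩
    rw [DenseRange, h1]
    exact hD

/-- The dichotomy for families of sets, with any hierarchy satisfying the usual equations. -/
theorem dichotomy_set' (X : Type u) [MetricSpace X] (𝒳 : Set (Set X))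
    (hfin : ∀ x : X, {A : Set X | A ∈ 𝒳 ∧ x ∈ A}.Finite)
    (hadd : ∀ 𝒴 ⊆ 𝒳, @MeasurableSet X (borel X) (⋃₀ 𝒴))
    (S : Ordinal.{0} → Set (Set X)) (hS1 : S 1 = {U : Set X | IsOpen U})
    (hS2 : ∀ α : Ordinal.{0}, 1 < α → α < (Cardinal.aleph 1).ord →
        S α = {A : Set X | ∃ f : ℕ → Set X, A = (⋃ n, f n) ∧
          ∀ n, ∃ β : Ordinal.{0}, 1 ≤ β ∧ β < α ∧ (f n)ᶜ ∈ S β}) :
    (∃ α : Ordinal.{0}, 1 ≤ α ∧ α < (Cardinal.aleph 1).ord ∧ ∀ 𝒴 ⊆ 𝒳, ⋃₀ 𝒴 ∈ S α) ∨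
    ((∃ κ : Cardinal.{u}, QuasiMeasurable κ ∧ κ.IsRegular ∧ Order.IsSuccLimit κ ∧
        κ ≤ #𝒳 ∧ κ ≤ 𝔠 ∧ (∀ D : Set X, Dense D → κ < #D) ∧
        ¬ RealValuedMeasurable κ ∧ ¬ CohenType κ ∧ ¬ TameCard κ ∧ ¬ Decomposing κ) ∧
      ∀ (Y : Type u) [MetricSpace Y] [SeparableSpace Y],
        (∀ A : Set Y, @MeasurableSet Y (borel Y) A) → Countable Y) := by
  have hF : PFB (fun A : 𝒳 => (A : Set X)) := by
    refine ⟨fun x => ?_, fun T => ?_⟩
    · refine ((hfin x).preimage (f := (Subtype.val : 𝒳 → Set X))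
        Subtype.val_injective.injOn).subset ?_
      intro A hA
      exact ⟨A.2, hA⟩
    · have := hadd (Subtype.val '' T) (by rintro _ ⟨A, -, rfl⟩; exact A.2)
      rwa [sUnion_image] at this
  rcases dichotomy' hF with ⟨α, hα, h⟩ | ⟨⟨κ, hκ, h0, h00, h1, h2, h3⟩, h4⟩
  · left
    have hα' : α < (Cardinal.aleph 1).ord := by simpa using hα
    refine ⟨α, (h ∅).one_le, hα', fun 𝒴 h𝒴 => ?_⟩
    rw [eq_sg S hS1 hS2 α (h ∅).one_le hα']
    have h5 := h (Subtype.val ⁻¹' 𝒴)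
    have h6 : (⋃ i ∈ (Subtype.val ⁻¹' 𝒴 : Set 𝒳), (i : Set X)) = ⋃₀ 𝒴 := by
      ext x
      simp only [mem_iUnion, mem_preimage, exists_prop, mem_sUnion]
      constructor
      · rintro ⟨A, hA, hx⟩
        exact ⟨A, hA, hx⟩
      · rintro ⟨A, hA, hx⟩
        exact ⟨⟨A, h𝒴 hA⟩, hA, hx⟩
    rwa [h6] at h5
  · have hpos : 0 < κ := Cardinal.aleph0_pos.trans hκ.lt
    exact Or.inr ⟨⟨κ, hκ, hκ.isRegular, hκ.isSuccLimit, h1, h2, h3,
      fun h => h0 (h.submeasurable.tame hpos), fun h => h0 h.tame, h0, h00⟩, h4⟩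

end Pool.Agent.Helper52.Tame
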